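import Pool.Agent.Lib.MP_640417_ag.Glob.Defs

/-!
# MP_640417_ag, Gn, module KBas (200 lines): restriction to a kernel

`KB A`: a basis `ι` (columns) of the kernel of `A`, a left inverse `π`, and `R` with `ι π + R A = 1`.
* `exists_kb`: basis of the kernel; `π` a left inverse; `1 - ι π` vanishes on the kernel of `A`, so it factors through `A`
  (`1 - ι π = R A`: a linear map on the range of `A`, extended to everything, `LinearMap.exists_extend`).
* `kb_map`: apply the ring homomorphism to all equations.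
* Let `B` commute with `A` and `Bk = π B ι`. `B ι = ι Bk` (`B ι` is killed by `A`, so `ι π B ι = B ι` by `ι π + R A = 1`), so
  `B^m ι = ι Bk^m`, and `ι` maps the generalized kernel of `Bk` isomorphically to the generalized kernel of `B` on the kernel of
  `A`. Its dimension is the multiplicity of the root `0` of the characteristic polynomial of `Bk`
  (Mathlib: search `finrank_maxGenEigenspace`, `LinearMap.finrank_maxGenEigenspace_eq`, `rootMultiplicity`;
  `Matrix.charpoly`, `LinearMap.charpoly_toMatrix`; compare `Glob/Cnt.lean`, `Glob/FourC.lean`).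
* `nul_le`: a nonzero coefficient of degree `m` bounds the multiplicity of the root `0` by `m`; `le_nul`: if the coefficients
  of degree `< m` vanish then `X^m` divides the characteristic polynomial, which is monic.
-/

set_option autoImplicit false

namespace Pool.Agent.Lib.MP_640417_ag.Gn

open Matrix

/-- a basis of the kernel of `A` -/
structure KB {κ : Type} [Fintype κ] [DecidableEq κ] {F : Type} [Field F] (A : Matrix κ κ F) where
  /-- the dimension of the kernel -/
  n : ℕ
  /-- the basis -/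
  ι : Matrix κ (Fin n) F
  /-- the coordinates -/
  π : Matrix (Fin n) κ F
  /-- an auxiliary matrix -/
  R : Matrix κ κ F
  πι : π * ι = 1
  Aι : A * ι = 0
  res : ι * π + R * A = 1

variable {κ : Type} [Fintype κ] [DecidableEq κ] {F : Type} [Field F]

theorem exists_kb (A : Matrix κ κ F) : Nonempty (KB A) := by
  classical
  obtain ⟨f, hf⟩ : ∃ f : (κ → F) →ₗ[F] (κ → F), f = Matrix.toLin' A := ⟨_, rfl⟩
  have hA : A = LinearMap.toMatrix' f := by rw [hf, LinearMap.toMatrix'_toLin']
  let b := Module.finBasis F (LinearMap.ker f)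
  let i : (Fin (Module.finrank F (LinearMap.ker f)) → F) →ₗ[F] (κ → F) :=
    (LinearMap.ker f).subtype ∘ₗ b.equivFun.symm.toLinearMap
  have hi : LinearMap.ker i = ⊥ := by
    rw [LinearMap.ker_eq_bot]
    exact (Submodule.injective_subtype _).comp b.equivFun.symm.injective
  obtain ⟨p, hp⟩ := i.exists_leftInverse_of_injective hi
  have hfi : f ∘ₗ i = 0 := by
    ext x : 1
    simp only [LinearMap.comp_apply, i]
    ext
    simp
  have hg : ∀ x ∈ LinearMap.ker f,
      ((LinearMap.id : (κ → F) →ₗ[F] (κ → F)) - i ∘ₗ p) x = 0 := by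
    intro x hx
    have h1 : i (b.equivFun ⟨x, hx⟩) = x := by simp [i]
    have h2 : p x = b.equivFun ⟨x, hx⟩ := by
      conv_lhs => rw [← h1]
      rw [← LinearMap.comp_apply, hp, LinearMap.id_apply]
    rw [LinearMap.sub_apply, LinearMap.id_apply, LinearMap.comp_apply, h2, h1, sub_self]
  let s : LinearMap.range f →ₗ[F] (κ → F) :=
    (LinearMap.ker f).liftQ (LinearMap.id - i ∘ₗ p) (fun x hx => by
      rw [LinearMap.mem_ker]; exact hg x hx) ∘ₗ f.quotKerEquivRange.symm.toLinearMap
  obtain ⟨r, hr⟩ := LinearMap.exists_extend s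
  have hrf : r ∘ₗ f = LinearMap.id - i ∘ₗ p := by
    apply LinearMap.ext
    intro x
    have h1 : r (f x) = s ⟨f x, LinearMap.mem_range_self f x⟩ := by
      rw [← hr]; rfl
    rw [LinearMap.comp_apply, h1]
    have h2 : f.quotKerEquivRange.symm ⟨f x, LinearMap.mem_range_self f x⟩ =
        (LinearMap.ker f).mkQ x := by
      rw [LinearEquiv.symm_apply_eq]
      rfl
    simp only [s, LinearMap.comp_apply, LinearEquiv.coe_coe]
    rw [h2, Submodule.mkQ_apply, Submodule.liftQ_apply]
  refine ⟨⟨Module.finrank F (LinearMap.ker f), LinearMap.toMatrix' i, LinearMap.toMatrix' p,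
    LinearMap.toMatrix' r, ?_, ?_, ?_⟩⟩
  · rw [← LinearMap.toMatrix'_comp, hp, LinearMap.toMatrix'_id]
  · rw [hA, ← LinearMap.toMatrix'_comp, hfi, map_zero]
  · rw [hA, ← LinearMap.toMatrix'_comp, ← LinearMap.toMatrix'_comp, hrf, ← map_add,
      add_sub_cancel, LinearMap.toMatrix'_id]

/-- extension of scalars -/
noncomputable def KB.map {A : Matrix κ κ F} (k : KB A) (K : Type) [Field K] [Algebra F K] :
    KB (A.map (algebraMap F K)) where
  n := k.n
  ι := k.ι.map (algebraMap F K)
  π := k.π.map (algebraMap F K)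
  R := k.R.map (algebraMap F K)
  πι := by
    rw [← Matrix.map_mul, k.πι, Matrix.map_one _ (map_zero _) (map_one _)]
  Aι := by
    rw [← Matrix.map_mul, k.Aι, Matrix.map_zero _ (map_zero _)]
  res := by
    rw [← Matrix.map_mul, ← Matrix.map_mul, ← Matrix.map_add _ (map_add _), k.res,
      Matrix.map_one _ (map_zero _) (map_one _)]

theorem kb_comm {A : Matrix κ κ F} (k : KB A) {B : Matrix κ κ F} (h : A * B = B * A) :
    B * k.ι = k.ι * (k.π * B * k.ι) := by
  have h1 : A * (B * k.ι) = 0 := by
    rw [← Matrix.mul_assoc, h, Matrix.mul_assoc, k.Aι, Matrix.mul_zero]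
  calc B * k.ι = (k.ι * k.π + k.R * A) * (B * k.ι) := by rw [k.res, Matrix.one_mul]
    _ = k.ι * k.π * (B * k.ι) + k.R * (A * (B * k.ι)) := by
      rw [Matrix.add_mul, Matrix.mul_assoc k.R]
    _ = k.ι * (k.π * B * k.ι) := by
      rw [h1, Matrix.mul_zero, add_zero, Matrix.mul_assoc, Matrix.mul_assoc k.π]

theorem kb_inj {A : Matrix κ κ F} (k : KB A) :
    Function.Injective (Matrix.toLin' k.ι) := by
  intro x y hxy
  have h1 : ∀ z, Matrix.toLin' k.π (Matrix.toLin' k.ι z) = z := by
    intro z
    rw [← LinearMap.comp_apply, ← Matrix.toLin'_mul, k.πι, Matrix.toLin'_one, LinearMap.id_apply]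
  rw [← h1 x, hxy, h1]

theorem kb_range {A : Matrix κ κ F} (k : KB A) (x : κ → F)
    (hx : Matrix.toLin' A x = 0) : Matrix.toLin' k.ι (Matrix.toLin' k.π x) = x := by
  have h1 : Matrix.toLin' (k.ι * k.π + k.R * A) x = x := by
    rw [k.res, Matrix.toLin'_one, LinearMap.id_apply]
  rw [map_add, LinearMap.add_apply, Matrix.toLin'_mul, Matrix.toLin'_mul, LinearMap.comp_apply,
    LinearMap.comp_apply, hx, map_zero, add_zero] at h1
  exact h1

theorem kb_pow {A : Matrix κ κ F} (k : KB A) {B : Matrix κ κ F} (h : A * B = B * A) (m : ℕ)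
    (y : Fin k.n → F) :
    ((Matrix.toLin' B) ^ m) (Matrix.toLin' k.ι y) =
      Matrix.toLin' k.ι (((Matrix.toLin' (k.π * B * k.ι)) ^ m) y) := by
  induction m generalizing y with
  | zero => simp
  | succ m ih =>
    have h1 : Matrix.toLin' B (Matrix.toLin' k.ι y) =
        Matrix.toLin' k.ι (Matrix.toLin' (k.π * B * k.ι) y) := by
      rw [← LinearMap.comp_apply, ← LinearMap.comp_apply, ← Matrix.toLin'_mul,
        ← Matrix.toLin'_mul, ← kb_comm k h]
    rw [pow_succ, pow_succ, Module.End.mul_apply, Module.End.mul_apply, h1, ih]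

theorem kb_nul {A : Matrix κ κ F} (k : KB A) {B : Matrix κ κ F} (h : A * B = B * A) :
    Module.finrank F (Module.End.maxGenEigenspace (Matrix.toLin' B) 0 ⊓
      LinearMap.ker (Matrix.toLin' A) : Submodule F (κ → F)) =
      (k.π * B * k.ι).charpoly.rootMultiplicity 0 := by
  have h0 : (Module.End.maxGenEigenspace (Matrix.toLin' B) 0 ⊓
      LinearMap.ker (Matrix.toLin' A) : Submodule F (κ → F)) =
      (Module.End.maxGenEigenspace (Matrix.toLin' (k.π * B * k.ι)) 0).map
        (Matrix.toLin' k.ι) := by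
    ext x
    rw [Submodule.mem_inf, Submodule.mem_map, Module.End.mem_maxGenEigenspace, LinearMap.mem_ker]
    constructor
    · rintro ⟨⟨m, hm⟩, hx⟩
      refine ⟨Matrix.toLin' k.π x, ?_, kb_range k x hx⟩
      rw [Module.End.mem_maxGenEigenspace]
      refine ⟨m, kb_inj k ?_⟩
      rw [zero_smul, sub_zero] at hm ⊢
      rw [← kb_pow k h, kb_range k x hx, hm, map_zero]
    · rintro ⟨y, hy, rfl⟩
      rw [Module.End.mem_maxGenEigenspace] at hy
      obtain ⟨m, hm⟩ := hy
      refine ⟨⟨m, ?_⟩, ?_⟩
      · rw [zero_smul, sub_zero] at hm ⊢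
        rw [kb_pow k h, hm, map_zero]
      · rw [← LinearMap.comp_apply, ← Matrix.toLin'_mul, k.Aι, map_zero, LinearMap.zero_apply]
  rw [h0, ← LinearEquiv.finrank_eq (Submodule.equivMapOfInjective (Matrix.toLin' k.ι)
    (kb_inj k) _), LinearMap.finrank_maxGenEigenspace_eq, Matrix.charpoly_toLin']

theorem nul_le {A : Matrix κ κ F} (k : KB A) {B : Matrix κ κ F} (h : A * B = B * A) {m : ℕ}
    (hm : (k.π * B * k.ι).charpoly.coeff m ≠ 0) :
    Module.finrank F (Module.End.maxGenEigenspace (Matrix.toLin' B) 0 ⊓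
      LinearMap.ker (Matrix.toLin' A) : Submodule F (κ → F)) ≤ m := by
  rw [kb_nul k h, Polynomial.rootMultiplicity_eq_natTrailingDegree']
  exact Polynomial.natTrailingDegree_le_of_ne_zero hm

theorem le_nul {A : Matrix κ κ F} (k : KB A) {B : Matrix κ κ F} (h : A * B = B * A) {m : ℕ}
    (hm : ∀ j < m, (k.π * B * k.ι).charpoly.coeff j = 0) :
    m ≤ Module.finrank F (Module.End.maxGenEigenspace (Matrix.toLin' B) 0 ⊓
      LinearMap.ker (Matrix.toLin' A) : Submodule F (κ → F)) := by
  rw [kb_nul k h, Polynomial.rootMultiplicity_eq_natTrailingDegree']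
  exact Polynomial.le_natTrailingDegree (Matrix.charpoly_monic _).ne_zero hm

end Pool.Agent.Lib.MP_640417_ag.Gn
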