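import Pool.Agent.Lib.MP_640417_ag.Ctl.Defs
import Pool.Agent.Lib.MP_640417_ag.Ty.Res

/-!
# MP_640417_ag, Gn, module ResG (150 lines): restriction to an open subgroup

As in `Ty/Res.lean` (copy the private lemmas `res_exists`, `res_tate`): statements of the form `∃ W : OpenSubgroup, ∀ γ ∈ W, p γ` are the same
for `U` and for `Γ`. `CommF`, `CommK`: `commF_res`, `commK_res`. `CentralSkew`, `Lefschetz` use `∃ U : OpenSubgroup Γ, ...` in the
place of `CommF`, which is the same by definition. The weight spaces, duality, isolated weights of `γ ∈ U` are the same.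
-/

set_option autoImplicit false

namespace Pool.Agent.Lib.MP_640417_ag.Gn

open Matrix Module TensorProduct Pool.Agent.Lib.MP_640417_ag Pool.Agent.Lib.MP_640417_ag.Frob
  Pool.Agent.Lib.MP_640417_ag.Glob Pool.Agent.Lib.MP_640417_ag.Four
  Pool.Agent.Lib.MP_640417_ag.Ctl Pool.Agent.Lib.MP_640417_ag.Ty

variable {F : Type} [NontriviallyNormedField F] [CharZero F]
  {Γ : Type} [Group Γ] [TopologicalSpace Γ] [IsTopologicalGroup Γ] [CompactSpace Γ] {V : Type}
  [AddCommGroup V] [Module F V] [FiniteDimensional F V] (ρ : H1Rep Γ F V) (U : OpenSubgroup Γ)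

omit [IsTopologicalGroup Γ] [CompactSpace Γ] in
private theorem res_exists (U : OpenSubgroup Γ) (p : Γ → Prop) :
    (∃ W : OpenSubgroup U, ∀ γ ∈ W, p (γ : Γ)) ↔ ∃ W : OpenSubgroup Γ, ∀ γ ∈ W, p γ := by
  constructor
  · rintro ⟨W, hW⟩
    have ho : IsOpen ((W.toSubgroup.map U.toSubgroup.subtype : Subgroup Γ) : Set Γ) := by
      rw [Subgroup.coe_map]
      exact U.isOpen.isOpenMap_subtype_val _ W.isOpen
    refine ⟨⟨W.toSubgroup.map U.toSubgroup.subtype, ho⟩, ?_⟩
    intro γ hγ
    obtain ⟨u, hu, rfl⟩ : γ ∈ W.toSubgroup.map U.toSubgroup.subtype := hγ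
    exact hW u hu
  · rintro ⟨W, hW⟩
    refine ⟨W.comap U.toSubgroup.subtype continuous_subtype_val, ?_⟩
    intro γ hγ
    exact hW _ hγ

theorem tate_resG (n i : ℕ) (x : ExteriorAlgebra F (Fin n → V)) :
    TateClass (fun γ : U => ((res ρ U).T γ).compLeft (Fin n)) (res ρ U).χ i x ↔
      TateClass (fun γ : Γ => (ρ.T γ).compLeft (Fin n)) ρ.χ i x :=
  and_congr_right fun _ => res_exists U fun γ =>
    (ρ.χ γ : F) ^ i • ExteriorAlgebra.map ((ρ.T γ).compLeft (Fin n)) x = x

theorem commE_res (c : Module.End F V) :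
    (∃ W : OpenSubgroup U, ∀ γ ∈ W, c * (res ρ U).T γ = (res ρ U).T γ * c) ↔
      ∃ W : OpenSubgroup Γ, ∀ γ ∈ W, c * ρ.T γ = ρ.T γ * c :=
  res_exists U fun γ => c * ρ.T γ = ρ.T γ * c

theorem central_res (z : Module.End F V) : CentralSkew (res ρ U) z ↔ CentralSkew ρ z := by
  unfold CentralSkew
  simp only [commE_res]
  exact Iff.rfl

theorem lefschetz_res (X : Module.End F V) : Lefschetz (res ρ U) X ↔ Lefschetz ρ X := by
  unfold Lefschetz
  simp only [commE_res]
  exact Iff.rfl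

theorem wt_res (γ : U) (z : AlgebraicClosure F)
    (κ : Module.End F V → AlgebraicClosure F) : Wt (res ρ U) γ z κ = Wt ρ (γ : Γ) z κ := by
  have hC : ∀ c, CentralSkew (res ρ U) c ↔ CentralSkew ρ c := central_res ρ U
  ext y
  unfold Wt
  rw [Submodule.mem_inf, Submodule.mem_inf, Submodule.mem_iInf, Submodule.mem_iInf]
  refine and_congr Iff.rfl ⟨fun h c => h ⟨c.1, (hC c.1).mpr c.2⟩, fun h c =>
    h ⟨c.1, (hC c.1).mp c.2⟩⟩

theorem dual_res (γ : U) (z : AlgebraicClosure F)
    (κ : Module.End F V → AlgebraicClosure F) (z' : AlgebraicClosure F)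
    (κ' : Module.End F V → AlgebraicClosure F) :
    Ctl.Dual (res ρ U) γ z κ z' κ' ↔ Ctl.Dual ρ (γ : Γ) z κ z' κ' := by
  unfold Ctl.Dual
  simp only [central_res]
  exact Iff.rfl

theorem iso_res (γ : U) (z : AlgebraicClosure F)
    (κ : Module.End F V → AlgebraicClosure F) :
    Isolated (res ρ U) γ z κ ↔ Isolated ρ (γ : Γ) z κ := by
  unfold Isolated
  simp only [central_res, wt_res, dual_res, commF_res]
  exact Iff.rfl

theorem goodG_res (γ : U) : Good (res ρ U) γ ↔ Good ρ γ := by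
  unfold Good
  simp only [commF_res, wt_res, iso_res]
  exact Iff.rfl

theorem detectsG_res (γ : U) : Detects (res ρ U) γ ↔ Detects ρ γ := by
  unfold Detects
  simp only [commF_res, commK_res, wt_res, iso_res]
  exact Iff.rfl

end Pool.Agent.Lib.MP_640417_ag.Gn
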