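import Pool.Agent.Lib.MP_640417_ag.Glob.Defs

/-!
# MP_640417_ag, Gn, module Dec (300 lines): weight spaces of a similitude and a skew element

`K` is algebraically closed, `J` alternating (`Jᵀ = -J`) and invertible, `gᵀ J g = μ J`, `cᵀ J + J c = 0`, `g c = c g`, `c`
diagonalizable (`IsSemisimple`). Weights: the pairs `(z, k)` such that `E(z, k) = maxGenEigenspace g z ⊓ eigenspace c k` is not
zero; there are finitely many; `K^I` is the direct sum (Mathlib: `Module.End.iSup_maxGenEigenspace_eq_top`,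
`Module.End.iSup_inf_eq_top_of_commute` / `Module.End.independent_iInf_maxGenEigenspace_of_forall_mapsTo` or
`DirectSum.isInternal_submodule_iInf_maxGenEigenspace...`, see also `joint_proj` in `Glob/Joint.lean` (the semisimple case) and
`Four/Iso.lean`). `ε a` is the projection to the weight space of the `a`-th weight. It commutes with everything which
commutes with `g` and `c` (such a matrix preserves the weight spaces).
`star`: the adjoint `e* = J⁻¹ eᵀ J` of `ε a` is an idempotent; `E(z,k)` and `E(z',k')` are orthogonal for `J` unless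
`z z' = μ`, `k + k' = 0` (for generalized eigenvectors: on `E(z,k)` the adjoint of `g` is `μ g⁻¹`; `g - z` nilpotent implies
`μ g⁻¹ - μ / z` nilpotent on it, i.e. `(g* - μ/z) ` ...). So the dual weight `(μ / z, -k)` is a weight (`J` is nondegenerate), this
defines `st`, and `(ε a)* = ε (st a)`: both are the projection to the same space along the same complement:
`(ε a) x` is orthogonal to `(1 - ε (st a)) y` for all `x`, `y`.
-/

set_option autoImplicit false

namespace Pool.Agent.Lib.MP_640417_ag.Gn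

open Matrix Module

variable {K : Type} [Field K] {I : Type} [Fintype I] [DecidableEq I]

/-- the adjoint with respect to the form `J` -/
noncomputable def adj (J : Matrix I I K) (b : Matrix I I K) : Matrix I I K := J⁻¹ * bᵀ * J

/-- The decomposition of `K^I` into weight spaces. -/
structure WDec (J g c : Matrix I I K) (μ : K) where
  /-- the number of weights -/
  n : ℕ
  /-- the eigenvalue of `g` -/
  z : Fin n → K
  /-- the eigenvalue of `c` -/
  k : Fin n → K
  /-- the projections -/
  ε : Fin n → Matrix I I K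
  /-- the dual weight -/
  st : Fin n → Fin n
  cg : c * g = g * c
  idem : ∀ a, ε a * ε a = ε a
  orth : ∀ a b, a ≠ b → ε a * ε b = 0
  sum : ∑ a, ε a = 1
  ne : ∀ a, ε a ≠ 0
  nil : ∀ a, IsNilpotent ((g - z a • 1) * ε a)
  ceig : ∀ a, c * ε a = k a • ε a
  comm : ∀ (a : Fin n) (b : Matrix I I K), b * g = g * b → b * c = c * b → b * ε a = ε a * b
  inj : ∀ a b, z a = z b → k a = k b → a = b
  st_st : ∀ a, st (st a) = a
  star : ∀ a, adj J (ε a) = ε (st a)
  zdual : ∀ a, z a * z (st a) = μ
  kdual : ∀ a, k a + k (st a) = 0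

theorem adj_mul {J : Matrix I I K} (hJ : J.det ≠ 0) (a b : Matrix I I K) :
    adj J (a * b) = adj J b * adj J a := by
  have hu : IsUnit J.det := isUnit_iff_ne_zero.2 hJ
  unfold adj
  rw [Matrix.transpose_mul]
  calc J⁻¹ * (bᵀ * aᵀ) * J = J⁻¹ * bᵀ * 1 * (aᵀ * J) := by
        rw [mul_one]
        simp only [mul_assoc]
    _ = J⁻¹ * bᵀ * (J * J⁻¹) * (aᵀ * J) := by rw [Matrix.mul_nonsing_inv J hu]
    _ = J⁻¹ * bᵀ * J * (J⁻¹ * aᵀ * J) := by simp only [mul_assoc]

theorem adj_adj {J : Matrix I I K} (hJ : J.det ≠ 0) (hs : Jᵀ = -J) (a : Matrix I I K) :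
    adj J (adj J a) = a := by
  have hu : IsUnit J.det := isUnit_iff_ne_zero.2 hJ
  have h1 : (J⁻¹)ᵀ * J = -1 := by
    have h2 : (J⁻¹)ᵀ * Jᵀ = 1 := by
      rw [← Matrix.transpose_mul, Matrix.mul_nonsing_inv J hu, Matrix.transpose_one]
    rw [hs, mul_neg] at h2
    rw [← h2, neg_neg]
  unfold adj
  rw [Matrix.transpose_mul, Matrix.transpose_mul, Matrix.transpose_transpose, hs]
  calc J⁻¹ * (-J * (a * (J⁻¹)ᵀ)) * J = -((J⁻¹ * J) * a * ((J⁻¹)ᵀ * J)) := by
        simp only [neg_mul, mul_neg, mul_assoc]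
    _ = a := by rw [Matrix.nonsing_inv_mul J hu, h1, one_mul, mul_neg, mul_one, neg_neg]

theorem adj_skew {J : Matrix I I K} (hJ : J.det ≠ 0) (X : Matrix I I K) :
    Xᵀ * J + J * X = 0 ↔ adj J X = -X := by
  have hu : IsUnit J.det := isUnit_iff_ne_zero.2 hJ
  unfold adj
  constructor
  · intro h
    rw [mul_assoc, eq_neg_of_add_eq_zero_left h, mul_neg, ← mul_assoc,
      Matrix.nonsing_inv_mul J hu, one_mul]
  · intro h
    have h1 : J * (J⁻¹ * Xᵀ * J) = J * (-X) := by rw [h]
    rw [← mul_assoc, ← mul_assoc, Matrix.mul_nonsing_inv J hu, one_mul, mul_neg] at h1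
    rw [h1, neg_add_cancel]

/-- projections of a finite decomposition -/
theorem Dec_proj {V : Type} [AddCommGroup V] [Module K V]
    {B : Type} [Fintype B] [DecidableEq B]
    (E : B → Submodule K V) (hind : iSupIndep E) (htop : ⨆ b, E b = ⊤) :
    ∃ p : B → Module.End K V, (∀ b x, p b x ∈ E b) ∧ (∀ b, ∀ x ∈ E b, p b x = x) ∧
      (∀ b b', b ≠ b' → ∀ x ∈ E b', p b x = 0) ∧
      (∀ (W : Type) [AddCommGroup W] [Module K W] (g g' : V →ₗ[K] W),
        (∀ b, ∀ x ∈ E b, g x = g' x) → g = g') := by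
  classical
  have hcompl : ∀ b, IsCompl (E b) (⨆ (b' : B) (_ : b' ≠ b), E b') := by
    intro b
    refine ⟨hind b, ?_⟩
    rw [codisjoint_iff, eq_top_iff, ← htop]
    refine iSup_le fun b' => ?_
    by_cases hb : b' = b
    · subst hb
      exact le_sup_left
    · exact le_trans (le_iSup₂ (f := fun (b' : B) (_ : b' ≠ b) => E b') b' hb) le_sup_right
  let p : B → Module.End K V := fun b => (E b).subtype ∘ₗ Submodule.projectionOnto _ _ (hcompl b)
  have h1 : ∀ b x, p b x ∈ E b := fun b x => Subtype.prop _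
  have h2 : ∀ b, ∀ x ∈ E b, p b x = x := by
    intro b x hx
    show ((Submodule.projectionOnto _ _ (hcompl b) x : E b) : V) = x
    rw [Submodule.projectionOnto_apply_left (hcompl b) ⟨x, hx⟩]
  have h3 : ∀ b b', b ≠ b' → ∀ x ∈ E b', p b x = 0 := by
    intro b b' hb x hx
    show ((Submodule.projectionOnto _ _ (hcompl b) x : E b) : V) = 0
    have h4 : x ∈ ⨆ (b'' : B) (_ : b'' ≠ b), E b'' :=
      (le_iSup₂ (f := fun (b' : B) (_ : b' ≠ b) => E b') b' hb.symm) hx
    rw [(Submodule.projectionOnto_apply_eq_zero_iff (hcompl b)).mpr h4]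
    rfl
  have hext : ∀ (W : Type) [AddCommGroup W] [Module K W] (g g' : V →ₗ[K] W),
      (∀ b, ∀ x ∈ E b, g x = g' x) → g = g' := by
    intro W _ _ g g' h
    have h4 : (⊤ : Submodule K V) ≤ LinearMap.eqLocus g g' := by
      rw [← htop]
      exact iSup_le fun b x hx => h b x hx
    exact LinearMap.ext fun x => h4 (Submodule.mem_top : x ∈ (⊤ : Submodule K V))
  exact ⟨p, h1, h2, h3, hext⟩

/-- generalized eigenvectors of a similitude are orthogonal -/
theorem Dec_orth {V : Type} [AddCommGroup V] [Module K V] (form : LinearMap.BilinForm K V)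
    (f : Module.End K V) (μ z z' : K) (hf : ∀ x y, form (f x) (f y) = μ * form x y)
    (hz : z * z' ≠ μ) : ∀ N n m : ℕ, n + m ≤ N → ∀ x y, ((f - z • (1 : Module.End K V)) ^ n) x = 0 →
      ((f - z' • (1 : Module.End K V)) ^ m) y = 0 → form x y = 0 := by
  intro N
  induction N with
  | zero =>
    intro n m hnm x y hx hy
    have hn : n = 0 := by omega
    rw [hn, pow_zero, Module.End.one_apply] at hx
    rw [hx, map_zero, LinearMap.zero_apply]
  | succ N ih =>
    intro n m hnm x y hx hy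
    rcases Nat.eq_zero_or_pos n with hn | hn
    · rw [hn, pow_zero, Module.End.one_apply] at hx
      rw [hx, map_zero, LinearMap.zero_apply]
    rcases Nat.eq_zero_or_pos m with hm | hm
    · rw [hm, pow_zero, Module.End.one_apply] at hy
      rw [hy, map_zero]
    obtain ⟨n', rfl⟩ : ∃ n', n = n' + 1 := ⟨n - 1, by omega⟩
    obtain ⟨m', rfl⟩ : ∃ m', m = m' + 1 := ⟨m - 1, by omega⟩
    obtain ⟨x', hx'⟩ : ∃ x', x' = (f - z • (1 : Module.End K V)) x := ⟨_, rfl⟩
    obtain ⟨y', hy'⟩ : ∃ y', y' = (f - z' • (1 : Module.End K V)) y := ⟨_, rfl⟩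
    rw [pow_succ, Module.End.mul_apply, ← hx'] at hx
    rw [pow_succ, Module.End.mul_apply, ← hy'] at hy
    have hfx : f x = x' + z • x := by
      rw [hx']
      simp
    have hfy : f y = y' + z' • y := by
      rw [hy']
      simp
    have hx2 : ((f - z • (1 : Module.End K V)) ^ (n' + 1)) x = 0 := by
      rw [pow_succ, Module.End.mul_apply, ← hx', hx]
    have hy2 : ((f - z' • (1 : Module.End K V)) ^ (m' + 1)) y = 0 := by
      rw [pow_succ, Module.End.mul_apply, ← hy', hy]
    have h1 : form x' y' = 0 := ih n' m' (by omega) x' y' hx hy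
    have h2 : form x' y = 0 := ih n' (m' + 1) (by omega) x' y hx hy2
    have h3 : form x y' = 0 := ih (n' + 1) m' (by omega) x y' hx2 hy
    have h4 := hf x y
    rw [hfx, hfy] at h4
    simp only [map_add, map_smul, LinearMap.add_apply, LinearMap.smul_apply, smul_eq_mul, h1, h2,
      h3, mul_zero, add_zero, zero_add] at h4
    have h5 : (z * z' - μ) * form x y = 0 := by
      rw [sub_mul, ← h4]
      ring
    exact (mul_eq_zero.1 h5).resolve_left (sub_ne_zero.2 hz)

theorem Dec_pow (g : Matrix I I K) (z : K) (k : ℕ) (v : I → K) :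
    ((Matrix.toLin' g - z • (1 : Module.End K (I → K))) ^ k) v =
      ((g - z • (1 : Matrix I I K)) ^ k) *ᵥ v := by
  induction k generalizing v with
  | zero => simp
  | succ k ih =>
    rw [pow_succ, pow_succ, Module.End.mul_apply, ih, ← Matrix.mulVec_mulVec]
    congr 1
    rw [Matrix.sub_mulVec, Matrix.smul_mulVec, Matrix.one_mulVec]
    simp

theorem Dec_nil {A e : Matrix I I K} (hc : A * e = e * A) (he : e * e = e) (n : ℕ) :
    (A * e) ^ (n + 1) = A ^ (n + 1) * e := by
  have h1 : Commute A e := hc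
  rw [h1.mul_pow]
  congr 1
  have h2 : IsIdempotentElem e := he
  exact h2.pow_succ_eq n

theorem Dec_toLin {A B : Matrix I I K} (h : A * B = B * A) :
    Commute (Matrix.toLin' A) (Matrix.toLin' B) := by
  have h1 : Matrix.toLin' (A * B) = Matrix.toLin' (B * A) := by rw [h]
  rw [Matrix.toLin'_mul, Matrix.toLin'_mul] at h1
  exact h1

theorem exists_wdec [IsAlgClosed K] (J g c : Matrix I I K) (μ : K) (hJ : J.det ≠ 0)
    (hs : Jᵀ = -J) (hμ : μ ≠ 0) (hg : gᵀ * J * g = μ • J) (hc : cᵀ * J + J * c = 0)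
    (hcg : c * g = g * c) (hss : Module.End.IsSemisimple (Matrix.toLin' c)) : Nonempty (WDec J g c μ) := by
  classical
  let form : LinearMap.BilinForm K (I → K) := Matrix.toBilin' J
  have hform : ∀ x y : I → K, form x y = x ⬝ᵥ J *ᵥ y := fun x y => Matrix.toBilin'_apply' J x y
  obtain ⟨f, hf0, hf1⟩ : ∃ f : Bool → Module.End K (I → K), f false = Matrix.toLin' g ∧
      f true = Matrix.toLin' c := ⟨fun b => bif b then Matrix.toLin' c else Matrix.toLin' g, rfl, rfl⟩
  have hfc : Commute (f true) (f false) := by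
    have h1 : Matrix.toLin' (c * g) = Matrix.toLin' (g * c) := by rw [hcg]
    rw [Matrix.toLin'_mul, Matrix.toLin'_mul] at h1
    rw [hf0, hf1]
    exact h1
  have hcomm : ∀ s t : Bool, Commute (f s) (f t) := by
    intro s t
    cases s <;> cases t
    · exact Commute.refl _
    · exact hfc.symm
    · exact hfc
    · exact Commute.refl _
  have hgf : ∀ x y, form (f false x) (f false y) = μ * form x y := by
    intro x y
    rw [hf0, hform, hform]
    show (g *ᵥ x) ⬝ᵥ J *ᵥ (g *ᵥ y) = μ * (x ⬝ᵥ J *ᵥ y)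
    have h1 : (g *ᵥ x) ⬝ᵥ J *ᵥ (g *ᵥ y) = x ⬝ᵥ (gᵀ * J * g) *ᵥ y := by
      rw [← Matrix.mulVec_mulVec, ← Matrix.mulVec_mulVec, Matrix.dotProduct_mulVec x gᵀ,
        Matrix.vecMul_transpose]
    rw [h1, hg, Matrix.smul_mulVec, dotProduct_smul, smul_eq_mul]
  have hcf : ∀ x y, form (f true x) y = - form x (f true y) := by
    intro x y
    rw [hf1, hform, hform]
    show (c *ᵥ x) ⬝ᵥ J *ᵥ y = - (x ⬝ᵥ J *ᵥ (c *ᵥ y))
    have h1 : (c *ᵥ x) ⬝ᵥ J *ᵥ y = x ⬝ᵥ (cᵀ * J) *ᵥ y := by
      rw [← Matrix.mulVec_mulVec, Matrix.dotProduct_mulVec x cᵀ, Matrix.vecMul_transpose]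
    rw [h1, eq_neg_of_add_eq_zero_left hc, Matrix.neg_mulVec, dotProduct_neg,
      Matrix.mulVec_mulVec]
  -- joint generalized eigenspaces
  obtain ⟨E, hE⟩ : ∃ E : (Bool → K) → Submodule K (I → K),
      ∀ χ, E χ = ⨅ s, (f s).maxGenEigenspace (χ s) := ⟨fun χ => ⨅ s, (f s).maxGenEigenspace (χ s),
        fun _ => rfl⟩
  have hEfun : (fun χ : Bool → K => ⨅ s, (f s).maxGenEigenspace (χ s)) = E := by
    funext χ
    rw [hE]
  have hmaps : ∀ i j φ, Set.MapsTo (f i) ((f j).maxGenEigenspace φ) ((f j).maxGenEigenspace φ) :=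
    fun i j φ => Module.End.mapsTo_maxGenEigenspace_of_comm (hcomm j i) φ
  have hind : iSupIndep E := by
    rw [← hEfun]
    exact Module.End.independent_iInf_maxGenEigenspace_of_forall_mapsTo f hmaps
  have htopm : ∀ s, ⨆ t, (f s).maxGenEigenspace t = ⊤ := fun s =>
    Module.End.iSup_maxGenEigenspace_eq_top (f s)
  have htop : ⨆ χ, E χ = ⊤ := by
    rw [← hEfun]
    exact Module.End.iSup_iInf_maxGenEigenspace_eq_top_of_forall_mapsTo f hmaps htopm
  have hmem : ∀ χ x, x ∈ E χ ↔ x ∈ (f false).maxGenEigenspace (χ false) ∧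
      x ∈ (f true).maxGenEigenspace (χ true) := by
    intro χ x
    rw [hE, Submodule.mem_iInf]
    exact ⟨fun h => ⟨h false, h true⟩, fun h s => by cases s; exacts [h.1, h.2]⟩
  have heig : ∀ χ, ∀ x ∈ E χ, f true x = χ true • x := by
    intro χ x hx
    have h1 := ((hmem χ x).1 hx).2
    have h2 : (f true).IsFinitelySemisimple := by
      rw [hf1]
      exact hss.isFinitelySemisimple
    rw [h2.maxGenEigenspace_eq_eigenspace] at h1
    exact Module.End.mem_eigenspace_iff.1 h1
  have horth : ∀ χ χ' : Bool → K, ∀ x ∈ E χ, ∀ y ∈ E χ', form x y ≠ 0 →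
      χ false * χ' false = μ ∧ χ true + χ' true = 0 := by
    intro χ χ' x hx y hy hxy
    constructor
    · by_contra hne
      obtain ⟨n, hn⟩ := (Module.End.mem_maxGenEigenspace _ _ _).1 ((hmem χ x).1 hx).1
      obtain ⟨m, hm⟩ := (Module.End.mem_maxGenEigenspace _ _ _).1 ((hmem χ' y).1 hy).1
      exact hxy (Dec_orth form (f false) μ _ _ hgf hne (n + m) n m le_rfl x y hn hm)
    · have h1 := hcf x y
      rw [heig χ x hx, heig χ' y hy] at h1
      simp only [map_smul, LinearMap.smul_apply, smul_eq_mul] at h1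
      have h2 : (χ true + χ' true) * form x y = 0 := by
        rw [add_mul, h1, neg_add_cancel]
      exact (mul_eq_zero.1 h2).resolve_right hxy
  have hfin : Finite {χ : Bool → K // E χ ≠ ⊥} := WellFoundedGT.finite_ne_bot_of_iSupIndep hind
  have : Fintype {χ : Bool → K // E χ ≠ ⊥} := Fintype.ofFinite _
  have htop' : ⨆ b : {χ : Bool → K // E χ ≠ ⊥}, E b.1 = ⊤ := by
    rw [eq_top_iff, ← htop]
    refine iSup_le fun χ => ?_
    by_cases hχ : E χ = ⊥
    · rw [hχ]
      exact bot_le
    · exact le_iSup (fun b : {χ : Bool → K // E χ ≠ ⊥} => E b.1) ⟨χ, hχ⟩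
  obtain ⟨p, hp1, hp2, hp3, hext⟩ := Dec_proj (fun b : {χ : Bool → K // E χ ≠ ⊥} => E b.1)
    (hind.comp Subtype.val_injective) htop'
  have hnd : ∀ x, (∀ y, form x y = 0) → x = 0 := by
    intro x hx
    exact (Matrix.nondegenerate_of_det_ne_zero hJ).eq_zero_of_ortho fun y => by
      rw [← hform]
      exact hx y
  have hpsum : ∑ b, p b = 1 := by
    refine hext _ _ _ fun b x hx => ?_
    rw [LinearMap.sum_apply, Finset.sum_eq_single b]
    · exact hp2 b x hx
    · intro b' _ hb'
      exact hp3 b' b hb' x hx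
    · intro h
      exact absurd (Finset.mem_univ b) h
  -- the dual weight
  have hdual : ∀ a : {χ : Bool → K // E χ ≠ ⊥}, ∃ b : {χ : Bool → K // E χ ≠ ⊥},
      a.1 false * b.1 false = μ ∧ a.1 true + b.1 true = 0 := by
    intro a
    obtain ⟨x, hx, hx0⟩ := Submodule.exists_mem_ne_zero_of_ne_bot a.2
    obtain ⟨y, hy⟩ : ∃ y, form x y ≠ 0 := by
      by_contra hcon
      push Not at hcon
      exact hx0 (hnd x hcon)
    have h1 : form x y = ∑ b, form x (p b y) := by
      rw [← map_sum]
      congr 1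
      have h2 := LinearMap.congr_fun hpsum y
      rw [LinearMap.sum_apply] at h2
      rw [h2]
      rfl
    rw [h1] at hy
    obtain ⟨b, _, hb⟩ := Finset.exists_ne_zero_of_sum_ne_zero hy
    exact ⟨b, horth a.1 b.1 x hx _ (hp1 b y) hb⟩
  choose s hs1 hs2 using hdual
  have hz0 : ∀ a : {χ : Bool → K // E χ ≠ ⊥}, a.1 false ≠ 0 := by
    intro a h0
    have := hs1 a
    rw [h0, zero_mul] at this
    exact hμ this.symm
  have hinj : ∀ a b : {χ : Bool → K // E χ ≠ ⊥}, a.1 false = b.1 false → a.1 true = b.1 true →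
      a = b := by
    intro a b h1 h2
    apply Subtype.ext
    funext t
    cases t
    · exact h1
    · exact h2
  have huniq : ∀ a b : {χ : Bool → K // E χ ≠ ⊥}, a.1 false * b.1 false = μ →
      a.1 true + b.1 true = 0 → b = s a := by
    intro a b h1 h2
    apply hinj
    · exact mul_left_cancel₀ (hz0 a) (h1.trans (hs1 a).symm)
    · exact add_left_cancel (h2.trans (hs2 a).symm)
  have hss' : ∀ a, s (s a) = a := by
    intro a
    refine (huniq (s a) a ?_ ?_).symm
    · rw [mul_comm]
      exact hs1 a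
    · rw [add_comm]
      exact hs2 a
  have hpadj : ∀ a x y, form (p a x) y = form x (p (s a) y) := by
    intro a
    have h4 : form ∘ₗ p a = (form.flip ∘ₗ p (s a)).flip := by
      refine hext _ _ _ fun b x hx => ?_
      refine hext _ _ _ fun d y hy => ?_
      show form (p a x) y = form x (p (s a) y)
      by_cases hxy : form x y = 0
      · have h5 : form (p a x) y = 0 := by
          by_cases hab : a = b
          · subst hab
            rw [hp2 a x hx, hxy]
          · rw [hp3 a b hab x hx, map_zero, LinearMap.zero_apply]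
        have h6 : form x (p (s a) y) = 0 := by
          by_cases hab : s a = d
          · subst hab
            rw [hp2 (s a) y hy, hxy]
          · rw [hp3 (s a) d hab y hy, map_zero]
        rw [h5, h6]
      · obtain ⟨h7, h8⟩ := horth b.1 d.1 x hx y hy hxy
        have h9 : d = s b := huniq b d h7 h8
        by_cases hab : a = b
        · subst hab
          subst h9
          rw [hp2 a x hx, hp2 (s a) y hy]
        · have hsab : s a ≠ d := by
            rw [h9]
            intro h10
            exact hab (by rw [← hss' a, h10, hss'])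
          rw [hp3 a b hab x hx, hp3 (s a) d hsab y hy, map_zero, map_zero, LinearMap.zero_apply]
    intro x y
    exact LinearMap.congr_fun (LinearMap.congr_fun h4 x) y
  -- numbering
  obtain ⟨n, ⟨e⟩⟩ : ∃ n, Nonempty (Fin n ≃ {χ : Bool → K // E χ ≠ ⊥}) :=
    ⟨_, ⟨(Fintype.equivFin _).symm⟩⟩
  obtain ⟨ε, hε⟩ : ∃ ε : Fin n → Matrix I I K, ∀ a, ε a = LinearMap.toMatrix' (p (e a)) :=
    ⟨fun a => LinearMap.toMatrix' (p (e a)), fun _ => rfl⟩
  have hεv : ∀ a x, ε a *ᵥ x = p (e a) x := by
    intro a x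
    rw [hε, ← Matrix.toLin'_apply, Matrix.toLin'_toMatrix']
  have hmat : ∀ A B : Matrix I I K, (∀ x, A *ᵥ x = B *ᵥ x) → A = B := by
    intro A B h
    apply Matrix.toLin'.injective
    exact LinearMap.ext fun x => by
      rw [Matrix.toLin'_apply, Matrix.toLin'_apply, h]
  have hcommε : ∀ (a : Fin n) (b : Matrix I I K), b * g = g * b → b * c = c * b →
      b * ε a = ε a * b := by
    intro a b h1 h2
    have h3 : ∀ χ, ∀ x ∈ E χ, Matrix.toLin' b x ∈ E χ := by
      intro χ x hx
      rw [hmem] at hx ⊢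
      constructor
      · refine Module.End.mapsTo_maxGenEigenspace_of_comm ?_ _ hx.1
        rw [hf0]
        exact Dec_toLin h1.symm
      · refine Module.End.mapsTo_maxGenEigenspace_of_comm ?_ _ hx.2
        rw [hf1]
        exact Dec_toLin h2.symm
    have h4 : Matrix.toLin' b ∘ₗ p (e a) = p (e a) ∘ₗ Matrix.toLin' b := by
      refine hext _ _ _ fun d x hx => ?_
      show Matrix.toLin' b (p (e a) x) = p (e a) (Matrix.toLin' b x)
      by_cases had : e a = d
      · subst had
        rw [hp2 _ x hx, hp2 _ _ (h3 _ x hx)]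
      · rw [hp3 _ _ had x hx, hp3 _ _ had _ (h3 _ x hx), map_zero]
    refine hmat _ _ fun x => ?_
    rw [← Matrix.mulVec_mulVec, ← Matrix.mulVec_mulVec, hεv, hεv]
    exact LinearMap.congr_fun h4 x
  have hidem : ∀ a, ε a * ε a = ε a := by
    intro a
    refine hmat _ _ fun x => ?_
    rw [← Matrix.mulVec_mulVec, hεv, hεv]
    exact hp2 _ _ (hp1 _ _)
  refine ⟨⟨n, fun a => (e a).1 false, fun a => (e a).1 true, ε, fun a => e.symm (s (e a)), hcg,
    hidem, ?_, ?_, ?_, ?_, ?_, hcommε, ?_, ?_, ?_, ?_, ?_⟩⟩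
  · intro a b hab
    refine hmat _ _ fun x => ?_
    rw [← Matrix.mulVec_mulVec, hεv, hεv, Matrix.zero_mulVec]
    exact hp3 _ _ (fun h => hab (e.injective h)) _ (hp1 _ _)
  · have h1 : ∑ a, ε a = LinearMap.toMatrix' (∑ b, p b) := by
      rw [map_sum, ← Equiv.sum_comp e]
      exact Finset.sum_congr rfl fun a _ => hε a
    rw [h1, hpsum, LinearMap.toMatrix'_one]
  · intro a h0
    obtain ⟨x, hx, hx0⟩ := Submodule.exists_mem_ne_zero_of_ne_bot (e a).2
    apply hx0
    rw [← hp2 (e a) x hx, ← hεv, h0, Matrix.zero_mulVec]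
  · intro a
    have h1 : (g - (e a).1 false • (1 : Matrix I I K)) * ε a =
        ε a * (g - (e a).1 false • (1 : Matrix I I K)) := by
      have h2 := hcommε a g rfl hcg.symm
      rw [sub_mul, mul_sub, h2, smul_mul_assoc, mul_smul_comm, one_mul, mul_one]
    refine ⟨Module.finrank K (I → K) + 1, ?_⟩
    rw [Dec_nil h1 (hidem a)]
    have h3 : (g - (e a).1 false • (1 : Matrix I I K)) ^ Module.finrank K (I → K) * ε a = 0 := by
      refine hmat _ _ fun x => ?_
      rw [← Matrix.mulVec_mulVec, hεv, Matrix.zero_mulVec, ← Dec_pow]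
      have h4 := ((hmem _ _).1 (hp1 (e a) x)).1
      rw [Module.End.maxGenEigenspace_eq_genEigenspace_finrank, Module.End.mem_genEigenspace_nat,
        LinearMap.mem_ker, hf0] at h4
      exact h4
    rw [pow_succ', mul_assoc, h3, mul_zero]
  · intro a
    refine hmat _ _ fun x => ?_
    rw [← Matrix.mulVec_mulVec, hεv, Matrix.smul_mulVec, hεv]
    have h1 := heig _ _ (hp1 (e a) x)
    rw [hf1] at h1
    exact h1
  · intro a b h1 h2
    exact e.injective (hinj _ _ h1 h2)
  · intro a
    show e.symm (s (e (e.symm (s (e a))))) = a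
    rw [Equiv.apply_symm_apply, hss', Equiv.symm_apply_apply]
  · intro a
    show adj J (ε a) = ε (e.symm (s (e a)))
    have h1 : (ε a)ᵀ * J = J * ε (e.symm (s (e a))) := by
      refine hmat _ _ fun y => dotProduct_eq _ _ fun x => ?_
      rw [dotProduct_comm, dotProduct_comm _ x, ← Matrix.mulVec_mulVec, ← Matrix.mulVec_mulVec,
        Matrix.dotProduct_mulVec x (ε a)ᵀ, Matrix.vecMul_transpose, hεv, hεv,
        Equiv.apply_symm_apply, ← hform, ← hform]
      exact hpadj (e a) x y
    unfold adj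
    rw [mul_assoc, h1, ← mul_assoc, Matrix.nonsing_inv_mul J (isUnit_iff_ne_zero.2 hJ), one_mul]
  · intro a
    show (e a).1 false * (e (e.symm (s (e a)))).1 false = μ
    rw [Equiv.apply_symm_apply]
    exact hs1 _
  · intro a
    show (e a).1 true + (e (e.symm (s (e a)))).1 true = 0
    rw [Equiv.apply_symm_apply]
    exact hs2 _

theorem Dec_range {J g c : Matrix I I K} {μ : K} (D : WDec J g c μ) (a : Fin D.n) (v : I → K) :
    D.ε a *ᵥ v ∈ Module.End.maxGenEigenspace (Matrix.toLin' g) (D.z a) := by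
  obtain ⟨n, hn⟩ := D.nil a
  rw [Module.End.mem_maxGenEigenspace]
  refine ⟨n + 1, ?_⟩
  have h1 : (g - D.z a • (1 : Matrix I I K)) * D.ε a =
      D.ε a * (g - D.z a • (1 : Matrix I I K)) := by
    have h2 := D.comm a g rfl D.cg.symm
    rw [sub_mul, mul_sub, h2, smul_mul_assoc, mul_smul_comm, one_mul, mul_one]
  have h3 := Dec_nil h1 (D.idem a) n
  rw [pow_succ, hn, zero_mul] at h3
  rw [Dec_pow, Matrix.mulVec_mulVec, ← h3, Matrix.zero_mulVec]

/-- every generalized eigenvector with weight `(z, k)` is in the range of one `ε a` -/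
theorem WDec.mem {J g c : Matrix I I K} {μ : K} (D : WDec J g c μ) {z k : K} {v : I → K}
    (hv : v ≠ 0) (hz : v ∈ Module.End.maxGenEigenspace (Matrix.toLin' g) z)
    (hk : c *ᵥ v = k • v) : ∃ a, D.z a = z ∧ D.k a = k ∧ D.ε a *ᵥ v = v := by
  have hsum : v = ∑ a, D.ε a *ᵥ v := by
    rw [← Matrix.sum_mulVec, D.sum, Matrix.one_mulVec]
  have key : ∀ a, D.ε a *ᵥ v ≠ 0 → D.z a = z ∧ D.k a = k := by
    intro a ha
    have hcg : D.ε a * g = g * D.ε a := (D.comm a g rfl D.cg.symm).symm
    have hcc : D.ε a * c = c * D.ε a := (D.comm a c D.cg rfl).symm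
    constructor
    · by_contra hne
      have h1 := Dec_range D a v
      have h2 : D.ε a *ᵥ v ∈ Module.End.maxGenEigenspace (Matrix.toLin' g) z := by
        have h3 := Module.End.mapsTo_maxGenEigenspace_of_comm (Dec_toLin hcg.symm) z hz
        rwa [Matrix.toLin'_apply] at h3
      exact ha ((Submodule.disjoint_def.1
        (Module.End.disjoint_genEigenspace (Matrix.toLin' g) hne ⊤ ⊤)) _ h1 h2)
    · have h1 : D.k a • (D.ε a *ᵥ v) = k • (D.ε a *ᵥ v) := by
        rw [← Matrix.smul_mulVec, ← D.ceig, ← hcc, ← Matrix.mulVec_mulVec, hk, Matrix.mulVec_smul]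
      have h2 : (D.k a - k) • (D.ε a *ᵥ v) = 0 := by rw [sub_smul, h1, sub_self]
      exact sub_eq_zero.1 ((smul_eq_zero.1 h2).resolve_right ha)
  obtain ⟨a, ha⟩ : ∃ a, D.ε a *ᵥ v ≠ 0 := by
    by_contra hcon
    push Not at hcon
    apply hv
    rw [hsum]
    exact Finset.sum_eq_zero fun a _ => hcon a
  refine ⟨a, (key a ha).1, (key a ha).2, ?_⟩
  conv_rhs => rw [hsum]
  rw [Finset.sum_eq_single a]
  · intro b _ hb
    by_contra hne
    exact hb (D.inj b a ((key b hne).1.trans (key a ha).1.symm)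
      ((key b hne).2.trans (key a ha).2.symm))
  · intro h
    exact absurd (Finset.mem_univ a) h

/-- the range of `ε a` consists of generalized eigenvectors -/
theorem WDec.range {J g c : Matrix I I K} {μ : K} (D : WDec J g c μ) (a : Fin D.n) (v : I → K) :
    D.ε a *ᵥ v ∈ Module.End.maxGenEigenspace (Matrix.toLin' g) (D.z a) := Dec_range D a v

end Pool.Agent.Lib.MP_640417_ag.Gn
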