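import Pool.Agent.Lib.MP_640417_ag.Glob.KFour

/-!
# MP_640417_ag, Gn, module Q4 (200 lines): tensor products of four matrices

* `q4_mul`: copy the private lemma of `Glob/KFour.lean`. `q4_sum`: expand the product of four finite sums.
* `q4_ne`: take nonzero entries.
* `q4_nil`: let `G_i` be `q4` with `g` at place `i` and `1` elsewhere, `Q = q4 e1 e2 e3 e4`. `(G_i - z_i) Q` is nilpotent (it is
  `q4` with `(g - z_i) e_i` at place `i` and `e_j` elsewhere; a power of it contains a power of `(g - z_i) e_i`), all these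
  matrices commute, and `(k4 g - z1 z2 z3 z4) Q = (G1 G2 G3 G4 - z1 z2 z3 z4) Q` is a sum of multiples of them
  (`G1 G2 G3 G4 - z1 z2 z3 z4 = (G1 - z1) G2 G3 G4 + z1 (G2 - z2) G3 G4 + ..`), so it is nilpotent
  (`Commute.isNilpotent_add`), and `Q` is idempotent and commutes with `k4 g`.
* `nil_pow`: `g^N - z^N = (g - z) (...)` (`Commute.geom_sum₂_mul` or `sub_dvd_pow_sub_pow` in the commutative case).
-/

set_option autoImplicit false

namespace Pool.Agent.Lib.MP_640417_ag.Gn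

open Matrix Polynomial Pool.Agent.Lib.MP_640417_ag.Glob

section

variable {R : Type} [CommRing R] {I : Type} [Fintype I] [DecidableEq I]

/-- the tensor product of four matrices -/
def q4 (a b c d : Matrix I I R) : Matrix (I × I × I × I) (I × I × I × I) R :=
  Matrix.of fun x y => a x.1 y.1 * b x.2.1 y.2.1 * c x.2.2.1 y.2.2.1 * d x.2.2.2 y.2.2.2

theorem q4_mul (a b c d a' b' c' d' : Matrix I I R) :
    q4 a b c d * q4 a' b' c' d' = q4 (a * a') (b * b') (c * c') (d * d') := by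
  ext x y
  rw [Matrix.mul_apply, Fintype.sum_prod_type]
  simp_rw [Fintype.sum_prod_type]
  have key : ∀ i j k : I, ∑ l, q4 a b c d x (i, j, k, l) * q4 a' b' c' d' (i, j, k, l) y =
      (a x.1 i * a' i y.1) * (b x.2.1 j * b' j y.2.1) * (c x.2.2.1 k * c' k y.2.2.1) *
        ∑ l, d x.2.2.2 l * d' l y.2.2.2 := by
    intro i j k
    rw [Finset.mul_sum]
    apply Finset.sum_congr rfl
    intro l _
    show (a x.1 i * b x.2.1 j * c x.2.2.1 k * d x.2.2.2 l) *
      (a' i y.1 * b' j y.2.1 * c' k y.2.2.1 * d' l y.2.2.2) = _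
    ring
  simp_rw [key, ← Finset.sum_mul, ← Finset.mul_sum, ← Finset.sum_mul]
  show _ = (a * a') x.1 y.1 * (b * b') x.2.1 y.2.1 * (c * c') x.2.2.1 y.2.2.1 *
    (d * d') x.2.2.2 y.2.2.2
  rw [Matrix.mul_apply, Matrix.mul_apply, Matrix.mul_apply, Matrix.mul_apply,
    Finset.sum_mul_sum Finset.univ Finset.univ (fun j => a x.1 j * a' j y.1)
      (fun j => b x.2.1 j * b' j y.2.1)]

theorem q4_one : q4 (1 : Matrix I I R) 1 1 1 = 1 := by
  have h : q4 (1 : Matrix I I R) 1 1 1 = k4 (1 : Matrix I I R) := rfl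
  rw [h, k4_one]

theorem k4_q4 (a : Matrix I I R) : k4 a = q4 a a a a := rfl

theorem d4_q4 (X : Matrix I I R) :
    d4 X = q4 X 1 1 1 + q4 1 X 1 1 + q4 1 1 X 1 + q4 1 1 1 X := rfl

private theorem sum4 {A : Type} [Fintype A] (f₁ f₂ f₃ f₄ : A → R) :
    (∑ a, f₁ a) * (∑ a, f₂ a) * (∑ a, f₃ a) * (∑ a, f₄ a) =
      ∑ a, ∑ b, ∑ c, ∑ d, f₁ a * f₂ b * f₃ c * f₄ d := by
  rw [Finset.sum_mul_sum, Finset.sum_mul, Finset.sum_mul]
  refine Finset.sum_congr rfl fun a _ => ?_
  rw [Finset.sum_mul, Finset.sum_mul]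
  refine Finset.sum_congr rfl fun b _ => ?_
  rw [Finset.mul_sum Finset.univ f₃ (f₁ a * f₂ b), Finset.sum_mul_sum]

theorem q4_sum {A : Type} [Fintype A] (e : A → Matrix I I R) :
    q4 (∑ a, e a) (∑ a, e a) (∑ a, e a) (∑ a, e a) =
      ∑ x : A × A × A × A, q4 (e x.1) (e x.2.1) (e x.2.2.1) (e x.2.2.2) := by
  ext x y
  rw [Matrix.sum_apply, Fintype.sum_prod_type]
  simp_rw [Fintype.sum_prod_type]
  show (∑ a, e a) x.1 y.1 * (∑ a, e a) x.2.1 y.2.1 * (∑ a, e a) x.2.2.1 y.2.2.1 *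
    (∑ a, e a) x.2.2.2 y.2.2.2 = ∑ a, ∑ b, ∑ c, ∑ d,
      e a x.1 y.1 * e b x.2.1 y.2.1 * e c x.2.2.1 y.2.2.1 * e d x.2.2.2 y.2.2.2
  rw [Matrix.sum_apply, Matrix.sum_apply, Matrix.sum_apply, Matrix.sum_apply, sum4]

theorem d4_comm {X Y : Matrix I I R} (h : X * Y = Y * X) : d4 X * d4 Y = d4 Y * d4 X := by
  simp only [d4_q4, add_mul, mul_add, q4_mul, one_mul, mul_one, h]
  abel

theorem d4_k4_comm {X g : Matrix I I R} (h : X * g = g * X) : d4 X * k4 g = k4 g * d4 X :=
  d4_mul_k4 h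

private theorem q4_smul₀ (r : R) (a b c d : Matrix I I R) : q4 (r • a) b c d = r • q4 a b c d := by
  ext x y
  simp only [q4, Matrix.of_apply, Matrix.smul_apply, smul_eq_mul]
  ring

private theorem q4_smul₁ (r : R) (a b c d : Matrix I I R) : q4 a (r • b) c d = r • q4 a b c d := by
  ext x y
  simp only [q4, Matrix.of_apply, Matrix.smul_apply, smul_eq_mul]
  ring

private theorem q4_smul₂ (r : R) (a b c d : Matrix I I R) : q4 a b (r • c) d = r • q4 a b c d := by
  ext x y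
  simp only [q4, Matrix.of_apply, Matrix.smul_apply, smul_eq_mul]
  ring

private theorem q4_smul₃ (r : R) (a b c d : Matrix I I R) : q4 a b c (r • d) = r • q4 a b c d := by
  ext x y
  simp only [q4, Matrix.of_apply, Matrix.smul_apply, smul_eq_mul]
  ring

/-- `q4 e1 e2 e3 e4` for eigenvectors -/
theorem d4_mul_q4 (X : Matrix I I R) (e : Fin 4 → Matrix I I R) (x : Fin 4 → R)
    (h : ∀ i, X * e i = x i • e i) :
    d4 X * q4 (e 0) (e 1) (e 2) (e 3) =
      (x 0 + x 1 + x 2 + x 3) • q4 (e 0) (e 1) (e 2) (e 3) := by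
  simp only [d4_q4, add_mul, q4_mul, one_mul, h, q4_smul₀, q4_smul₁, q4_smul₂, q4_smul₃, add_smul]

theorem q4_comm_of (X : Matrix I I R) (e : Fin 4 → Matrix I I R) (h : ∀ i, X * e i = e i * X) :
    d4 X * q4 (e 0) (e 1) (e 2) (e 3) = q4 (e 0) (e 1) (e 2) (e 3) * d4 X := by
  simp only [d4_q4, add_mul, mul_add, q4_mul, one_mul, mul_one, h]

private theorem q4_comm' {a b c d a' b' c' d' : Matrix I I R} (ha : Commute a a')
    (hb : Commute b b') (hc : Commute c c') (hd : Commute d d') :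
    Commute (q4 a b c d) (q4 a' b' c' d') := by
  unfold Commute SemiconjBy
  rw [q4_mul, q4_mul, ha.eq, hb.eq, hc.eq, hd.eq]

private theorem q4_pow (a b c d : Matrix I I R) (n : ℕ) :
    q4 a b c d ^ n = q4 (a ^ n) (b ^ n) (c ^ n) (d ^ n) := by
  induction n with
  | zero => simp only [pow_zero, q4_one]
  | succ n ih => rw [pow_succ, ih, q4_mul, pow_succ, pow_succ, pow_succ, pow_succ]

private theorem q4_nil₀ {a b c d : Matrix I I R} (h : IsNilpotent a) :
    IsNilpotent (q4 a b c d) := by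
  obtain ⟨n, hn⟩ := h
  refine ⟨n, ?_⟩
  rw [q4_pow, hn]
  ext x y
  simp [q4]

private theorem q4_nil₁ {a b c d : Matrix I I R} (h : IsNilpotent b) :
    IsNilpotent (q4 a b c d) := by
  obtain ⟨n, hn⟩ := h
  refine ⟨n, ?_⟩
  rw [q4_pow, hn]
  ext x y
  simp [q4]

private theorem q4_nil₂ {a b c d : Matrix I I R} (h : IsNilpotent c) :
    IsNilpotent (q4 a b c d) := by
  obtain ⟨n, hn⟩ := h
  refine ⟨n, ?_⟩
  rw [q4_pow, hn]
  ext x y
  simp [q4]

private theorem q4_nil₃ {a b c d : Matrix I I R} (h : IsNilpotent d) :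
    IsNilpotent (q4 a b c d) := by
  obtain ⟨n, hn⟩ := h
  refine ⟨n, ?_⟩
  rw [q4_pow, hn]
  ext x y
  simp [q4]

private theorem nil_smul {J : Type} [Fintype J] [DecidableEq J] (r : R) {a : Matrix J J R}
    (h : IsNilpotent a) : IsNilpotent (r • a) := by
  obtain ⟨n, hn⟩ := h
  exact ⟨n, by rw [_root_.smul_pow, hn, smul_zero]⟩

end

section

variable {K : Type} [Field K] {I : Type} [Fintype I] [DecidableEq I]

theorem q4_ne {e : Fin 4 → Matrix I I K} (h : ∀ i, e i ≠ 0) :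
    q4 (e 0) (e 1) (e 2) (e 3) ≠ 0 := by
  have h1 : ∀ i, ∃ a b, e i a b ≠ 0 := by
    intro i
    by_contra hcon
    push Not at hcon
    exact h i (Matrix.ext hcon)
  choose a b hab using h1
  intro h0
  have h2 := congrFun (congrFun h0 (a 0, a 1, a 2, a 3)) (b 0, b 1, b 2, b 3)
  have h3 : e 0 (a 0) (b 0) * e 1 (a 1) (b 1) * e 2 (a 2) (b 2) * e 3 (a 3) (b 3) = 0 := h2
  exact mul_ne_zero (mul_ne_zero (mul_ne_zero (hab 0) (hab 1)) (hab 2)) (hab 3) h3

theorem nil_pow {g e : Matrix I I K} {z : K} (he : e * e = e) (hc : g * e = e * g)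
    (hn : IsNilpotent ((g - z • 1) * e)) (N : ℕ) : IsNilpotent ((g ^ N - (z ^ N) • 1) * e) := by
  have hz : ∀ x : Matrix I I K, Commute x (z • 1) := fun x =>
    (Commute.one_right x).smul_right z
  set S : Matrix I I K := ∑ i ∈ Finset.range N, g ^ i * (z • (1 : Matrix I I K)) ^ (N - 1 - i)
    with hS
  have h1 : (g ^ N - (z ^ N) • 1) = (g - z • 1) * S := by
    rw [hS, (hz g).mul_geom_sum₂, _root_.smul_pow, one_pow]
  have hSc : ∀ x : Matrix I I K, Commute x g → Commute x S := by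
    intro x hx
    rw [hS]
    exact Commute.sum_right _ _ _ fun i _ => (hx.pow_right i).mul_right ((hz x).pow_right _)
  have h2 : (g ^ N - (z ^ N) • 1) * e = ((g - z • 1) * e) * S := by
    have h3 : Commute e S := hSc e (show e * g = g * e from hc.symm)
    rw [h1, mul_assoc, mul_assoc, h3.eq]
  rw [h2]
  refine Commute.isNilpotent_mul_right ?_ hn
  refine (Commute.mul_left ?_ (hSc e (show e * g = g * e from hc.symm)))
  exact (hSc g (Commute.refl g)).sub_left ((hz S).symm)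

theorem q4_nil (g : Matrix I I K) (z : Fin 4 → K) (e : Fin 4 → Matrix I I K)
    (he : ∀ i, e i * e i = e i) (hc : ∀ i, g * e i = e i * g)
    (hn : ∀ i, IsNilpotent ((g - z i • 1) * e i)) :
    ∃ m : ℕ, (k4 g - (z 0 * z 1 * z 2 * z 3) • 1) ^ m * q4 (e 0) (e 1) (e 2) (e 3) = 0 := by
  set Q := q4 (e 0) (e 1) (e 2) (e 3) with hQ
  set c : K := z 0 * z 1 * z 2 * z 3 with hcdef
  set N : Fin 4 → Matrix I I K := fun i => (g - z i • 1) * e i with hNdef
  have hge : ∀ i, g * e i = N i + z i • e i := by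
    intro i
    rw [hNdef]
    simp only [sub_mul, smul_mul_assoc, one_mul, sub_add_cancel]
  have hgc : ∀ i, Commute g (e i) := fun i => hc i
  have hgN : ∀ i, Commute g (N i) := fun i =>
    (((Commute.refl g).sub_right ((Commute.one_right g).smul_right (z i))).mul_right (hgc i))
  have heN : ∀ i, Commute (e i) (N i) := fun i =>
    ((((hgc i).symm).sub_right ((Commute.one_right (e i)).smul_right (z i))).mul_right
      (Commute.refl (e i)))
  have hgeN : ∀ i, Commute (g * e i) (N i) := fun i => (hgN i).mul_left (heN i)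
  have hege : ∀ i, Commute (e i) (g * e i) := fun i => ((hgc i).symm).mul_right (Commute.refl _)
  set A0 := q4 (N 0) (g * e 1) (g * e 2) (g * e 3) with hA0
  set A1 := z 0 • q4 (e 0) (N 1) (g * e 2) (g * e 3) with hA1
  set A2 := (z 0 * z 1) • q4 (e 0) (e 1) (N 2) (g * e 3) with hA2
  set A3 := (z 0 * z 1 * z 2) • q4 (e 0) (e 1) (e 2) (N 3) with hA3
  have hsum : (k4 g - c • 1) * Q = A0 + A1 + A2 + A3 := by
    rw [sub_mul, k4_q4, hQ, q4_mul, smul_mul_assoc, one_mul]
    ext x y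
    rw [hA0, hA1, hA2, hA3]
    simp only [q4, Matrix.of_apply, Matrix.smul_apply, smul_eq_mul, Matrix.add_apply,
      Matrix.sub_apply, hge, hcdef]
    ring
  have n0 : IsNilpotent A0 := q4_nil₀ (hn 0)
  have n1 : IsNilpotent A1 := nil_smul _ (q4_nil₁ (hn 1))
  have n2 : IsNilpotent A2 := nil_smul _ (q4_nil₂ (hn 2))
  have n3 : IsNilpotent A3 := nil_smul _ (q4_nil₃ (hn 3))
  have c01 : Commute A0 A1 := (q4_comm' (heN 0).symm (hgeN 1) (Commute.refl _)
    (Commute.refl _)).smul_right _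
  have c02 : Commute A0 A2 := (q4_comm' (heN 0).symm (hege 1).symm (hgeN 2)
    (Commute.refl _)).smul_right _
  have c03 : Commute A0 A3 := (q4_comm' (heN 0).symm (hege 1).symm (hege 2).symm
    (hgeN 3)).smul_right _
  have c12 : Commute A1 A2 := ((q4_comm' (Commute.refl _) (heN 1).symm (hgeN 2)
    (Commute.refl _)).smul_right _).smul_left _
  have c13 : Commute A1 A3 := ((q4_comm' (Commute.refl _) (heN 1).symm (hege 2).symm
    (hgeN 3)).smul_right _).smul_left _
  have c23 : Commute A2 A3 := ((q4_comm' (Commute.refl _) (Commute.refl _) (heN 2).symm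
    (hgeN 3)).smul_right _).smul_left _
  have hnil : IsNilpotent ((k4 g - c • 1) * Q) := by
    rw [hsum]
    exact ((c03.add_left c13).add_left c23).isNilpotent_add
      ((c02.add_left c12).isNilpotent_add (c01.isNilpotent_add n0 n1) n2) n3
  obtain ⟨m, hm⟩ := hnil
  have hQQ : Q * Q = Q := by rw [hQ, q4_mul, he, he, he, he]
  have hQc : Commute (k4 g - c • 1) Q := by
    refine Commute.sub_left ?_ ((Commute.one_left Q).smul_left c)
    rw [k4_q4, hQ]
    exact q4_comm' (hgc 0) (hgc 1) (hgc 2) (hgc 3)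
  have hpow : ∀ k : ℕ, Q ^ (k + 1) = Q := by
    intro k
    induction k with
    | zero => rw [zero_add, pow_one]
    | succ k ih => rw [pow_succ, ih, hQQ]
  refine ⟨m + 1, ?_⟩
  have h1 : ((k4 g - c • 1) * Q) ^ (m + 1) = 0 := by rw [pow_succ, hm, zero_mul]
  rw [hQc.mul_pow, hpow] at h1
  exact h1

end

end Pool.Agent.Lib.MP_640417_ag.Gn
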