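import Pool.Agent.Lib.MP_640417_ag.Ctl.Plus
import Pool.Agent.Lib.MP_640417_ag.Gn.Q4

/-!
# MP_640417_ag, Gn, module CC (300 lines): a generic central skew element

* `zm_ss`: `z ∈ Zm` is semisimple over every extension `K`: the polynomials in `z` are central elements of the commutant, so by
  `zred` the minimal polynomial of `z` over `F` is squarefree (if `p^2` divides it take `b = (minpoly / p)(z)`), so separable
  (characteristic zero), so its image over `K` is squarefree: `Module.End.isSemisimple_of_squarefree_aeval_eq_zero`.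
* `exists_cc`: elements of `Zm` commute with each other (they are in the commutant, and commute with it). Choose `c ∈ Zm` such that
  the dimension of the kernel of `d4 c` is minimal. Let `z ∈ Zm`. `d4 c`, `d4 z` commute (`d4_comm`) and are semisimple (as `c`, `z`
  are: over an algebraic closure `c = P diag P⁻¹` and `d4 c = k4 P (diagonal) k4 P⁻¹`, `d4_mul_k4`, `d4_diag`; or `d4 c` is a sum
  of four commuting semisimple matrices). `K^(I^4) = U ⊕ U'`, `U` the kernel and `U'` the range of `d4 c`, both stable under `d4 z`.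
  For all but finitely many `s ∈ F` the matrix `d4 c + s d4 z = d4 (c + s z)` is injective on `U'` (its determinant on `U'` is a
  polynomial in `s`, not zero at `s = 0`), and for such `s ≠ 0` the kernel of `d4 (c + s z)` is the kernel of `d4 z` on `U`. By
  minimality `d4 z = 0` on `U`. So `d4 z = R * d4 c` for some matrix `R` (a map which vanishes on the kernel of `d4 c` factors
  through `d4 c`).
* and `z = R c`: if `c v = 0` then `v ⊗ v ⊗ v ⊗ v` (the function `fun x => v x.1 * v x.2.1 * v x.2.2.1 * v x.2.2.2`) is in the kernel of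
  `d4 c`, so of `d4 z`: if `v i ≠ 0`, the entries at `(j, i, i, i)` and at `(i, i, i, i)` give `(z v) j = 0`.
-/

set_option autoImplicit false

namespace Pool.Agent.Lib.MP_640417_ag.Gn

open Matrix Pool.Agent.Lib.MP_640417_ag.Glob Pool.Agent.Lib.MP_640417_ag.Ctl

section aux

open Polynomial

/-- A semisimple matrix is von Neumann regular, with a polynomial as quasi-inverse. -/
private theorem reg_of_ss {K : Type} [Field K] {J : Type} [Fintype J] [DecidableEq J]
    (X : Matrix J J K) (h : Module.End.IsSemisimple (Matrix.toLin' X)) :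
    ∃ r : K[X], aeval X r * X * X = X := by
  classical
  have hsq := h.minpoly_squarefree
  set μ := minpoly K (Matrix.toLin' X) with hμ
  have h0 : aeval X μ = 0 := by
    have h1 : aeval (Matrix.toLin' X) μ = 0 := minpoly.aeval K _
    have h2 := Polynomial.aeval_algHom_apply
      (Matrix.toLinAlgEquiv' : Matrix J J K ≃ₐ[K] _).toAlgHom X μ
    have h3 : (Matrix.toLinAlgEquiv' : Matrix J J K ≃ₐ[K] _) (aeval X μ) = 0 := h2.symm.trans h1
    exact (Matrix.toLinAlgEquiv' : Matrix J J K ≃ₐ[K] _).injective (h3.trans (map_zero _).symm)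
  have hg := EuclideanDomain.gcd_eq_gcd_ab ((Polynomial.X : K[X]) ^ 2) μ
  set g := EuclideanDomain.gcd ((Polynomial.X : K[X]) ^ 2) μ with hgd
  have h1 : g ∣ μ := EuclideanDomain.gcd_dvd_right _ _
  have h2 : g ∣ Polynomial.X ^ 2 := EuclideanDomain.gcd_dvd_left _ _
  obtain ⟨k, hk⟩ := ((hsq.squarefree_of_dvd h1).dvd_pow_iff_dvd two_ne_zero).1 h2
  refine ⟨k * EuclideanDomain.gcdA ((Polynomial.X : K[X]) ^ 2) μ, ?_⟩
  have h3 := congrArg (aeval X) hk
  rw [hg, show (Polynomial.X ^ 2 * EuclideanDomain.gcdA (Polynomial.X ^ 2) μ +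
    μ * EuclideanDomain.gcdB (Polynomial.X ^ 2) μ) * k =
    k * EuclideanDomain.gcdA (Polynomial.X ^ 2) μ * Polynomial.X * Polynomial.X +
      (EuclideanDomain.gcdB (Polynomial.X ^ 2) μ * k) * μ by ring, map_add, map_mul _ _ μ, h0,
    mul_zero, add_zero, map_mul _ _ Polynomial.X, map_mul _ _ Polynomial.X, aeval_X] at h3
  exact h3.symm

private theorem comm_aeval {K A : Type} [Field K] [Ring A] [Algebra K A] {x y : A}
    (h : x * y = y * x) (r : K[X]) : aeval x r * y = y * aeval x r := by
  induction r using Polynomial.induction_on' with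
  | add p q hp hq => rw [map_add, add_mul, mul_add, hp, hq]
  | monomial n a =>
    have h1 : x ^ n * y = y * x ^ n := (Commute.pow_left h n).eq
    rw [aeval_monomial, mul_assoc, h1, ← mul_assoc, Algebra.commutes, mul_assoc]

/-- A family of commuting semisimple matrices has a member with the smallest kernel. -/
private theorem exists_min {K : Type} [Field K] [Infinite K] {A J : Type} [AddCommGroup A]
    [Module K A] [Fintype J] [DecidableEq J] (Z : Submodule K A) (D : A →ₗ[K] Matrix J J K)
    (hcomm : ∀ a ∈ Z, ∀ b ∈ Z, D a * D b = D b * D a)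
    (hreg : ∀ a ∈ Z, ∃ r : K[X], aeval (D a) r * D a * D a = D a) :
    ∃ c ∈ Z, ∀ z ∈ Z, ∃ R, D z = R * D c := by
  classical
  let f : A → ℕ := fun z => Module.finrank K (LinearMap.ker (Matrix.mulVecLin (D z)))
  obtain ⟨c, hc, hmin⟩ : ∃ c ∈ Z, ∀ z ∈ Z, f c ≤ f z := by
    have h1 : ∃ n, ∃ z ∈ Z, f z = n := ⟨_, 0, Z.zero_mem, rfl⟩
    obtain ⟨c, hc, h2⟩ := Nat.find_spec h1
    exact ⟨c, hc, fun z hz => h2.le.trans (Nat.find_min' h1 ⟨z, hz, rfl⟩)⟩
  refine ⟨c, hc, fun z hz => ?_⟩
  obtain ⟨r, hr⟩ := hreg c hc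
  set E := aeval (D c) r with hE
  have hEc : E * D c = D c * E := comm_aeval rfl r
  have hEz : E * D z = D z * E := comm_aeval (hcomm c hc z hz) r
  obtain ⟨t, ht⟩ := ((Module.End.finite_hasEigenvalue (Matrix.mulVecLin (E * D z))).insert
    0).exists_notMem
  rw [Set.mem_insert_iff, not_or] at ht
  obtain ⟨ht0, ht1⟩ := ht
  have hker : ∀ v, D (c + (-t⁻¹) • z) *ᵥ v = 0 → D c *ᵥ v = 0 ∧ D z *ᵥ v = 0 := by
    intro v hv
    rw [map_add, map_smul, Matrix.add_mulVec, Matrix.smul_mulVec, neg_smul, ← sub_eq_add_neg,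
      sub_eq_zero] at hv
    have h1 : D z *ᵥ v = t • (D c *ᵥ v) := by
      rw [hv, smul_smul, mul_inv_cancel₀ ht0, one_smul]
    have h2 : (E * D z) *ᵥ ((E * D c) *ᵥ v) = t • ((E * D c) *ᵥ v) := by
      calc (E * D z) *ᵥ ((E * D c) *ᵥ v) = (E * (D z * E) * D c) *ᵥ v := by
            rw [Matrix.mulVec_mulVec]
            simp only [mul_assoc]
        _ = (E * (E * (D z * D c))) *ᵥ v := by
            rw [← hEz]
            simp only [mul_assoc]
        _ = (E * (E * D c)) *ᵥ (D z *ᵥ v) := by
            rw [hcomm z hz c hc, Matrix.mulVec_mulVec]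
            simp only [mul_assoc]
        _ = t • ((E * (E * D c * D c)) *ᵥ v) := by
            rw [h1, Matrix.mulVec_smul, Matrix.mulVec_mulVec]
            simp only [mul_assoc]
        _ = _ := by rw [hr]
    have h3 : (E * D c) *ᵥ v = 0 := by
      by_contra hne
      refine ht1 ?_
      exact Module.End.hasEigenvalue_of_hasEigenvector
        (Module.End.hasEigenvector_iff.2 ⟨Module.End.mem_eigenspace_iff.2 h2, hne⟩)
    have h4 : D c *ᵥ v = 0 := by
      rw [← hr, hEc, mul_assoc, ← Matrix.mulVec_mulVec, h3, Matrix.mulVec_zero]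
    exact ⟨h4, by rw [h1, h4, smul_zero]⟩
  have hle : LinearMap.ker (Matrix.mulVecLin (D (c + (-t⁻¹) • z))) ≤
      LinearMap.ker (Matrix.mulVecLin (D c)) := fun v hv => (hker v hv).1
  have heq := Submodule.eq_of_le_of_finrank_le hle
    (hmin _ (Z.add_mem hc (Z.smul_mem _ hz)))
  have hcz : ∀ v, D c *ᵥ v = 0 → D z *ᵥ v = 0 := by
    intro v hv
    have h1 : v ∈ LinearMap.ker (Matrix.mulVecLin (D c)) := hv
    rw [← heq] at h1
    exact (hker v h1).2
  refine ⟨D z * E, (Matrix.toLin' : Matrix J J K ≃ₗ[K] _).injective (LinearMap.ext fun v => ?_)⟩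
  have h1 := hcz (v - (E * D c) *ᵥ v) (by
    rw [Matrix.mulVec_sub, Matrix.mulVec_mulVec, ← mul_assoc, ← hEc, hr, sub_self])
  rw [Matrix.mulVec_sub, sub_eq_zero, Matrix.mulVec_mulVec, ← mul_assoc] at h1
  rw [Matrix.toLin'_apply, Matrix.toLin'_apply, h1]

private theorem ss_map {K : Type} [Field K] {I J : Type} [Fintype I] [DecidableEq I] [Fintype J]
    [DecidableEq J] (φ : Matrix I I K →ₐ[K] Matrix J J K) {X : Matrix I I K}
    (h : Module.End.IsSemisimple (Matrix.toLin' X)) :
    Module.End.IsSemisimple (Matrix.toLin' (φ X)) := by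
  refine Module.End.isSemisimple_of_squarefree_aeval_eq_zero h.minpoly_squarefree ?_
  set μ := minpoly K (Matrix.toLin' X) with hμ
  have h0 : aeval X μ = 0 := by
    have h1 : aeval (Matrix.toLin' X) μ = 0 := minpoly.aeval K _
    have h2 := Polynomial.aeval_algHom_apply
      (Matrix.toLinAlgEquiv' : Matrix I I K ≃ₐ[K] _).toAlgHom X μ
    have h3 : (Matrix.toLinAlgEquiv' : Matrix I I K ≃ₐ[K] _) (aeval X μ) = 0 := h2.symm.trans h1
    exact (Matrix.toLinAlgEquiv' : Matrix I I K ≃ₐ[K] _).injective (h3.trans (map_zero _).symm)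
  have h4 := Polynomial.aeval_algHom_apply
    (((Matrix.toLinAlgEquiv' : Matrix J J K ≃ₐ[K] _).toAlgHom).comp φ) X μ
  rw [h0, map_zero] at h4
  exact h4

/-- The four embeddings. -/
private noncomputable def emb4 (K I : Type) [Field K] [Fintype I] [DecidableEq I] (a : Fin 4) :
    Matrix I I K →ₐ[K] Matrix (I × I × I × I) (I × I × I × I) K :=
  AlgHom.ofLinearMap
    { toFun := fun X => q4 (if a = 0 then X else 1) (if a = 1 then X else 1)
        (if a = 2 then X else 1) (if a = 3 then X else 1)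
      map_add' := by
        intro X Y
        ext x y
        fin_cases a <;> simp [q4, mul_add, add_mul]
      map_smul' := by
        intro r X
        ext x y
        fin_cases a <;> simp [q4, mul_assoc, mul_left_comm] }
    (by
      change q4 (if a = 0 then (1 : Matrix I I K) else 1) (if a = 1 then 1 else 1)
        (if a = 2 then 1 else 1) (if a = 3 then 1 else 1) = 1
      simp only [ite_self]
      exact q4_one)
    (by
      intro X Y
      change q4 (if a = 0 then X * Y else 1) (if a = 1 then X * Y else 1)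
        (if a = 2 then X * Y else 1) (if a = 3 then X * Y else 1) =
        q4 (if a = 0 then X else 1) (if a = 1 then X else 1)
          (if a = 2 then X else 1) (if a = 3 then X else 1) *
        q4 (if a = 0 then Y else 1) (if a = 1 then Y else 1)
          (if a = 2 then Y else 1) (if a = 3 then Y else 1)
      rw [q4_mul]
      fin_cases a <;> simp)

private theorem emb4_apply {K I : Type} [Field K] [Fintype I] [DecidableEq I] (a : Fin 4)
    (X : Matrix I I K) : emb4 K I a X = q4 (if a = 0 then X else 1) (if a = 1 then X else 1)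
        (if a = 2 then X else 1) (if a = 3 then X else 1) := rfl

private theorem emb4_comm {K I : Type} [Field K] [Fintype I] [DecidableEq I] (a b : Fin 4)
    (X : Matrix I I K) : emb4 K I a X * emb4 K I b X = emb4 K I b X * emb4 K I a X := by
  rw [emb4_apply, emb4_apply, q4_mul, q4_mul]
  fin_cases a <;> fin_cases b <;> simp

private theorem d4_emb4 {K I : Type} [Field K] [Fintype I] [DecidableEq I] (X : Matrix I I K) :
    d4 X = emb4 K I 0 X + emb4 K I 1 X + emb4 K I 2 X + emb4 K I 3 X := by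
  rw [d4_q4, emb4_apply, emb4_apply, emb4_apply, emb4_apply]
  simp

private theorem d4_ss {K I : Type} [Field K] [PerfectField K] [Fintype I] [DecidableEq I]
    {X : Matrix I I K} (h : Module.End.IsSemisimple (Matrix.toLin' X)) :
    Module.End.IsSemisimple (Matrix.toLin' (d4 X)) := by
  have hc : ∀ a b, Commute (Matrix.toLin' (emb4 K I a X)) (Matrix.toLin' (emb4 K I b X)) := by
    intro a b
    change _ * _ = _ * _
    rw [Module.End.mul_eq_comp, Module.End.mul_eq_comp, ← Matrix.toLin'_mul, ← Matrix.toLin'_mul,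
      emb4_comm]
  have hs : ∀ a, Module.End.IsSemisimple (Matrix.toLin' (emb4 K I a X)) := fun a =>
    ss_map (emb4 K I a) h
  rw [d4_emb4, map_add, map_add, map_add]
  have h01 := Module.End.IsSemisimple.add_of_commute (hc 0 1) (hs 0) (hs 1)
  have h012 := Module.End.IsSemisimple.add_of_commute ((hc 0 2).add_left (hc 1 2)) h01 (hs 2)
  exact Module.End.IsSemisimple.add_of_commute (((hc 0 3).add_left (hc 1 3)).add_left (hc 2 3))
    h012 (hs 3)

/-- Vectors killed by `c` are killed by `z`, if this is true for `d4`. -/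
private theorem ker_of_d4 {K I : Type} [Field K] [CharZero K] [Fintype I] [DecidableEq I]
    {c z : Matrix I I K} (h : ∀ w, d4 c *ᵥ w = 0 → d4 z *ᵥ w = 0) (v : I → K)
    (hv : c *ᵥ v = 0) : z *ᵥ v = 0 := by
  classical
  by_cases hv0 : v = 0
  · rw [hv0, Matrix.mulVec_zero]
  obtain ⟨i, hi⟩ := Function.ne_iff.1 hv0
  have hi' : v i ≠ 0 := hi
  let w : I × I × I × I → K := fun x => v x.1 * v x.2.1 * v x.2.2.1 * v x.2.2.2
  have hd : ∀ (X : Matrix I I K) (x : I × I × I × I), (d4 X *ᵥ w) x =
      (X *ᵥ v) x.1 * v x.2.1 * v x.2.2.1 * v x.2.2.2 +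
      v x.1 * (X *ᵥ v) x.2.1 * v x.2.2.1 * v x.2.2.2 +
      v x.1 * v x.2.1 * (X *ᵥ v) x.2.2.1 * v x.2.2.2 +
      v x.1 * v x.2.1 * v x.2.2.1 * (X *ᵥ v) x.2.2.2 := by
    have hq : ∀ (a b c d : Matrix I I K) (x : I × I × I × I), (q4 a b c d *ᵥ w) x =
        (a *ᵥ v) x.1 * (b *ᵥ v) x.2.1 * (c *ᵥ v) x.2.2.1 * (d *ᵥ v) x.2.2.2 := by
      intro a b c d x
      simp only [Matrix.mulVec, dotProduct, Fintype.sum_prod_type, q4, Matrix.of_apply, w]
      have hr : ∀ y1 y2 y3 y4, a x.1 y1 * b x.2.1 y2 * c x.2.2.1 y3 * d x.2.2.2 y4 *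
          (v y1 * v y2 * v y3 * v y4) = (a x.1 y1 * v y1) * ((b x.2.1 y2 * v y2) *
            ((c x.2.2.1 y3 * v y3) * (d x.2.2.2 y4 * v y4))) := by
        intro y1 y2 y3 y4
        ring
      simp only [hr, ← Finset.mul_sum, ← Finset.sum_mul]
      ring
    intro X x
    rw [d4_q4, Matrix.add_mulVec, Matrix.add_mulVec, Matrix.add_mulVec, Pi.add_apply,
      Pi.add_apply, Pi.add_apply, hq, hq, hq, hq]
    simp only [Matrix.one_mulVec]
  have h1 : d4 z *ᵥ w = 0 := by
    refine h w ?_
    funext x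
    rw [hd, hv]
    simp
  have h2 : (z *ᵥ v) i = 0 := by
    have h3 := congrFun h1 (i, i, i, i)
    rw [hd, Pi.zero_apply] at h3
    have h4 : (4 * v i ^ 3) * (z *ᵥ v) i = 0 := by linear_combination h3
    have h5 : (4 * v i ^ 3) ≠ 0 := mul_ne_zero (by norm_num) (pow_ne_zero _ hi')
    exact (mul_eq_zero.1 h4).resolve_left h5
  funext j
  have h3 := congrFun h1 (j, i, i, i)
  rw [hd, Pi.zero_apply] at h3
  simp only [h2] at h3
  have h4 : v i ^ 3 * (z *ᵥ v) j = 0 := by linear_combination h3
  exact (mul_eq_zero.1 h4).resolve_left (pow_ne_zero _ hi')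

end aux

variable {F : Type} [NontriviallyNormedField F] {I : Type} [Fintype I] [DecidableEq I]
  {Γ : Type} [Group Γ] [TopologicalSpace Γ]
  [IsUltrametricDist F] [CompleteSpace F] [CharZero F] [IsTopologicalGroup Γ]
  [CompactSpace Γ] (ρ : MRep Γ F I)

omit [CompactSpace Γ] in
private theorem zm_squarefree (hsemi : ρ.Semi) {z : Matrix I I F} (hz : z ∈ Zm ρ) :
    Squarefree (minpoly F z) := by
  have hint : IsIntegral F z := Algebra.IsIntegral.isIntegral z
  have hq0 : minpoly F z ≠ 0 := minpoly.ne_zero hint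
  have hC : ∀ p : Polynomial F, ρ.InC (Polynomial.aeval z p) := by
    intro p
    induction p using Polynomial.induction_on' with
    | add p q hp hq => rw [map_add]; exact inC_add ρ hp hq
    | monomial n a =>
      rw [Polynomial.aeval_monomial, ← Algebra.smul_def]
      refine inC_smul ρ a ?_
      induction n with
      | zero => rw [pow_zero]; exact inC_one ρ
      | succ n ih => rw [pow_succ]; exact inC_mul ρ ih hz.1
  rintro x ⟨y, hy⟩
  have h1 : Polynomial.aeval z (x * y) = 0 := by
    refine zred ρ hsemi (hC _) (fun c hc => comm_aeval (hz.2.1 c hc) _) ⟨2, ?_⟩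
    have h2 : (x * y) ^ 2 = minpoly F z * y := by rw [hy]; ring
    rw [← map_pow, h2, map_mul, minpoly.aeval, zero_mul]
  have h3 : x * x * y ∣ x * y := by
    rw [← hy]; exact minpoly.dvd F z h1
  have hxy : x * y ≠ 0 := by
    intro h
    apply hq0
    rw [hy, mul_assoc, h, mul_zero]
  obtain ⟨w, hw⟩ := h3
  have h4 : x * y * (x * w) = x * y * 1 := by
    rw [mul_one]; nth_rewrite 2 [hw]; ring
  exact IsUnit.of_mul_eq_one w (mul_left_cancel₀ hxy h4)

theorem zm_ss (hsemi : ρ.Semi) {z : Matrix I I F} (hz : z ∈ Zm ρ) (K : Type) [Field K]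
    [Algebra F K] : Module.End.IsSemisimple (Matrix.toLin' (z.map (algebraMap F K))) := by
  have hsep : ((minpoly F z).map (algebraMap F K)).Separable :=
    (PerfectField.separable_iff_squarefree.2 (zm_squarefree ρ hsemi hz)).map
  refine Module.End.isSemisimple_of_squarefree_aeval_eq_zero hsep.squarefree ?_
  have h1 : Polynomial.aeval (z.map (algebraMap F K)) ((minpoly F z).map (algebraMap F K)) =
      (Polynomial.aeval z (minpoly F z)).map (algebraMap F K) := by
    rw [Polynomial.aeval_map_algebraMap]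
    exact Polynomial.aeval_algHom_apply ((Algebra.ofId F K).mapMatrix) z _
  have h2 := Polynomial.aeval_algHom_apply
    (Matrix.toLinAlgEquiv' : Matrix I I K ≃ₐ[K] _).toAlgHom (z.map (algebraMap F K))
    ((minpoly F z).map (algebraMap F K))
  rw [h1, minpoly.aeval] at h2
  refine h2.trans ?_
  have h3 : (0 : Matrix I I F).map (algebraMap F K) = 0 := by
    ext i j
    simp
  rw [h3]
  exact map_zero _

theorem exists_cc (hsemi : ρ.Semi) : ∃ c ∈ Zm ρ, ∀ z ∈ Zm ρ,
    (∃ R, d4 z = R * d4 c) ∧ ∃ R, z = R * c := by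
  classical
  have hinf : Infinite F := inferInstance
  let D : Matrix I I F →ₗ[F] Matrix (I × I × I × I) (I × I × I × I) F :=
    { toFun := d4
      map_add' := d4_add
      map_smul' := d4_smul }
  have hss : ∀ z ∈ Zm ρ, Module.End.IsSemisimple (Matrix.toLin' z) := by
    intro z hz
    have h1 := zm_ss ρ hsemi hz F
    have h2 : z.map (algebraMap F F) = z := by
      ext i j
      rfl
    rwa [h2] at h1
  obtain ⟨c, hc, h⟩ := exists_min (Zm ρ) D (fun a ha b hb => d4_comm (ha.2.1 b hb.1))
    (fun a ha => reg_of_ss _ (d4_ss (hss a ha)))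
  refine ⟨c, hc, fun z hz => ⟨h z hz, ?_⟩⟩
  obtain ⟨R, hR⟩ := h z hz
  have hR' : d4 z = R * d4 c := hR
  obtain ⟨r, hr⟩ := reg_of_ss c (hss c hc)
  have hcr : Polynomial.aeval c r * c = c * Polynomial.aeval c r := comm_aeval rfl r
  refine ⟨z * Polynomial.aeval c r, (Matrix.toLin' : Matrix I I F ≃ₗ[F] _).injective
    (LinearMap.ext fun v => ?_)⟩
  have h1 := ker_of_d4 (c := c) (z := z) (fun w hw => by
    rw [hR', ← Matrix.mulVec_mulVec, hw, Matrix.mulVec_zero])
    (v - (Polynomial.aeval c r * c) *ᵥ v) (by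
      rw [Matrix.mulVec_sub, Matrix.mulVec_mulVec, ← mul_assoc, ← hcr, hr, sub_self])
  rw [Matrix.mulVec_sub, sub_eq_zero, Matrix.mulVec_mulVec, ← mul_assoc] at h1
  rw [Matrix.toLin'_apply, Matrix.toLin'_apply, h1]

end Pool.Agent.Lib.MP_640417_ag.Gn
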