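import Pool.Agent.Lib.MP_640417_ag.Ctl.Plus
import Pool.Agent.Lib.MP_640417_ag.Ty.Defs

/-!
# MP_640417_ag, Gn: weights, good and detecting elements in coordinates

The definitions of `Ctl/Defs.lean` in coordinates, over an algebraically closed extension `K` of `F`.
-/

set_option autoImplicit false

namespace Pool.Agent.Lib.MP_640417_ag.Gn

open Matrix Module Pool.Agent.Lib.MP_640417_ag.Glob Pool.Agent.Lib.MP_640417_ag.Ctl
  Pool.Agent.Lib.MP_640417_ag.Ty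

variable {F : Type} [NontriviallyNormedField F] {I : Type} [Fintype I] [DecidableEq I]
  {Γ : Type} [Group Γ] [TopologicalSpace Γ] (ρ : MRep Γ F I) (K : Type) [Field K] [Algebra F K]

/-- the weight space in coordinates -/
noncomputable def WtM (γ : Γ) (z : K) (κ : Matrix I I F → K) : Submodule K (I → K) :=
  Module.End.maxGenEigenspace (Matrix.toLin' ((ρ.M γ).map (algebraMap F K))) z ⊓
    ⨅ c : {c : Matrix I I F // c ∈ Zm ρ},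
      Module.End.eigenspace (Matrix.toLin' (c.1.map (algebraMap F K))) (κ c.1)

/-- dual weights in coordinates -/
def DualM (γ : Γ) (z : K) (κ : Matrix I I F → K) (z' : K) (κ' : Matrix I I F → K) : Prop :=
  z * z' = algebraMap F K (ρ.μ γ : F) ∧ ∀ c ∈ Zm ρ, κ c + κ' c = 0

/-- isolated weights in coordinates -/
def IsolatedM (γ : Γ) (z : K) (κ : Matrix I I F → K) : Prop :=
  ¬ DualM ρ K γ z κ z κ ∧
  (∀ N : Submodule K (I → K), N ≤ WtM ρ K γ z κ →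
    (∀ c, ρ.InC c → ∀ y ∈ N, c.map (algebraMap F K) *ᵥ y ∈ N) →
    N = ⊥ ∨ N = WtM ρ K γ z κ) ∧
  ∀ z₂ κ₂ z₃ κ₃ z₄ κ₄, WtM ρ K γ z₂ κ₂ ≠ ⊥ → WtM ρ K γ z₃ κ₃ ≠ ⊥ → WtM ρ K γ z₄ κ₄ ≠ ⊥ →
    (∀ c ∈ Zm ρ, κ c + κ₂ c + κ₃ c + κ₄ c = 0) → ∀ N : ℕ, 0 < N →
    (z * z₂ * z₃ * z₄) ^ N = (algebraMap F K (ρ.μ γ : F)) ^ (2 * N) →
      DualM ρ K γ z κ z₂ κ₂ ∨ DualM ρ K γ z κ z₃ κ₃ ∨ DualM ρ K γ z κ z₄ κ₄

/-- good elements in coordinates -/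
def GoodM (γ : Γ) : Prop :=
  (∀ c, ρ.InC c → ρ.M γ * c = c * ρ.M γ) ∧
  ∀ z κ, WtM ρ K γ z κ ≠ ⊥ → IsolatedM ρ K γ z κ

/-- detecting elements in coordinates -/
def DetectsM (γ : Γ) : Prop :=
  (∀ c, ρ.InC c → ρ.M γ * c = c * ρ.M γ) ∧
  Module.End.IsSemisimple (Matrix.toLin' ((ρ.M γ).map (algebraMap F K))) ∧
  ∀ c, InCK ρ K c → (∀ z κ, IsolatedM ρ K γ z κ → ∀ y ∈ WtM ρ K γ z κ, c *ᵥ y = 0) → c = 0

end Pool.Agent.Lib.MP_640417_ag.Gn
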