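import Pool.Agent.Lib.MP_640417_ag.Gn.DefM
import Pool.Agent.Lib.MP_640417_ag.Ctl.Defs
import Pool.Agent.Lib.MP_640417_ag.Ty.CoordK

/-!
# MP_640417_ag, Gn, module CoordG (250 lines): weights, good and detecting elements in coordinates

`R` is `ρ` in the basis `b` (`exists_coord`), `coK b`, `maK b` are the coordinates of `K ⊗ V` and of its endomorphisms
(`Ty/CoordK.lean`). `κ : Module.End F V → K` corresponds to `κ ∘ toLin b b : Matrix I I F → K`, and `κ' : Matrix I I F → K` to
`κ' ∘ toMatrix b b`.
* `central_iff`: multiplicativity and injectivity of `toMatrix`; the form: `R.J i j = form (b i) (b j)` (the same statement is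
  proved in `Ctl/Main.lean`, `coord_zm`, do not import that file, copy if useful).
* `wt_iff`: `coK b` maps generalized eigenspaces to generalized eigenspaces (`coK_T`, for powers of `T γ - z`), eigenspaces to
  eigenspaces (`coK_end`, `maK_base`).
* `isolated_iff`: submodules correspond under `coK b` (`Submodule.map`, `Submodule.comap`), `commF_iff`.
  `R.μ γ = (χ γ)⁻¹`.
* `good_iff`, `detects_iff`: `commK_iff`, `maK_surj`, `maK_zero_iff`. Semisimplicity: `T γ` is semisimple over `F` if and only if its
  minimal polynomial is squarefree (`Module.End.isSemisimple_iff_squarefree_minpoly`?, search), if and only if the minimal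
  polynomial of the base change (the same polynomial, mapped: `minpoly` of a matrix over an extension,
  `Matrix.minpoly_map`? or `LinearMap.minpoly_baseChange`?; or by hand: a squarefree polynomial over `F` (characteristic zero)
  stays squarefree; conversely if `T γ ⊗ K` is semisimple then it is killed by a squarefree polynomial, and the radical of the
  minimal polynomial over `F` kills it) is squarefree. Only `Detects → DetectsM` and `DetectsM → Detects` as stated are needed.
-/

set_option autoImplicit false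

namespace Pool.Agent.Lib.MP_640417_ag.Gn

open Matrix Module TensorProduct Pool.Agent.Lib.MP_640417_ag Pool.Agent.Lib.MP_640417_ag.Frob
  Pool.Agent.Lib.MP_640417_ag.Glob Pool.Agent.Lib.MP_640417_ag.Ctl
  Pool.Agent.Lib.MP_640417_ag.Ty

theorem gen_iff {K M N : Type} [Field K] [AddCommGroup M] [Module K M] [AddCommGroup N]
    [Module K N] (e : M ≃ₗ[K] N) (f : Module.End K M) (g : Module.End K N)
    (h : ∀ x, e (f x) = g (e x)) (μ : K) (x : M) :
    x ∈ f.maxGenEigenspace μ ↔ e x ∈ g.maxGenEigenspace μ := by
  rw [Module.End.mem_maxGenEigenspace, Module.End.mem_maxGenEigenspace]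
  have h1 : ∀ (k : ℕ) (x : M), e (((f - μ • 1) ^ k) x) = ((g - μ • 1) ^ k) (e x) := by
    intro k
    induction k with
    | zero => intro x; rfl
    | succ k ih =>
      intro x
      rw [pow_succ, pow_succ, Module.End.mul_apply, Module.End.mul_apply, ih]
      congr 1
      simp [h]
  refine exists_congr fun k => ?_
  rw [← h1, LinearEquiv.map_eq_zero_iff]

private theorem aeval_key {F : Type} [Field F] {I : Type} [Fintype I] [DecidableEq I] {V : Type}
    [AddCommGroup V] [Module F V] (b : Basis I F V) (T : Module.End F V) (q : Polynomial F) :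
    Polynomial.aeval (Matrix.toLin' ((LinearMap.toMatrix b b T).map
      (algebraMap F (AlgebraicClosure F)))) (q.map (algebraMap F (AlgebraicClosure F))) =
    Matrix.toLin' ((LinearMap.toMatrix b b (Polynomial.aeval T q)).map
      (algebraMap F (AlgebraicClosure F))) := by
  rw [Polynomial.aeval_map_algebraMap]
  let φ : Module.End F V →ₐ[F] Module.End (AlgebraicClosure F) (I → AlgebraicClosure F) :=
    ((Matrix.toLinAlgEquiv' : Matrix I I (AlgebraicClosure F) ≃ₐ[AlgebraicClosure F]
      _).toAlgHom.restrictScalars F).comp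
      ((Algebra.ofId F (AlgebraicClosure F)).mapMatrix.comp (LinearMap.toMatrixAlgEquiv b).toAlgHom)
  exact Polynomial.aeval_algHom_apply φ T q

private theorem aeval_zero {F : Type} [Field F] {I : Type} [Fintype I] [DecidableEq I] {V : Type}
    [AddCommGroup V] [Module F V] (b : Basis I F V) (T : Module.End F V) (q : Polynomial F) :
    Polynomial.aeval (Matrix.toLin' ((LinearMap.toMatrix b b T).map
      (algebraMap F (AlgebraicClosure F)))) (q.map (algebraMap F (AlgebraicClosure F))) = 0 ↔
    Polynomial.aeval T q = 0 := by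
  rw [aeval_key, LinearEquiv.map_eq_zero_iff]
  constructor
  · intro h
    rw [← LinearEquiv.map_eq_zero_iff (LinearMap.toMatrix b b)]
    ext i j
    have h1 := congrFun (congrFun h i) j
    rw [Matrix.map_apply, Matrix.zero_apply] at h1
    exact (map_eq_zero_iff _ (algebraMap F (AlgebraicClosure F)).injective).1 h1
  · intro h
    rw [h, map_zero]
    ext i j
    rw [Matrix.map_apply, Matrix.zero_apply, Matrix.zero_apply, map_zero]

theorem ss_iff {F : Type} [Field F] [CharZero F] {I : Type} [Fintype I] [DecidableEq I]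
    {V : Type} [AddCommGroup V] [Module F V] [FiniteDimensional F V] (b : Basis I F V)
    (T : Module.End F V) :
    T.IsSemisimple ↔ Module.End.IsSemisimple (Matrix.toLin' ((LinearMap.toMatrix b b T).map
      (algebraMap F (AlgebraicClosure F)))) := by
  set B := Matrix.toLin' ((LinearMap.toMatrix b b T).map
      (algebraMap F (AlgebraicClosure F))) with hB
  constructor
  · intro h
    have h1 : Squarefree (minpoly F T) := h.minpoly_squarefree
    have h2 : (minpoly F T).Separable := PerfectField.separable_iff_squarefree.2 h1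
    have h3 : ((minpoly F T).map (algebraMap F (AlgebraicClosure F))).Separable := h2.map
    refine Module.End.isSemisimple_of_squarefree_aeval_eq_zero h3.squarefree ?_
    rw [hB, aeval_zero]
    exact minpoly.aeval F T
  · intro h
    refine Module.End.isSemisimple_of_squarefree_aeval_eq_zero (p := minpoly F T) ?_
      (minpoly.aeval F T)
    have hq0 : minpoly F T ≠ 0 := minpoly.ne_zero (Algebra.IsIntegral.isIntegral T)
    rintro x ⟨s, hs⟩
    have h1 : Polynomial.aeval B ((x * s).map (algebraMap F (AlgebraicClosure F))) = 0 := by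
      refine Module.End.eq_zero_of_isNilpotent_isSemisimple ⟨2, ?_⟩ (h.aeval _)
      rw [← map_pow, ← Polynomial.map_pow, hB, aeval_zero]
      have h2 : (x * s) ^ 2 = minpoly F T * s := by
        rw [hs]
        ring
      rw [h2, map_mul, minpoly.aeval, zero_mul]
    rw [hB, aeval_zero] at h1
    have h2 : minpoly F T ∣ x * s := minpoly.dvd F T h1
    have hxs : x * s ≠ 0 := by
      intro h3
      apply hq0
      rw [hs, mul_assoc, h3, mul_zero]
    obtain ⟨c, hc⟩ := h2
    have h3 : x * s * 1 = x * s * (x * c) := by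
      rw [mul_one]
      calc x * s = minpoly F T * c := hc
        _ = x * s * (x * c) := by rw [hs]; ring
    have h4 := mul_left_cancel₀ hxs h3
    exact IsUnit.of_mul_eq_one _ h4.symm

variable {F : Type} [NontriviallyNormedField F] [CharZero F] {I : Type} [Fintype I]
  [DecidableEq I]
  {Γ : Type} [Group Γ] [TopologicalSpace Γ] {V : Type} [AddCommGroup V] [Module F V]
  [FiniteDimensional F V] (ρ : H1Rep Γ F V) (b : Basis I F V) (R : MRep Γ F I)
  (h1 : ∀ γ, R.M γ = LinearMap.toMatrix b b (ρ.T γ)) (h2 : R.μ = ρ.χ⁻¹)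
  (h3 : ∀ i j, R.J i j = ρ.form (b i) (b j))

include h1 h3

omit [CharZero F] in
theorem central_iff (z : Module.End F V) :
    CentralSkew ρ z ↔ LinearMap.toMatrix b b z ∈ Zm R := by
  have hJ : R.J = LinearMap.BilinForm.toMatrix b ρ.form := by
    ext i j
    rw [h3, LinearMap.BilinForm.toMatrix_apply]
  have h : (LinearMap.toMatrix b b z)ᵀ * R.J + R.J * LinearMap.toMatrix b b z =
      LinearMap.BilinForm.toMatrix b (LinearMap.BilinForm.compLeft ρ.form z +
        LinearMap.BilinForm.compRight ρ.form z) := by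
    rw [map_add, LinearMap.BilinForm.toMatrix_compLeft, LinearMap.BilinForm.toMatrix_compRight, hJ]
  show (CommF ρ z ∧ (∀ c, CommF ρ c → z * c = c * z) ∧ _) ↔
    (R.InC _ ∧ (∀ c, R.InC c → _ = _) ∧
      (LinearMap.toMatrix b b z)ᵀ * R.J + R.J * LinearMap.toMatrix b b z = 0)
  rw [h, LinearEquiv.map_eq_zero_iff, commF_iff ρ b R h1]
  refine and_congr Iff.rfl (and_congr ?_ ?_)
  · constructor
    · intro h c hc
      obtain ⟨c', rfl⟩ := (LinearMap.toMatrix b b).surjective c
      have h5 := congrArg (LinearMap.toMatrixAlgEquiv b) (h c' ((commF_iff ρ b R h1 c').2 hc))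
      rw [map_mul, map_mul] at h5
      exact h5
    · intro h c hc
      have h5 := h _ ((commF_iff ρ b R h1 c).1 hc)
      apply (LinearMap.toMatrixAlgEquiv b).injective
      rw [map_mul, map_mul]
      exact h5
  · constructor
    · intro h0
      exact LinearMap.ext fun x => LinearMap.ext fun y => h0 x y
    · intro h0 x y
      exact LinearMap.congr_fun (LinearMap.congr_fun h0 x) y

theorem wt_iff (γ : Γ) (z : AlgebraicClosure F) (κ : Module.End F V → AlgebraicClosure F)
    (y : AlgebraicClosure F ⊗[F] V) :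
    y ∈ Wt ρ γ z κ ↔ coK b y ∈ WtM R (AlgebraicClosure F) γ z fun c => κ (Matrix.toLin b b c) := by
  rw [Wt, WtM, Submodule.mem_inf, Submodule.mem_inf, Submodule.mem_iInf, Submodule.mem_iInf]
  refine and_congr (gen_iff (coK b) _ _ (fun x => ?_) z y) ?_
  · rw [Matrix.toLin'_apply]
    exact coK_T ρ b R h1 γ x
  · constructor
    · intro h c
      have hc : CentralSkew ρ (Matrix.toLin b b c.1) := (central_iff ρ b R h1 h3 _).2 (by
        rw [LinearMap.toMatrix_toLin]
        exact c.2)
      have h5 := h ⟨_, hc⟩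
      rw [Module.End.mem_eigenspace_iff] at h5 ⊢
      have h6 := congrArg (coK b) h5
      rw [coK_end, maK_base, LinearMap.toMatrix_toLin, map_smul] at h6
      rw [Matrix.toLin'_apply]
      exact h6
    · intro h c
      have hc := (central_iff ρ b R h1 h3 _).1 c.2
      have h5 := h ⟨_, hc⟩
      rw [Module.End.mem_eigenspace_iff, Matrix.toLin'_apply, Matrix.toLin_toMatrix] at h5
      rw [Module.End.mem_eigenspace_iff]
      apply (coK b).injective
      rw [coK_end, maK_base, map_smul]
      exact h5

private theorem wt_map (γ : Γ) (z : AlgebraicClosure F)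
    (κ : Module.End F V → AlgebraicClosure F) :
    (Wt ρ γ z κ).map (coK b).toLinearMap =
      WtM R (AlgebraicClosure F) γ z fun c => κ (Matrix.toLin b b c) := by
  ext y
  rw [Submodule.mem_map]
  constructor
  · rintro ⟨x, hx, rfl⟩
    exact (wt_iff ρ b R h1 h3 γ z κ x).1 hx
  · intro hy
    refine ⟨(coK b).symm y, ?_, (coK b).apply_symm_apply y⟩
    rw [wt_iff ρ b R h1 h3, LinearEquiv.apply_symm_apply]
    exact hy

theorem wt_bot (γ : Γ) (z : AlgebraicClosure F)
    (κ : Module.End F V → AlgebraicClosure F) :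
    Wt ρ γ z κ = ⊥ ↔ (WtM R (AlgebraicClosure F) γ z fun c => κ (Matrix.toLin b b c)) = ⊥ := by
  rw [← wt_map ρ b R h1 h3 γ z κ,
    ← (Submodule.map_injective_of_injective (f := (coK b).toLinearMap) (coK b).injective).eq_iff,
    Submodule.map_bot]

omit [CharZero F] [FiniteDimensional F V] h1 h3 in
theorem toLin_cancel (κ' : Matrix I I F → AlgebraicClosure F) :
    (fun c => (fun e : Module.End F V => κ' (LinearMap.toMatrix b b e)) (Matrix.toLin b b c)) =
      κ' := by
  funext c
  simp only [LinearMap.toMatrix_toLin]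

include h2

omit [CharZero F] in
theorem dual_iff (γ : Γ) (z : AlgebraicClosure F)
    (κ : Module.End F V → AlgebraicClosure F)
    (z' : AlgebraicClosure F) (κ' : Module.End F V → AlgebraicClosure F) :
    Dual ρ γ z κ z' κ' ↔ DualM R (AlgebraicClosure F) γ z (fun c => κ (Matrix.toLin b b c)) z'
      (fun c => κ' (Matrix.toLin b b c)) := by
  rw [Ctl.Dual, DualM]
  refine and_congr ?_ ?_
  · rw [h2]
    rfl
  · constructor
    · intro h c hc
      exact h _ ((central_iff ρ b R h1 h3 _).2 (by rw [LinearMap.toMatrix_toLin]; exact hc))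
    · intro h c hc
      have h5 := h _ ((central_iff ρ b R h1 h3 _).1 hc)
      rw [Matrix.toLin_toMatrix] at h5
      exact h5

theorem isolated_iff (γ : Γ) (z : AlgebraicClosure F) (κ : Module.End F V → AlgebraicClosure F) :
    Isolated ρ γ z κ ↔
      IsolatedM R (AlgebraicClosure F) γ z fun c => κ (Matrix.toLin b b c) := by
  rw [Isolated, IsolatedM]
  refine and_congr (not_congr (dual_iff ρ b R h1 h2 h3 γ z κ z κ)) (and_congr ?_ ?_)
  · refine (Submodule.orderIsoMapComap (coK b)).toEquiv.forall_congr fun N => ?_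
    have e1 : (Submodule.orderIsoMapComap (coK b)).toEquiv N = N.map (coK b).toLinearMap := rfl
    rw [e1, ← wt_map ρ b R h1 h3 γ z κ]
    refine imp_congr ?_ (imp_congr ?_ (or_congr ?_ ?_))
    · exact ((Submodule.orderIsoMapComap (coK b)).le_iff_le (x := N) (y := Wt ρ γ z κ)).symm
    · constructor
      · rintro h c hc _ ⟨y, hy, rfl⟩
        have h5 := h (Matrix.toLin b b c) ((commF_iff ρ b R h1 _).2 (by
          rw [LinearMap.toMatrix_toLin]
          exact hc)) y hy
        refine ⟨_, h5, ?_⟩
        change coK b _ = _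
        rw [coK_end, maK_base, LinearMap.toMatrix_toLin]
        rfl
      · intro h c hc y hy
        obtain ⟨y', hy', h5⟩ := h _ ((commF_iff ρ b R h1 c).1 hc) (coK b y) ⟨y, hy, rfl⟩
        have h6 : coK b y' = coK b (c.baseChange (AlgebraicClosure F) y) := by
          rw [coK_end, maK_base]
          exact h5
        rw [← (coK b).injective h6]
        exact hy'
    · rw [← (Submodule.map_injective_of_injective (f := (coK b).toLinearMap)
        (coK b).injective).eq_iff (b := ⊥), Submodule.map_bot]
    · exact (Submodule.map_injective_of_injective (coK b).injective).eq_iff.symm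
  · constructor
    · intro h z₂ κ₂ z₃ κ₃ z₄ κ₄ hw₂ hw₃ hw₄ hk N hN hz
      have h5 := h z₂ (fun e => κ₂ (LinearMap.toMatrix b b e)) z₃
        (fun e => κ₃ (LinearMap.toMatrix b b e)) z₄ (fun e => κ₄ (LinearMap.toMatrix b b e))
      rw [Ne, Ne, Ne, wt_bot ρ b R h1 h3, wt_bot ρ b R h1 h3, wt_bot ρ b R h1 h3,
        dual_iff ρ b R h1 h2 h3, dual_iff ρ b R h1 h2 h3, dual_iff ρ b R h1 h2 h3] at h5
      simp only [LinearMap.toMatrix_toLin] at h5
      refine h5 hw₂ hw₃ hw₄ (fun c hc => ?_) N hN (by rw [hz, h2]; rfl)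
      have h6 := hk _ ((central_iff ρ b R h1 h3 c).1 hc)
      rwa [Matrix.toLin_toMatrix] at h6
    · intro h z₂ κ₂ z₃ κ₃ z₄ κ₄ hw₂ hw₃ hw₄ hk N hN hz
      rw [Ne, wt_bot ρ b R h1 h3] at hw₂ hw₃ hw₄
      rw [dual_iff ρ b R h1 h2 h3, dual_iff ρ b R h1 h2 h3, dual_iff ρ b R h1 h2 h3]
      refine h z₂ _ z₃ _ z₄ _ hw₂ hw₃ hw₄ (fun c hc => ?_) N hN (by rw [hz, h2]; rfl)
      exact hk _ ((central_iff ρ b R h1 h3 _).2 (by rw [LinearMap.toMatrix_toLin]; exact hc))

omit [CharZero F] h2 h3 in
theorem comm_iff (γ : Γ) : (∀ c, CommF ρ c → c * ρ.T γ = ρ.T γ * c) ↔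
    ∀ c, R.InC c → R.M γ * c = c * R.M γ := by
  constructor
  · intro h c hc
    obtain ⟨c', rfl⟩ := (LinearMap.toMatrix b b).surjective c
    have h5 := congrArg (LinearMap.toMatrixAlgEquiv b) (h c' ((commF_iff ρ b R h1 c').2 hc))
    rw [map_mul, map_mul] at h5
    rw [h1]
    exact h5.symm
  · intro h c hc
    have h5 := h _ ((commF_iff ρ b R h1 c).1 hc)
    apply (LinearMap.toMatrixAlgEquiv b).injective
    rw [map_mul, map_mul]
    rw [h1] at h5
    exact h5.symm

theorem good_iff (γ : Γ) : Good ρ γ ↔ GoodM R (AlgebraicClosure F) γ := by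
  rw [Good, GoodM, comm_iff ρ b R h1]
  refine and_congr Iff.rfl ?_
  constructor
  · intro h z κ hw
    have h5 := h z (fun e => κ (LinearMap.toMatrix b b e))
    rw [Ne, wt_bot ρ b R h1 h3, isolated_iff ρ b R h1 h2 h3] at h5
    simp only [LinearMap.toMatrix_toLin] at h5
    exact h5 hw
  · intro h z κ hw
    rw [Ne, wt_bot ρ b R h1 h3] at hw
    rw [isolated_iff ρ b R h1 h2 h3]
    exact h z _ hw

theorem detects_iff (γ : Γ) : Detects ρ γ ↔ DetectsM R (AlgebraicClosure F) γ := by
  rw [Detects, DetectsM, comm_iff ρ b R h1, ss_iff b, ← h1]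
  refine and_congr Iff.rfl (and_congr Iff.rfl ?_)
  constructor
  · intro h c hc hiso
    obtain ⟨c', rfl⟩ := maK_surj b c
    rw [maK_zero_iff]
    refine h c' ((commK_iff ρ b R h1 c').2 hc) fun z κ hz y hy => ?_
    apply (coK b).injective
    rw [coK_end, map_zero]
    exact hiso z _ ((isolated_iff ρ b R h1 h2 h3 γ z κ).1 hz) _
      ((wt_iff ρ b R h1 h3 γ z κ y).1 hy)
  · intro h c hc hiso
    rw [← maK_zero_iff b]
    refine h _ ((commK_iff ρ b R h1 c).1 hc) fun z κ hz y hy => ?_
    have h5 := hiso z (fun e => κ (LinearMap.toMatrix b b e))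
    rw [isolated_iff ρ b R h1 h2 h3] at h5
    simp only [LinearMap.toMatrix_toLin] at h5
    have h6 := h5 hz ((coK b).symm y) (by
      rw [wt_iff ρ b R h1 h3, LinearEquiv.apply_symm_apply]
      simp only [LinearMap.toMatrix_toLin]
      exact hy)
    have h7 := congrArg (coK b) h6
    rw [coK_end, LinearEquiv.apply_symm_apply, map_zero] at h7
    exact h7

end Pool.Agent.Lib.MP_640417_ag.Gn
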