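import Pool.Agent.Lib.MP_640417_ag.Gn.DefM
import Pool.Agent.Lib.MP_640417_ag.Gn.CC
import Pool.Agent.Lib.MP_640417_ag.Ty.SpanK

/-!
# MP_640417_ag, Gn, module GoodD (200 lines): good elements detect

Let `γ` be good, `g = (M γ).map`.
* The weight spaces `WtM z κ` span `K^I`: the generalized eigenspaces of the commuting family consisting of `g` and of all
  `c.map`, `c ∈ Zm` (`c.map` commutes with `g` as `c` is in the commutant, and with each other) span
  (Mathlib: `Module.End.iSup_iInf_maxGenEigenspace_eq_top_of_iSup_maxGenEigenspace_eq_top_of_commute` or similar), and for the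
  semisimple `c.map` (`zm_ss`) the generalized eigenspace is the eigenspace
  (`Module.End.IsFinitelySemisimple.maxGenEigenspace_eq_eigenspace`).
* Semisimple: on a weight space `W = WtM z κ ≠ 0` the kernel of `g - z` is stable under all `c.map`, `c` in the commutant, and not
  zero (`g - z` is nilpotent on `W`), so it is `W`. So `K^I` is spanned by eigenvectors of `g`, and `g` is semisimple.
* If `c` vanishes on all isolated weight spaces it vanishes on all weight spaces (those which are `⊥` are trivial), so `c = 0`.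
-/

set_option autoImplicit false

namespace Pool.Agent.Lib.MP_640417_ag.Gn

open Matrix Module Pool.Agent.Lib.MP_640417_ag.Glob Pool.Agent.Lib.MP_640417_ag.Ctl
  Pool.Agent.Lib.MP_640417_ag.Ty

variable {F : Type} [NontriviallyNormedField F] [IsUltrametricDist F] [CompleteSpace F] [CharZero F]
  {I : Type} [Fintype I] [DecidableEq I] {Γ : Type} [Group Γ] [TopologicalSpace Γ]
  [IsTopologicalGroup Γ] [CompactSpace Γ] (ρ : MRep Γ F I) (K : Type) [Field K] [Algebra F K]
  [IsAlgClosed K]

omit [IsUltrametricDist F] [CompleteSpace F] [CharZero F] [TopologicalSpace Γ]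
  [IsTopologicalGroup Γ] [CompactSpace Γ] [IsAlgClosed K] [Group Γ] in
private theorem goodD_comm {a b : Matrix I I F} (h : a * b = b * a) :
    Commute (Matrix.toLin' (a.map (algebraMap F K))) (Matrix.toLin' (b.map (algebraMap F K))) := by
  change Matrix.toLin' (a.map (algebraMap F K)) * Matrix.toLin' (b.map (algebraMap F K)) =
    Matrix.toLin' (b.map (algebraMap F K)) * Matrix.toLin' (a.map (algebraMap F K))
  have h1 : a.map (algebraMap F K) * b.map (algebraMap F K) =
      b.map (algebraMap F K) * a.map (algebraMap F K) := by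
    rw [← Matrix.map_mul, h, Matrix.map_mul]
  have h2 : ∀ x y : Matrix I I K, Matrix.toLin' x * Matrix.toLin' y = Matrix.toLin' (x * y) :=
    fun x y => (Matrix.toLin'_mul x y).symm
  rw [h2, h2, h1]

/-- the weight spaces span -/
private theorem goodD_top (hsemi : ρ.Semi) {γ : Γ} (h : ∀ c, ρ.InC c → ρ.M γ * c = c * ρ.M γ)
    (S : Submodule K (I → K)) (hS : ∀ z κ, WtM ρ K γ z κ ≤ S) : S = ⊤ := by
  classical
  let f : Option {c : Matrix I I F // c ∈ Zm ρ} → Module.End K (I → K) := fun o =>
    match o with
    | none => Matrix.toLin' ((ρ.M γ).map (algebraMap F K))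
    | some c => Matrix.toLin' (c.1.map (algebraMap F K))
  have hc : Pairwise fun i j => Commute (f i) (f j) := by
    intro i j _
    match i, j with
    | none, none => exact Commute.refl _
    | none, some c => exact goodD_comm K (h c.1 c.2.1)
    | some c, none => exact goodD_comm K (h c.1 c.2.1).symm
    | some c, some d => exact goodD_comm K (c.2.2.1 d.1 d.2.1)
  have h1 := Module.End.iSup_iInf_maxGenEigenspace_eq_top_of_iSup_maxGenEigenspace_eq_top_of_commute
    f hc (fun i => Module.End.iSup_maxGenEigenspace_eq_top (f i))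
  rw [eq_top_iff, ← h1]
  refine iSup_le fun χ => ?_
  let κ : Matrix I I F → K := fun c => if hc : c ∈ Zm ρ then χ (some ⟨c, hc⟩) else 0
  refine le_trans ?_ (hS (χ none) κ)
  refine le_inf (iInf_le _ none) (le_iInf fun c => ?_)
  refine (iInf_le _ (some c)).trans ?_
  have h2 : κ c.1 = χ (some c) := by
    simp only [κ, dif_pos c.2]
  rw [h2]
  have h3 := (zm_ss ρ hsemi c.2 K).isFinitelySemisimple.maxGenEigenspace_eq_eigenspace
    (χ (some c))
  exact h3.le

omit [IsUltrametricDist F] [CompleteSpace F] [CharZero F] [IsTopologicalGroup Γ] [CompactSpace Γ]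
  [IsAlgClosed K] in
/-- operators which commute with everything preserve the weight spaces -/
private theorem goodD_stable {γ : Γ} {z : K} {κ : Matrix I I F → K} (f : Module.End K (I → K))
    (h0 : Commute (Matrix.toLin' ((ρ.M γ).map (algebraMap F K))) f)
    (h1 : ∀ c ∈ Zm ρ, Commute (Matrix.toLin' (c.map (algebraMap F K))) f) {y : I → K}
    (hy : y ∈ WtM ρ K γ z κ) : f y ∈ WtM ρ K γ z κ := by
  obtain ⟨hy1, hy2⟩ := Submodule.mem_inf.1 hy
  refine Submodule.mem_inf.2 ⟨Module.End.mapsTo_maxGenEigenspace_of_comm h0 z hy1, ?_⟩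
  rw [Submodule.mem_iInf] at hy2 ⊢
  intro c
  have h2 := hy2 c
  rw [Module.End.mem_eigenspace_iff] at h2 ⊢
  have h3 : Matrix.toLin' (c.1.map (algebraMap F K)) (f y) =
      f (Matrix.toLin' (c.1.map (algebraMap F K)) y) :=
    congrArg (fun g : Module.End K (I → K) => g y) (h1 c.1 c.2)
  rw [h3, h2, map_smul]

omit [IsUltrametricDist F] [CompleteSpace F] [CharZero F] [IsTopologicalGroup Γ] [CompactSpace Γ]
  [IsAlgClosed K] in
/-- on a weight space `g` is the scalar `z` -/
private theorem goodD_scalar {γ : Γ} (h : GoodM ρ K γ) (z : K) (κ : Matrix I I F → K)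
    {y : I → K} (hy : y ∈ WtM ρ K γ z κ) :
    Matrix.toLin' ((ρ.M γ).map (algebraMap F K)) y = z • y := by
  by_cases hW : WtM ρ K γ z κ = ⊥
  · rw [hW, Submodule.mem_bot] at hy
    rw [hy, map_zero, smul_zero]
  set g := Matrix.toLin' ((ρ.M γ).map (algebraMap F K)) with hg
  have hgC : ∀ c ∈ Zm ρ, Commute (Matrix.toLin' (c.map (algebraMap F K))) g := fun c hc =>
    (goodD_comm K (h.1 c hc.1)).symm
  have hiso := h.2 z κ hW
  have hN := hiso.2.1 (WtM ρ K γ z κ ⊓ Module.End.eigenspace g z) inf_le_left (by
    intro c hc v hv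
    obtain ⟨hv1, hv2⟩ := Submodule.mem_inf.1 hv
    refine Submodule.mem_inf.2 ⟨?_, ?_⟩
    · have h3 := goodD_stable ρ K (Matrix.toLin' (c.map (algebraMap F K)))
        (goodD_comm K (h.1 c hc)) (fun d hd => goodD_comm K (hd.2.1 c hc)) hv1
      rwa [Matrix.toLin'_apply] at h3
    · rw [Module.End.mem_eigenspace_iff] at hv2 ⊢
      have h3 : g (Matrix.toLin' (c.map (algebraMap F K)) v) =
          Matrix.toLin' (c.map (algebraMap F K)) (g v) :=
        congrArg (fun f : Module.End K (I → K) => f v) (goodD_comm K (h.1 c hc))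
      rw [← Matrix.toLin'_apply, h3, hv2, map_smul])
  rcases hN with hN | hN
  · exfalso
    -- a nonzero vector of `W` which is killed by `g - z`
    apply hW
    rw [eq_bot_iff]
    intro v hv
    have hst : ∀ w ∈ WtM ρ K γ z κ, (g - algebraMap K (Module.End K (I → K)) z) w ∈
        WtM ρ K γ z κ := by
      intro w hw
      rw [LinearMap.sub_apply, Module.algebraMap_end_apply]
      exact Submodule.sub_mem _ (goodD_stable ρ K g (Commute.refl _) hgC hw)
        (Submodule.smul_mem _ z hw)
    have hpow : ∀ (k : ℕ) (w : I → K), w ∈ WtM ρ K γ z κ →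
        ((g - algebraMap K (Module.End K (I → K)) z) ^ k) w = 0 → w = 0 := by
      intro k
      induction k with
      | zero =>
        intro w _ hw
        rwa [pow_zero] at hw
      | succ k ih =>
        intro w hwW hw
        have h4 : (g - algebraMap K (Module.End K (I → K)) z) w = 0 := by
          refine ih _ (hst w hwW) ?_
          rw [pow_succ, Module.End.mul_apply] at hw
          exact hw
        have h5 : w ∈ WtM ρ K γ z κ ⊓ Module.End.eigenspace g z := by
          refine Submodule.mem_inf.2 ⟨hwW, ?_⟩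
          rw [Module.End.mem_eigenspace_iff]
          rw [LinearMap.sub_apply, Module.algebraMap_end_apply, sub_eq_zero] at h4
          exact h4
        rw [hN, Submodule.mem_bot] at h5
        exact h5
    have hv1 := (Submodule.mem_inf.1 hv).1
    rw [Module.End.mem_maxGenEigenspace] at hv1
    obtain ⟨k, hk⟩ := hv1
    rw [Submodule.mem_bot]
    refine hpow k v hv ?_
    rw [Algebra.algebraMap_eq_smul_one]
    exact hk
  · have h3 : y ∈ WtM ρ K γ z κ ⊓ Module.End.eigenspace g z := by
      rw [hN]
      exact hy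
    exact Module.End.mem_eigenspace_iff.1 (Submodule.mem_inf.1 h3).2

theorem detects_of_goodM (hsemi : ρ.Semi) {γ : Γ} (h : GoodM ρ K γ) : DetectsM ρ K γ := by
  refine ⟨h.1, ?_, ?_⟩
  · set g := Matrix.toLin' ((ρ.M γ).map (algebraMap F K)) with hg
    obtain ⟨n, hn, s, _, hnil, hs, hf⟩ := Module.End.exists_isNilpotent_isSemisimple (f := g)
    suffices h3 : n = 0 by
      rw [hf, h3, zero_add]
      exact hs
    rw [Algebra.adjoin_singleton_eq_range_aeval] at hn
    obtain ⟨q, hq⟩ := hn
    have hq' : Polynomial.aeval g q = n := hq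
    refine LinearMap.ker_eq_top.mp (goodD_top ρ K hsemi h.1 _ fun z κ y hy => ?_)
    rw [LinearMap.mem_ker]
    by_cases hy0 : y = 0
    · rw [hy0, map_zero]
    have h4 : g y = z • y := goodD_scalar ρ K h z κ hy
    have h6 : n y = q.eval z • y := by
      rw [← hq']
      exact Module.End.aeval_apply_of_hasEigenvector (μ := z)
        ⟨Module.End.mem_eigenspace_iff.2 h4, hy0⟩
    obtain ⟨k, hk⟩ := hnil
    have h8 : ∀ m : ℕ, (n ^ m) y = (q.eval z) ^ m • y := by
      intro m
      induction m with
      | zero => simp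
      | succ m ih =>
        rw [pow_succ', Module.End.mul_apply, ih, map_smul, h6, smul_smul, pow_succ]
    have h9 := h8 k
    rw [hk, LinearMap.zero_apply] at h9
    have h10 : q.eval z ^ k = 0 := (smul_eq_zero.mp h9.symm).resolve_right hy0
    have h11 : IsNilpotent (q.eval z) := ⟨k, h10⟩
    rw [h6, h11.eq_zero, zero_smul]
  · intro c _ hc0
    refine (Matrix.toLin' : Matrix I I K ≃ₗ[K] _).injective ?_
    rw [map_zero]
    refine LinearMap.ker_eq_top.mp (goodD_top ρ K hsemi h.1 _ fun z κ y hy => ?_)
    rw [LinearMap.mem_ker, Matrix.toLin'_apply]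
    by_cases hW : WtM ρ K γ z κ = ⊥
    · rw [hW, Submodule.mem_bot] at hy
      rw [hy, Matrix.mulVec_zero]
    · exact hc0 z κ (h.2 z κ hW) y hy

end Pool.Agent.Lib.MP_640417_ag.Gn
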