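import Pool.Agent.Lib.MP_640417_ag.Gn.Dec

/-!
# MP_640417_ag, Gn, module Compl (150 lines): modules over a regular algebra of matrices

`C` is a subalgebra of matrices, for every `c ∈ C` there is `g ∈ C` with `c g c = c`. Then `C` is a semisimple ring: it is artinian
(finite dimensional) and its Jacobson radical is zero. So the module `I → K` over `C` is semisimple and every stable
subspace `E` has a stable complement; the projection `p` commutes with `C`.
-/

set_option autoImplicit false

namespace Pool.Agent.Lib.MP_640417_ag.Gn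

open Matrix

variable {K : Type} [Field K] {I : Type} [Fintype I] [DecidableEq I]

/-- `b` commutes with `C`. -/
def Cm (C : Subalgebra K (Matrix I I K)) (b : Matrix I I K) : Prop := ∀ c ∈ C, b * c = c * b

/-- `C` is regular. -/
def Rg (C : Subalgebra K (Matrix I I K)) : Prop := ∀ c ∈ C, ∃ g ∈ C, c * g * c = c

private theorem Compl_jac {R : Type} [Ring R] (h : ∀ c : R, ∃ g : R, c * g * c = c) :
    Ring.jacobson R = ⊥ := by
  rw [eq_bot_iff]
  intro c hc
  obtain ⟨g, hg⟩ := h c
  have h1 : c * g ∈ Ring.jacobson R := Ideal.mul_mem_right g _ hc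
  rw [← Ideal.jacobson_bot, Ideal.mem_jacobson_iff] at h1
  obtain ⟨z, hz⟩ := h1 (-1)
  rw [Submodule.mem_bot] at hz
  have h2 : z * (1 - c * g) = 1 := by
    rw [← sub_eq_zero, ← hz]
    noncomm_ring
  have h3 : (1 - c * g) * c = 0 := by rw [sub_mul, one_mul, hg, sub_self]
  have h4 : c = 0 := by
    calc c = z * (1 - c * g) * c := by rw [h2, one_mul]
      _ = 0 := by rw [mul_assoc, h3, mul_zero]
  rw [h4]
  exact zero_mem _

private theorem Compl_end {V : Type} [AddCommGroup V] [Module K V] [FiniteDimensional K V]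
    (C : Subalgebra K (Module.End K V)) (hC : ∀ c ∈ C, ∃ g ∈ C, c * g * c = c)
    (E : Submodule K V) (hE : ∀ c ∈ C, ∀ v ∈ E, c v ∈ E) :
    ∃ p : Module.End K V, (∀ c ∈ C, p * c = c * p) ∧ (∀ v, p v ∈ E) ∧ ∀ v ∈ E, p v = v := by
  have hfin : Module.Finite K C := inferInstance
  have hart : IsArtinianRing C := IsArtinianRing.of_finite K C
  have hss : IsSemisimpleRing C := by
    rw [IsArtinianRing.isSemisimpleRing_iff_jacobson]
    apply Compl_jac
    rintro ⟨c, hc⟩
    obtain ⟨g, hg, h⟩ := hC c hc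
    exact ⟨⟨g, hg⟩, Subtype.ext h⟩
  have hsm : ∀ (c : C) (v : V), c • v = (c : Module.End K V) v := fun _ _ => rfl
  let E' : Submodule C V :=
    { carrier := E
      add_mem' := E.add_mem
      zero_mem' := E.zero_mem
      smul_mem' := fun c v hv => hE c c.2 v hv }
  obtain ⟨F, hF⟩ := exists_isCompl E'
  let p₀ : V →ₗ[C] V := Submodule.projection E' F hF
  let p : Module.End K V :=
    { toFun := p₀
      map_add' := map_add p₀
      map_smul' := by
        intro k v
        have h1 : ∀ w : V, k • w = (algebraMap K C k) • w := fun w => rfl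
        rw [RingHom.id_apply, h1, h1, map_smul] }
  refine ⟨p, ?_, ?_, ?_⟩
  · intro c hc
    refine LinearMap.ext fun v => ?_
    exact map_smul p₀ (⟨c, hc⟩ : C) v
  · intro v
    exact Submodule.projection_apply_mem hF v
  · intro v hv
    exact Submodule.projection_apply_of_mem_left hF (x := v) hv

theorem exists_compl (C : Subalgebra K (Matrix I I K)) (hC : Rg C) (E : Submodule K (I → K))
    (hE : ∀ c ∈ C, ∀ v ∈ E, c *ᵥ v ∈ E) :
    ∃ p : Matrix I I K, Cm C p ∧ (∀ v, p *ᵥ v ∈ E) ∧ ∀ v ∈ E, p *ᵥ v = v := by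
  let φ : Matrix I I K ≃ₐ[K] Module.End K (I → K) := Matrix.toLinAlgEquiv'
  have hφ : ∀ (A : Matrix I I K) (v : I → K), φ A v = A *ᵥ v := fun A v =>
    Matrix.toLinAlgEquiv'_apply A v
  obtain ⟨p, hp1, hp2, hp3⟩ := Compl_end (C.map (φ : Matrix I I K →ₐ[K] Module.End K (I → K)))
    (by
      rintro _ ⟨c, hc, rfl⟩
      obtain ⟨g, hg, h⟩ := hC c hc
      refine ⟨φ g, ⟨g, hg, rfl⟩, ?_⟩
      change φ c * φ g * φ c = φ c
      rw [← map_mul, ← map_mul, h]) E
    (by
      rintro _ ⟨c, hc, rfl⟩ v hv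
      exact hE c hc v hv)
  refine ⟨φ.symm p, ?_, ?_, ?_⟩
  · intro c hc
    apply φ.injective
    rw [map_mul, map_mul, AlgEquiv.apply_symm_apply]
    exact hp1 _ ⟨c, hc, rfl⟩
  · intro v
    rw [← hφ, AlgEquiv.apply_symm_apply]
    exact hp2 v
  · intro v hv
    rw [← hφ, AlgEquiv.apply_symm_apply]
    exact hp3 v hv

end Pool.Agent.Lib.MP_640417_ag.Gn
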