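import Pool.Agent.Lib.MP_640417_ag.Gn.Q4
import Pool.Agent.Lib.MP_640417_ag.Gn.Dec
import Pool.Agent.Lib.MP_640417_ag.Gn.Compl

/-!
# MP_640417_ag, Gn, module GapA (200 lines): the generic element for a weight decomposition

`NN c X` = the generalized kernel of `d4 X` on the kernel of `d4 c`; `GG c g μ N` the same for `k4 (g^N) - μ^(2N)`. `x` are integers as
in `exists_num` (`Gn/Num.lean`), `X0 = ∑ a, (10 x a) • ε a`.
* `X0_skew`: `adj J` is linear; `D.star`, `adj_skew`, and `x (st a) = - x a` (reindex the sum with the involution `st`).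
* `X0_cm`: `D.comm`. `X0_eig`: `D.orth`, `D.idem`.
* `gap_le`: `NN c X0 ≤ GG`: `t = ∑ q4 (ε a) (ε b) (ε u) (ε v) t` (`q4_sum`, `D.sum`, `q4_one`). The summands are in `NN c X0` too
  (the projections commute with `d4 X0` and `d4 c`: `q4_comm_of`; `c ε = ε c` from `D.comm`), and `d4 X0` is the scalar
  `10 (x a + x b + x u + x v)` on the summand (`d4_mul_q4`), so if the summand is not zero the sum of the four integers is
  zero, so the weights cancel in pairs (`hx`), so `z a z b z u z v = μ^2` (`D.zdual`), and `q4_nil` for `g^N` (`nil_pow`) shows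
  that the summand is a generalized eigenvector of `k4 (g^N)` for `μ^(2N)`.
* `gap_eq`: `r ≤ dim NN c X0 ≤ dim GG ≤ r`; `Submodule.eq_of_le_of_finrank_le` or similar.
-/

set_option autoImplicit false

namespace Pool.Agent.Lib.MP_640417_ag.Gn

open Matrix Pool.Agent.Lib.MP_640417_ag.Glob

variable {K : Type} [Field K] {I : Type} [Fintype I] [DecidableEq I]

/-- the generalized kernel of `d4 X` on the kernel of `d4 c` -/
noncomputable def NN (c X : Matrix I I K) : Submodule K (I × I × I × I → K) :=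
  Module.End.maxGenEigenspace (Matrix.toLin' (d4 X)) 0 ⊓ LinearMap.ker (Matrix.toLin' (d4 c))

/-- the generalized eigenspace of `k4 (g ^ N)` for `μ ^ (2 N)` on the kernel of `d4 c` -/
noncomputable def GG (c g : Matrix I I K) (μ : K) (N : ℕ) : Submodule K (I × I × I × I → K) :=
  Module.End.maxGenEigenspace (Matrix.toLin' (k4 (g ^ N))) (μ ^ (2 * N)) ⊓
    LinearMap.ker (Matrix.toLin' (d4 c))

/-- the integers of `exists_num` -/
def GoodNum {n : ℕ} (st : Fin n → Fin n) (x : Fin n → ℤ) : Prop :=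
  (∀ a, x (st a) = -x a) ∧
    ∀ a b u v, x a + x b + x u + x v = 0 → (b = st a ∧ v = st u) ∨ (u = st a ∧ v = st b) ∨
      (v = st a ∧ u = st b)

/-- the generic element -/
noncomputable def X0 {J g c : Matrix I I K} {μ : K} (D : WDec J g c μ) (x : Fin D.n → ℤ) :
    Matrix I I K := ∑ a, (10 * (x a : K)) • D.ε a

theorem X0_skew {J g c : Matrix I I K} {μ : K} (hJ : J.det ≠ 0) (D : WDec J g c μ)
    {x : Fin D.n → ℤ} (hx : GoodNum D.st x) : (X0 D x)ᵀ * J + J * X0 D x = 0 := by
  rw [adj_skew hJ]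
  have h1 : adj J (X0 D x) = ∑ a, (10 * (x a : K)) • D.ε (D.st a) := by
    unfold adj X0
    rw [Matrix.transpose_sum, Finset.mul_sum, Finset.sum_mul]
    refine Finset.sum_congr rfl (fun a _ => ?_)
    rw [Matrix.transpose_smul, mul_smul_comm, smul_mul_assoc, ← D.star a]
    rfl
  let e : Equiv.Perm (Fin D.n) := ⟨D.st, D.st, D.st_st, D.st_st⟩
  have h2 : ∑ a, (10 * (x a : K)) • D.ε (D.st a) =
      ∑ a, (10 * (x (D.st a) : K)) • D.ε (D.st (D.st a)) :=
    (Equiv.sum_comp e (fun a => (10 * (x a : K)) • D.ε (D.st a))).symm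
  rw [h1, h2, X0, ← Finset.sum_neg_distrib]
  refine Finset.sum_congr rfl (fun a _ => ?_)
  rw [D.st_st, hx.1, Int.cast_neg, mul_neg, neg_smul]

theorem X0_cm {J g c : Matrix I I K} {μ : K} (D : WDec J g c μ) (x : Fin D.n → ℤ)
    (C : Subalgebra K (Matrix I I K)) (hg : Cm C g) (hc : Cm C c) : Cm C (X0 D x) := by
  intro b hb
  rw [X0, Finset.sum_mul, Finset.mul_sum]
  refine Finset.sum_congr rfl (fun a _ => ?_)
  rw [smul_mul_assoc, mul_smul_comm, D.comm a b (hg b hb).symm (hc b hb).symm]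

theorem X0_eig {J g c : Matrix I I K} {μ : K} (D : WDec J g c μ) (x : Fin D.n → ℤ)
    (a : Fin D.n) : X0 D x * D.ε a = (10 * (x a : K)) • D.ε a ∧
      D.ε a * X0 D x = (10 * (x a : K)) • D.ε a := by
  constructor
  · rw [X0, Finset.sum_mul, Finset.sum_eq_single a]
    · rw [smul_mul_assoc, D.idem]
    · intro b _ hb
      rw [smul_mul_assoc, D.orth b a hb, smul_zero]
    · intro ha
      exact absurd (Finset.mem_univ a) ha
  · rw [X0, Finset.mul_sum, Finset.sum_eq_single a]
    · rw [mul_smul_comm, D.idem]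
    · intro b _ hb
      rw [mul_smul_comm, D.orth a b (Ne.symm hb), smul_zero]
    · intro ha
      exact absurd (Finset.mem_univ a) ha

/-- Membership in a generalized eigenspace, with matrices. -/
theorem gapA_mem {κ : Type} [Fintype κ] [DecidableEq κ] (A : Matrix κ κ K) (l : K) (t : κ → K) :
    t ∈ Module.End.maxGenEigenspace (Matrix.toLin' A) l ↔
      ∃ k : ℕ, ((A - l • 1) ^ k) *ᵥ t = 0 := by
  rw [Module.End.mem_maxGenEigenspace]
  have h1 : ∀ k : ℕ, ((Matrix.toLin' A - l • (1 : Module.End K (κ → K))) ^ k) t =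
      ((A - l • 1) ^ k) *ᵥ t := by
    intro k
    rw [← Matrix.toLin'_apply, Matrix.toLin'_pow, map_sub, map_smul, Matrix.toLin'_one]
    rfl
  simp only [h1]

variable [CharZero K]

theorem gap_le {J g c : Matrix I I K} {μ : K} (D : WDec J g c μ) (hcg : c * g = g * c)
    {x : Fin D.n → ℤ} (hx : GoodNum D.st x) (N : ℕ) : NN c (X0 D x) ≤ GG c g μ N := by
  rintro t ⟨ht1, ht2⟩
  refine ⟨?_, ht2⟩
  rw [SetLike.mem_coe, gapA_mem] at ht1
  obtain ⟨k, hk⟩ := ht1
  rw [zero_smul, sub_zero] at hk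
  -- decompose
  have hdec : t = ∑ y : Fin D.n × Fin D.n × Fin D.n × Fin D.n,
      (q4 (D.ε y.1) (D.ε y.2.1) (D.ε y.2.2.1) (D.ε y.2.2.2)) *ᵥ t := by
    rw [← Matrix.sum_mulVec, ← q4_sum, D.sum, q4_one, Matrix.one_mulVec]
  rw [SetLike.mem_coe, hdec]
  refine Submodule.sum_mem _ (fun y _ => ?_)
  obtain ⟨a, b, u, v⟩ := y
  change (q4 (D.ε a) (D.ε b) (D.ε u) (D.ε v)) *ᵥ t ∈ _
  -- the four projections
  have hcomm : d4 (X0 D x) * q4 (D.ε a) (D.ε b) (D.ε u) (D.ε v) =
      q4 (D.ε a) (D.ε b) (D.ε u) (D.ε v) * d4 (X0 D x) := by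
    refine q4_comm_of (X0 D x) ![D.ε a, D.ε b, D.ε u, D.ε v] (fun i => ?_)
    fin_cases i
    · exact (X0_eig D x a).1.trans (X0_eig D x a).2.symm
    · exact (X0_eig D x b).1.trans (X0_eig D x b).2.symm
    · exact (X0_eig D x u).1.trans (X0_eig D x u).2.symm
    · exact (X0_eig D x v).1.trans (X0_eig D x v).2.symm
  have heig : d4 (X0 D x) * q4 (D.ε a) (D.ε b) (D.ε u) (D.ε v) =
      (10 * (x a : K) + 10 * (x b : K) + 10 * (x u : K) + 10 * (x v : K)) •
        q4 (D.ε a) (D.ε b) (D.ε u) (D.ε v) := by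
    refine d4_mul_q4 (X0 D x) ![D.ε a, D.ε b, D.ε u, D.ε v]
      ![10 * (x a : K), 10 * (x b : K), 10 * (x u : K), 10 * (x v : K)] (fun i => ?_)
    fin_cases i
    · exact (X0_eig D x a).1
    · exact (X0_eig D x b).1
    · exact (X0_eig D x u).1
    · exact (X0_eig D x v).1
  have hpow : ∀ j : ℕ, d4 (X0 D x) ^ j * q4 (D.ε a) (D.ε b) (D.ε u) (D.ε v) =
      ((10 * (x a : K) + 10 * (x b : K) + 10 * (x u : K) + 10 * (x v : K)) ^ j) •
        q4 (D.ε a) (D.ε b) (D.ε u) (D.ε v) := by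
    intro j
    induction j with
    | zero => rw [pow_zero, pow_zero, one_mul, one_smul]
    | succ j ih => rw [pow_succ, mul_assoc, heig, mul_smul_comm, ih, smul_smul, pow_succ, mul_comm]
  have hzero : ((10 * (x a : K) + 10 * (x b : K) + 10 * (x u : K) + 10 * (x v : K)) ^ k) •
      (q4 (D.ε a) (D.ε b) (D.ε u) (D.ε v) *ᵥ t) = 0 := by
    have h1 : d4 (X0 D x) ^ k * q4 (D.ε a) (D.ε b) (D.ε u) (D.ε v) =
        q4 (D.ε a) (D.ε b) (D.ε u) (D.ε v) * d4 (X0 D x) ^ k :=
      ((show Commute (d4 (X0 D x)) _ from hcomm).pow_left k).eq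
    rw [← Matrix.smul_mulVec, ← hpow, h1, ← Matrix.mulVec_mulVec, hk, Matrix.mulVec_zero]
  rcases smul_eq_zero.mp hzero with h | h
  · have h1 : (10 * (x a : K) + 10 * (x b : K) + 10 * (x u : K) + 10 * (x v : K)) = 0 :=
      eq_zero_of_pow_eq_zero h
    have h2 : ((10 * (x a + x b + x u + x v) : ℤ) : K) = 0 := by
      push_cast
      linear_combination h1
    have h3 : x a + x b + x u + x v = 0 := by
      have h4 : (10 * (x a + x b + x u + x v) : ℤ) = 0 := by exact_mod_cast h2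
      omega
    have h5 : D.z a * D.z b * D.z u * D.z v = μ ^ 2 := by
      rcases hx.2 a b u v h3 with ⟨h6, h7⟩ | ⟨h6, h7⟩ | ⟨h6, h7⟩
      · have h8 := D.zdual a
        have h9 := D.zdual u
        rw [h6, h7]
        linear_combination (D.z u * D.z (D.st u)) * h8 + μ * h9
      · have h8 := D.zdual a
        have h9 := D.zdual b
        rw [h6, h7]
        linear_combination (D.z b * D.z (D.st b)) * h8 + μ * h9
      · have h8 := D.zdual a
        have h9 := D.zdual b
        rw [h6, h7]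
        linear_combination (D.z b * D.z (D.st b)) * h8 + μ * h9
    have hgε : ∀ a, g * D.ε a = D.ε a * g := fun a => D.comm a g rfl hcg.symm
    obtain ⟨m, hm⟩ := q4_nil (g ^ N) ![D.z a ^ N, D.z b ^ N, D.z u ^ N, D.z v ^ N]
      ![D.ε a, D.ε b, D.ε u, D.ε v] (fun i => by
        fin_cases i
        · exact D.idem a
        · exact D.idem b
        · exact D.idem u
        · exact D.idem v) (fun i => by
        have hp : ∀ a, g ^ N * D.ε a = D.ε a * g ^ N := fun a =>
          ((show Commute g (D.ε a) from hgε a).pow_left N).eq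
        fin_cases i
        · exact hp a
        · exact hp b
        · exact hp u
        · exact hp v) (fun i => by
        have hp : ∀ a, IsNilpotent ((g ^ N - (D.z a ^ N) • 1) * D.ε a) := fun a =>
          nil_pow (D.idem a) (hgε a) (D.nil a) N
        fin_cases i
        · exact hp a
        · exact hp b
        · exact hp u
        · exact hp v)
    rw [gapA_mem]
    refine ⟨m, ?_⟩
    have h6 : μ ^ (2 * N) = D.z a ^ N * D.z b ^ N * D.z u ^ N * D.z v ^ N := by
      rw [pow_mul, ← h5, mul_pow, mul_pow, mul_pow]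
    rw [h6, Matrix.mulVec_mulVec]
    have h7 : (k4 (g ^ N) - (D.z a ^ N * D.z b ^ N * D.z u ^ N * D.z v ^ N) • 1) ^ m *
      q4 (D.ε a) (D.ε b) (D.ε u) (D.ε v) = 0 := hm
    rw [h7, Matrix.zero_mulVec]
  · rw [h]
    exact Submodule.zero_mem _

theorem gap_eq {J g c : Matrix I I K} {μ : K} (hJ : J.det ≠ 0)
    (D : WDec J g c μ) (C : Subalgebra K (Matrix I I K)) (hg : Cm C g) (hc : Cm C c)
    (hcg : c * g = g * c) (r : ℕ)
    (hr : ∀ X, Xᵀ * J + J * X = 0 → Cm C X → r ≤ Module.finrank K (NN c X)) (N : ℕ)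
    (hG : Module.finrank K (GG c g μ N) ≤ r) {x : Fin D.n → ℤ} (hx : GoodNum D.st x) :
    NN c (X0 D x) = GG c g μ N := by
  refine Submodule.eq_of_le_of_finrank_le (gap_le D hcg hx N) ?_
  exact hG.trans (hr _ (X0_skew hJ D hx) (X0_cm D x C hg hc))

end Pool.Agent.Lib.MP_640417_ag.Gn
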