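import Pool.Agent.Lib.MP_640417_ag.Gn.CC
import Pool.Agent.Lib.MP_640417_ag.Gn.KBas
import Pool.Agent.Lib.MP_640417_ag.Gn.GapA
import Pool.Agent.Lib.MP_640417_ag.Ty.GenT
import Pool.Agent.Lib.MP_640417_ag.Ty.SpanK

/-!
# MP_640417_ag, Gn, module Low (250 lines): the minimal dimension

`c` is as in `exists_cc`, `kb` a basis of the kernel of `d4 c`, `k0` a basis of the kernel of `c`. `Hp = Hh ⊔ Zm`. Hypothesis `hL`: skew
matrices which commute with the commutant are in `Hp`. Let `r` be the smallest number such that the coefficient of degree `r` of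
the characteristic polynomial of `π (d4 X) ι` is not zero for some `X ∈ Hh` (it exists: the polynomial is monic).
* For `X` in the `K`-span of `Hh` the coefficients of degree `< r` vanish: `X = ∑ c_k B_k`, the coefficient is a polynomial in the `c_k`
  (over `F`) which vanishes for all `c_k ∈ F`, so it is zero (`F` infinite: `MvPolynomial.funext`, compare `Ty/GenT.lean`,
  `Glob/GenZ.lean`).
* `low_r`: let `X` over `K` be skew and commute with all `b.map`, `b` in the commutant. These are linear equations over `F`, so `X` is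
  a `K`-combination of solutions over `F` (`span_of_eq` in `Glob/GenD.lean`), so by `hL` `X = X' + Z`, `X'` in the `K`-span of `Hh`,
  `Z` in the `K`-span of `Zm`. `X'` commutes with `c` (`Hh_comm_C`). `d4 Z = 0` on the kernel of `d4 c` (`hcc`), so
  `(d4 X)^m t = (d4 X')^m t` for `t` in the kernel of `d4 c` (which is stable under `d4 X'`), and `NN c X = NN c X'`;
  `le_nul` for `kb.map K` gives `r ≤ dim NN c X'`.
* `low_det`: there is `X ∈ Hh` with `det (π0 X ι0) ≠ 0`: let `X1` be the invertible skew matrix commuting with the commutant,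
  `X1 = X + Z`, `Z ι0 = 0` (`Z = R c`). `X1 ι0 = ι0 (π0 X1 ι0)` (`kb_comm`), `X1` is invertible, `ι0` injective, so `π0 X1 ι0` is
  injective.
-/

set_option autoImplicit false

namespace Pool.Agent.Lib.MP_640417_ag.Gn

open Matrix Pool.Agent.Lib.MP_640417_ag.Glob Pool.Agent.Lib.MP_640417_ag.Ctl
  Pool.Agent.Lib.MP_640417_ag.Ty

section aux

variable {F : Type} [Field F] {K : Type} [Field K] [Algebra F K] {I : Type} [Fintype I]
  [DecidableEq I]

omit [DecidableEq I] in
private theorem mulMap {S S' : Type} [CommRing S] [CommRing S'] (φ : S →+* S') {P Q T : Type}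
    [Fintype Q] (M : Matrix P Q S) (N : Matrix Q T S) : (M * N).map φ = M.map φ * N.map φ := by
  ext i j
  simp only [Matrix.map_apply, Matrix.mul_apply, map_sum, map_mul]

private theorem d4_map' {S S' : Type} [CommRing S] [CommRing S'] (φ : S →+* S')
    (g : Matrix I I S) : (d4 g).map φ = d4 (g.map φ) := by
  have h1 : ∀ x y : I, φ ((1 : Matrix I I S) x y) = (1 : Matrix I I S') x y := by
    intro x y
    by_cases h : x = y
    · subst h
      rw [Matrix.one_apply_eq, Matrix.one_apply_eq, map_one]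
    · rw [Matrix.one_apply_ne h, Matrix.one_apply_ne h, map_zero]
  ext x y
  rw [Matrix.map_apply, d4_q4, d4_q4]
  simp only [Matrix.add_apply, q4, Matrix.of_apply, map_add, map_mul, Matrix.map_apply, h1]

/-- the generic combination -/
private noncomputable def gY (K : Type) [Field K] [Algebra F K] {n : ℕ} (B : Fin n → Matrix I I F) :
    Matrix I I (MvPolynomial (Fin n) K) :=
  Matrix.of fun p q => ∑ k, MvPolynomial.X k * MvPolynomial.C (algebraMap F K (B k p q))

omit [Fintype I] [DecidableEq I] in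
private theorem gY_map {n : ℕ} (B : Fin n → Matrix I I F) (v : Fin n → K) :
    (gY K B).map (MvPolynomial.eval v) = ∑ k, v k • (B k).map (algebraMap F K) := by
  ext p q
  simp only [gY, Matrix.map_apply, Matrix.of_apply, Matrix.sum_apply, Matrix.smul_apply,
    smul_eq_mul, map_sum, map_mul, MvPolynomial.eval_X, MvPolynomial.eval_C]

omit [Fintype I] [DecidableEq I] in
private theorem sum_map {n : ℕ} (B : Fin n → Matrix I I F) (v : Fin n → F) :
    (∑ k, v k • B k).map (algebraMap F K) =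
      ∑ k, algebraMap F K (v k) • (B k).map (algebraMap F K) := by
  ext p q
  simp only [Matrix.map_apply, Matrix.sum_apply, Matrix.smul_apply, smul_eq_mul, map_sum, map_mul]

/-- coefficients of the characteristic polynomial of the restriction -/
private noncomputable def cf {n : ℕ} (π : Matrix (Fin n) (I × I × I × I) F)
    (ι : Matrix (I × I × I × I) (Fin n) F) (j : ℕ) (X : Matrix I I F) : F :=
  (π * d4 X * ι).charpoly.coeff j

private theorem cf_map {S S' : Type} [Field S] [CommRing S'] {n : ℕ} (φ : S →+* S')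
    (π : Matrix (Fin n) (I × I × I × I) S) (ι : Matrix (I × I × I × I) (Fin n) S) (j : ℕ)
    (X : Matrix I I S) :
    φ ((π * d4 X * ι).charpoly.coeff j) =
      (π.map φ * d4 (X.map φ) * ι.map φ).charpoly.coeff j := by
  rw [← d4_map', ← mulMap, ← mulMap, Matrix.charpoly_map, Polynomial.coeff_map]

private theorem cf_eval {n m : ℕ} (π : Matrix (Fin m) (I × I × I × I) K)
    (ι : Matrix (I × I × I × I) (Fin m) K) (j : ℕ) (Y : Matrix I I (MvPolynomial (Fin n) K))
    (v : Fin n → K) :
    MvPolynomial.eval v ((π.map (MvPolynomial.C : K →+* MvPolynomial (Fin n) K) * d4 Y *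
      ι.map (MvPolynomial.C : K →+* MvPolynomial (Fin n) K)).charpoly.coeff j) =
      (π * d4 (Y.map (MvPolynomial.eval v)) * ι).charpoly.coeff j := by
  have hc : ∀ {P Q : Type} (M : Matrix P Q K),
      (M.map (MvPolynomial.C : K →+* MvPolynomial (Fin n) K)).map (MvPolynomial.eval v) = M := by
    intro P Q M
    ext i j
    rw [Matrix.map_apply, Matrix.map_apply, MvPolynomial.eval_C]
  rw [← Polynomial.coeff_map, ← Matrix.charpoly_map, mulMap, mulMap, hc, hc, d4_map']

/-- coefficients which vanish on a subspace vanish on its span over the extension -/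
private theorem cf_span [CharZero K] {m : ℕ} (π : Matrix (Fin m) (I × I × I × I) F)
    (ι : Matrix (I × I × I × I) (Fin m) F) (j : ℕ) (L : Submodule F (Matrix I I F))
    (h : ∀ X ∈ L, (π * d4 X * ι).charpoly.coeff j = 0) (X : Matrix I I K)
    (hX : X ∈ Submodule.span K {Y : Matrix I I K | ∃ B ∈ L, Y = B.map (algebraMap F K)}) :
    (π.map (algebraMap F K) * d4 X * ι.map (algebraMap F K)).charpoly.coeff j = 0 := by
  classical
  obtain ⟨n, c, g, hg⟩ := Submodule.mem_span_set'.1 hX
  choose B hB hB' using fun i => (g i).2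
  have hY : (gY K B).map (MvPolynomial.eval c) = X := by
    rw [gY_map, ← hg]
    exact Finset.sum_congr rfl fun k _ => by rw [hB' k]
  by_contra hne
  rw [← hY, ← cf_eval] at hne
  have hne0 : (((π.map (algebraMap F K)).map (MvPolynomial.C : K →+* MvPolynomial (Fin n) K) *
      d4 (gY K B) * (ι.map (algebraMap F K)).map
        (MvPolynomial.C : K →+* MvPolynomial (Fin n) K)).charpoly.coeff j) ≠ 0 := by
    intro h0
    rw [h0, map_zero] at hne
    exact hne rfl
  obtain ⟨t, ht⟩ := exists_nat _ hne0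
  rw [cf_eval, gY_map] at ht
  have h3 := sum_map (K := K) B (fun i => (t i : F))
  simp only [map_natCast] at h3
  rw [← h3, ← cf_map, h _ (Submodule.sum_mem _ fun k _ => Submodule.smul_mem _ _ (hB k)),
    map_zero] at ht
  exact ht rfl

private theorem eq1 {S : Type} [CommRing S] (J X : Matrix I I S) (i j : I) :
    ∑ p, ∑ q, ((if q = i then J p j else 0) + (if q = j then J i p else 0)) * X p q =
      (Xᵀ * J + J * X) i j := by
  rw [Matrix.add_apply, Matrix.mul_apply, Matrix.mul_apply, ← Finset.sum_add_distrib]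
  refine Finset.sum_congr rfl fun p _ => ?_
  simp only [add_mul, Finset.sum_add_distrib, ite_mul, zero_mul, Finset.sum_ite_eq',
    Finset.mem_univ, if_true, Matrix.transpose_apply]
  ring

private theorem eq2 {S : Type} [CommRing S] (b X : Matrix I I S) (i j : I) :
    ∑ p, ∑ q, ((if p = i then b q j else 0) - (if q = j then b i p else 0)) * X p q =
      (X * b - b * X) i j := by
  rw [Matrix.sub_apply, Matrix.mul_apply, Matrix.mul_apply]
  have h1 : ∀ p, ∑ q, ((if p = i then b q j else 0) - (if q = j then b i p else 0)) * X p q =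
      (if p = i then ∑ q, b q j * X p q else 0) - b i p * X p j := by
    intro p
    simp only [sub_mul, Finset.sum_sub_distrib, ite_mul, zero_mul, Finset.sum_ite_eq',
      Finset.mem_univ, if_true]
    congr 1
    split_ifs
    · rfl
    · simp
  simp only [h1, Finset.sum_sub_distrib, Finset.sum_ite_eq', Finset.mem_univ, if_true]
  congr 1
  refine Finset.sum_congr rfl fun q _ => ?_
  ring

/-- skew elements over the extension which commute with `C` -/
private theorem skew_span [CharZero F] (J : Matrix I I F) (C : Set (Matrix I I F)) (X0 : Matrix I I K)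
    (hs : X0ᵀ * J.map (algebraMap F K) + J.map (algebraMap F K) * X0 = 0)
    (hC : ∀ b ∈ C, X0 * b.map (algebraMap F K) = b.map (algebraMap F K) * X0) :
    X0 ∈ Submodule.span K {Y : Matrix I I K | ∃ X : Matrix I I F, (Xᵀ * J + J * X = 0 ∧
      ∀ b ∈ C, X * b = b * X) ∧ Y = X.map (algebraMap F K)} := by
  classical
  let E : Set (Matrix I I F) :=
    {a | ∃ i j, a = Matrix.of fun p q => (if q = i then J p j else 0) + (if q = j then J i p else 0)} ∪
    {a | ∃ b ∈ C, ∃ i j, a = Matrix.of fun p q =>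
      (if p = i then b q j else 0) - (if q = j then b i p else 0)}
  have hE : ∀ a ∈ E, ∑ i, ∑ j, algebraMap F K (a i j) * X0 i j = 0 := by
    rintro a (⟨i, j, rfl⟩ | ⟨b, hb, i, j, rfl⟩)
    · have h3 := eq1 (J.map (algebraMap F K)) X0 i j
      rw [hs, Matrix.zero_apply] at h3
      rw [← h3]
      refine Finset.sum_congr rfl fun p _ => Finset.sum_congr rfl fun q _ => ?_
      simp only [Matrix.of_apply, map_add, Matrix.map_apply]
      congr 2 <;> split_ifs <;> simp
    · have h3 := eq2 (b.map (algebraMap F K)) X0 i j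
      rw [hC b hb, sub_self, Matrix.zero_apply] at h3
      rw [← h3]
      refine Finset.sum_congr rfl fun p _ => Finset.sum_congr rfl fun q _ => ?_
      simp only [Matrix.of_apply, map_sub, Matrix.map_apply]
      congr 2 <;> split_ifs <;> simp
  refine Submodule.span_mono ?_ (span_of_eq E X0 hE)
  rintro Y ⟨B, hB, rfl⟩
  refine ⟨B, ⟨?_, fun b hb => ?_⟩, rfl⟩
  · ext i j
    rw [← eq1, Matrix.zero_apply]
    exact hB _ (Or.inl ⟨i, j, rfl⟩)
  · rw [← sub_eq_zero]
    ext i j
    rw [← eq2, Matrix.zero_apply]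
    exact hB _ (Or.inr ⟨b, hb, i, j, rfl⟩)

/-- the generalized kernels agree -/
private theorem NN_eq {c X Z : Matrix I I K} {R' : Matrix (I × I × I × I) (I × I × I × I) K}
    (hXc : c * X = X * c) (hZ : d4 Z = R' * d4 c) : NN c (X + Z) = NN c X := by
  have hst : ∀ (m : ℕ) (v : I × I × I × I → K), d4 c *ᵥ v = 0 →
      (d4 (X + Z)) ^ m *ᵥ v = (d4 X) ^ m *ᵥ v ∧ d4 c *ᵥ ((d4 X) ^ m *ᵥ v) = 0 := by
    intro m
    induction m with
    | zero =>
      intro v hv
      rw [pow_zero, pow_zero, Matrix.one_mulVec]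
      exact ⟨rfl, hv⟩
    | succ m ih =>
      intro v hv
      obtain ⟨h1, h2⟩ := ih v hv
      have h3 : d4 Z *ᵥ ((d4 X) ^ m *ᵥ v) = 0 := by
        rw [hZ, ← Matrix.mulVec_mulVec, h2, Matrix.mulVec_zero]
      constructor
      · rw [pow_succ', ← Matrix.mulVec_mulVec, h1, d4_add, Matrix.add_mulVec, h3, add_zero,
          pow_succ', Matrix.mulVec_mulVec]
      · rw [pow_succ', ← Matrix.mulVec_mulVec, Matrix.mulVec_mulVec, d4_comm hXc,
          ← Matrix.mulVec_mulVec, h2, Matrix.mulVec_zero]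
  have hpow : ∀ (A : Matrix (I × I × I × I) (I × I × I × I) K) (m : ℕ)
      (v : I × I × I × I → K), ((Matrix.toLin' A - (0 : K) •
        (1 : Module.End K (I × I × I × I → K)) : Module.End K (I × I × I × I → K)) ^ m) v =
        A ^ m *ᵥ v := by
    intro A m v
    rw [zero_smul, sub_zero, ← Matrix.toLin'_pow, Matrix.toLin'_apply]
  ext v
  simp only [NN, Submodule.mem_inf, LinearMap.mem_ker, Module.End.mem_maxGenEigenspace, hpow,
    Matrix.toLin'_apply]
  constructor
  · rintro ⟨⟨k, hk⟩, hv⟩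
    exact ⟨⟨k, by rw [← (hst k v hv).1]; exact hk⟩, hv⟩
  · rintro ⟨⟨k, hk⟩, hv⟩
    exact ⟨⟨k, by rw [(hst k v hv).1]; exact hk⟩, hv⟩

end aux

variable {F : Type} [NontriviallyNormedField F] {I : Type} [Fintype I] [DecidableEq I]
  {Γ : Type} [Group Γ] [TopologicalSpace Γ]
  [IsUltrametricDist F] [CompleteSpace F] [CharZero F] [IsTopologicalGroup Γ]
  [CompactSpace Γ] (ρ : MRep Γ F I)

theorem low_r (l : ℕ) (hl : ‖(l : F)‖ < 1) (hl0 : (l : F) ≠ 0) (hsemi : ρ.Semi)
    (hL : ∀ X ∈ spJ ρ.J, (∀ b, ρ.InC b → X * b = b * X) → X ∈ Hp ρ l)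
    {c : Matrix I I F} (hc : c ∈ Zm ρ) (hcc : ∀ z ∈ Zm ρ, ∃ R, d4 z = R * d4 c) (kb : KB (d4 c))
    (K : Type) [Field K] [Algebra F K] :
    ∃ r, (∃ X ∈ ρ.Hh l, (kb.π * d4 X * kb.ι).charpoly.coeff r ≠ 0) ∧
      ∀ X : Matrix I I K, Xᵀ * ρ.J.map (algebraMap F K) + ρ.J.map (algebraMap F K) * X = 0 →
        (∀ b, InCK ρ K b → X * b = b * X) →
          r ≤ Module.finrank K (NN (c.map (algebraMap F K)) X) := by
  classical
  have hK : CharZero K := charZero_of_injective_algebraMap (algebraMap F K).injective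
  have hex : ∃ r, ∃ X ∈ ρ.Hh l, (kb.π * d4 X * kb.ι).charpoly.coeff r ≠ 0 := by
    refine ⟨(kb.π * d4 (0 : Matrix I I F) * kb.ι).charpoly.natDegree, 0, (ρ.Hh l).zero_mem, ?_⟩
    exact Polynomial.leadingCoeff_ne_zero.2 (Matrix.charpoly_monic _).ne_zero
  refine ⟨Nat.find hex, Nat.find_spec hex, ?_⟩
  have hmin : ∀ j < Nat.find hex, ∀ X ∈ ρ.Hh l, (kb.π * d4 X * kb.ι).charpoly.coeff j = 0 := by
    intro j hj X hX
    by_contra hne
    exact Nat.find_min hex hj ⟨X, hX, hne⟩
  generalize Nat.find hex = r at hmin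
  intro X hXs hXC
  have h1 := skew_span (K := K) ρ.J {b | ρ.InC b} X hXs fun b hb =>
    hXC _ (inCK_map ρ K hb)
  have h2 : X ∈ Submodule.span K {Y : Matrix I I K | ∃ B ∈ ρ.Hh l, Y = B.map (algebraMap F K)} ⊔
      Submodule.span K {Y : Matrix I I K | ∃ B ∈ Zm ρ, Y = B.map (algebraMap F K)} := by
    refine (Submodule.span_le.2 ?_) h1
    rintro Y ⟨B, ⟨hB1, hB2⟩, rfl⟩
    obtain ⟨a, ha, z, hz, rfl⟩ := Submodule.mem_sup.1 (hL B hB1 hB2)
    have h3 : (a + z).map (algebraMap F K) = a.map (algebraMap F K) + z.map (algebraMap F K) := by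
      ext p q
      simp
    rw [h3]
    exact Submodule.add_mem_sup (Submodule.subset_span ⟨a, ha, rfl⟩)
      (Submodule.subset_span ⟨z, hz, rfl⟩)
  obtain ⟨X', hX', Z, hZ, rfl⟩ := Submodule.mem_sup.1 h2
  have hXc : c.map (algebraMap F K) * X' = X' * c.map (algebraMap F K) := by
    clear hXs hXC h1 h2
    induction hX' using Submodule.span_induction with
    | mem x hx =>
      obtain ⟨b, hb, rfl⟩ := hx
      rw [← Matrix.map_mul, ← Hh_comm_C ρ l hl hl0 hb hc.1, Matrix.map_mul]
    | zero => rw [Matrix.mul_zero, Matrix.zero_mul]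
    | add x y _ _ hx hy => rw [Matrix.mul_add, Matrix.add_mul, hx, hy]
    | smul s x _ hx => rw [Matrix.mul_smul, Matrix.smul_mul, hx]
  have hZd : ∃ R', d4 Z = R' * d4 (c.map (algebraMap F K)) := by
    clear hXs hXC h1 h2
    induction hZ using Submodule.span_induction with
    | mem x hx =>
      obtain ⟨b, hb, rfl⟩ := hx
      obtain ⟨R, hR⟩ := hcc b hb
      exact ⟨R.map (algebraMap F K), by rw [← d4_map', ← d4_map', hR, mulMap]⟩
    | zero =>
      refine ⟨0, ?_⟩
      have h3 := d4_smul (0 : K) (0 : Matrix I I K)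
      rw [zero_smul, zero_smul] at h3
      rw [h3, Matrix.zero_mul]
    | add x y _ _ hx hy =>
      obtain ⟨R1, hR1⟩ := hx
      obtain ⟨R2, hR2⟩ := hy
      exact ⟨R1 + R2, by rw [d4_add, hR1, hR2, Matrix.add_mul]⟩
    | smul s x _ hx =>
      obtain ⟨R1, hR1⟩ := hx
      exact ⟨s • R1, by rw [d4_smul, hR1, Matrix.smul_mul]⟩
  obtain ⟨R', hR'⟩ := hZd
  rw [NN_eq hXc hR']
  have hcomm : (d4 c).map (algebraMap F K) * d4 X' = d4 X' * (d4 c).map (algebraMap F K) := by
    rw [d4_map']
    exact d4_comm hXc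
  have h4 := le_nul (kb.map K) hcomm (m := r) (fun j hj =>
    cf_span kb.π kb.ι j (ρ.Hh l) (hmin j hj) X' hX')
  rw [d4_map'] at h4
  exact h4

theorem low_det (l : ℕ) (hL : ∀ X ∈ spJ ρ.J, (∀ b, ρ.InC b → X * b = b * X) → X ∈ Hp ρ l)
    {c : Matrix I I F} (hc : c ∈ Zm ρ) (hcc : ∀ z ∈ Zm ρ, ∃ R, z = R * c) (k0 : KB c)
    {X1 : Matrix I I F} (h1 : X1 ∈ spJ ρ.J) (h2 : ∀ b, ρ.InC b → X1 * b = b * X1)
    (h3 : X1.det ≠ 0) : ∃ X ∈ ρ.Hh l, (k0.π * X * k0.ι).det ≠ 0 := by
  classical
  obtain ⟨X, hX, Z, hZ, h4⟩ := Submodule.mem_sup.1 (hL X1 h1 h2)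
  refine ⟨X, hX, fun hdet => h3 ?_⟩
  obtain ⟨R, hR⟩ := hcc Z hZ
  have hZι : Z * k0.ι = 0 := by
    rw [hR, Matrix.mul_assoc, k0.Aι, Matrix.mul_zero]
  have hcx : c * X1 = X1 * c := (h2 c hc.1).symm
  have h5 := kb_comm k0 hcx
  have h6 : k0.π * X1 * k0.ι = k0.π * X * k0.ι := by
    rw [← h4, Matrix.mul_add, Matrix.add_mul, Matrix.mul_assoc k0.π Z, hZι, Matrix.mul_zero,
      add_zero]
  obtain ⟨v, hv, hv0⟩ := Matrix.exists_mulVec_eq_zero_iff.2 hdet
  refine Matrix.exists_mulVec_eq_zero_iff.1 ⟨k0.ι *ᵥ v, ?_, ?_⟩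
  · intro h7
    refine hv ?_
    have h8 := congrArg (fun w => k0.π *ᵥ w) h7
    simp only [Matrix.mulVec_mulVec, k0.πι, Matrix.one_mulVec, Matrix.mulVec_zero] at h8
    exact h8
  · rw [Matrix.mulVec_mulVec, h5, h6, ← Matrix.mulVec_mulVec, hv0, Matrix.mulVec_zero]

end Pool.Agent.Lib.MP_640417_ag.Gn
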