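import Pool.Agent.Lib.MP_640417_ag.Gn.GoodK
import Pool.Agent.Lib.MP_640417_ag.Gn.Low
import Pool.Agent.Lib.MP_640417_ag.Gn.GenN

/-!
# MP_640417_ag, Gn, module MainG: an open set of good elements
-/

set_option autoImplicit false

namespace Pool.Agent.Lib.MP_640417_ag.Gn

open Matrix Module Pool.Agent.Lib.MP_640417_ag.Glob Pool.Agent.Lib.MP_640417_ag.Ctl
  Pool.Agent.Lib.MP_640417_ag.Ty

variable {F : Type} [NontriviallyNormedField F] [IsUltrametricDist F] [CompleteSpace F] [CharZero F]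
  {I : Type} [Fintype I] [DecidableEq I] {Γ : Type} [Group Γ] [TopologicalSpace Γ]
  [IsTopologicalGroup Γ] [CompactSpace Γ] (ρ : MRep Γ F I) (K : Type) [Field K] [Algebra F K]
  [IsAlgClosed K]

theorem exists_open (l : ℕ) [Fact l.Prime] (hl : ‖(l : F)‖ < 1) (hsemi : ρ.Semi)
    (hfull : Full0 ρ) (hL : ∀ X ∈ spJ ρ.J, (∀ b, ρ.InC b → X * b = b * X) → X ∈ Hp ρ l)
    {X1 : Matrix I I F} (h1 : X1 ∈ spJ ρ.J) (h2 : ∀ b, ρ.InC b → X1 * b = b * X1)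
    (h3 : X1.det ≠ 0) : ∃ O : Set Γ, IsOpen O ∧ O.Nonempty ∧ ∀ γ ∈ O, GoodM ρ K γ := by
  have hl0 : (l : F) ≠ 0 := Nat.cast_ne_zero.mpr (Fact.out (p := l.Prime)).ne_zero
  obtain ⟨c, hc, hcc⟩ := exists_cc ρ hsemi
  obtain ⟨kb⟩ := exists_kb (d4 c)
  obtain ⟨k0⟩ := exists_kb c
  obtain ⟨r, hr1, hr2⟩ := low_r ρ l hl hl0 hsemi hL hc (fun z hz => (hcc z hz).1) kb K
  have hd := low_det ρ l hL hc (fun z hz => (hcc z hz).2) k0 h1 h2 h3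
  obtain ⟨A, hA, t, ht, hA1, hA2⟩ := exists_tangent ρ l hl hl0 kb k0 r hr1 hd
  obtain ⟨O, hO, hO', hOg⟩ := near_openN ρ l hl kb k0 r A hA t ht hA1 hA2
  exact ⟨O, hO, hO', fun γ hγ => good_of_few ρ K hsemi hfull hc kb k0 r hr2 γ (hOg γ hγ)⟩

end Pool.Agent.Lib.MP_640417_ag.Gn
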