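import Pool.Agent.Lib.MP_640417_ag.Glob.Five

/-!
# MP_640417_ag, Gn, module Num (150 lines): generic numbers for an involution; two commuting operators
-/

set_option autoImplicit false

namespace Pool.Agent.Lib.MP_640417_ag.Gn

open Matrix Pool.Agent.Lib.MP_640417_ag.Glob

section num

private def Num_x {n : ℕ} : Fin n ⊕ Fin n → ℤ :=
  Sum.elim (fun i => (5 : ℤ) ^ (i : ℕ)) (fun i => -(5 : ℤ) ^ (i : ℕ))

private theorem Num_cast {n : ℕ} (x : Fin n ⊕ Fin n) : ((Num_x x : ℤ) : ℚ) = zz ℚ x := by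
  cases x with
  | inl i =>
    show (((5 : ℤ) ^ (i : ℕ) : ℤ) : ℚ) = (5 : ℚ) ^ (i : ℕ)
    push_cast
    rfl
  | inr i =>
    show ((-(5 : ℤ) ^ (i : ℕ) : ℤ) : ℚ) = -(5 : ℚ) ^ (i : ℕ)
    push_cast
    rfl

private def Num_s {n : ℕ} (st : Fin n → Fin n) (a : Fin n) : Fin n ⊕ Fin n :=
  if a < st a then Sum.inl a else Sum.inr (st a)

private theorem Num_swap {n : ℕ} (st : Fin n → Fin n) (h : ∀ a, st (st a) = a)
    (hne : ∀ a, st a ≠ a) (a : Fin n) : Num_s st (st a) = (Num_s st a).swap := by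
  unfold Num_s
  rw [h]
  by_cases h1 : a < st a
  · rw [if_neg (not_lt.2 h1.le), if_pos h1]
    rfl
  · have h2 : st a < a := lt_of_le_of_ne (not_lt.1 h1) (hne a)
    rw [if_pos h2, if_neg h1]
    rfl

private theorem Num_inj {n : ℕ} (st : Fin n → Fin n) (h : ∀ a, st (st a) = a) {a b : Fin n}
    (hab : Num_s st a = Num_s st b) : a = b := by
  unfold Num_s at hab
  by_cases h1 : a < st a
  · by_cases h2 : b < st b
    · rw [if_pos h1, if_pos h2] at hab
      exact Sum.inl_injective hab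
    · rw [if_pos h1, if_neg h2] at hab
      cases hab
  · by_cases h2 : b < st b
    · rw [if_neg h1, if_pos h2] at hab
      cases hab
    · rw [if_neg h1, if_neg h2] at hab
      have h3 : st a = st b := Sum.inr_injective hab
      rw [← h a, h3, h]

theorem exists_num {n : ℕ} (st : Fin n → Fin n) (h : ∀ a, st (st a) = a) (hne : ∀ a, st a ≠ a) :
    ∃ x : Fin n → ℤ, (∀ a, x (st a) = -x a) ∧
      ∀ a b u v, x a + x b + x u + x v = 0 → (b = st a ∧ v = st u) ∨ (u = st a ∧ v = st b) ∨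
        (v = st a ∧ u = st b) := by
  refine ⟨fun a => Num_x (Num_s st a), fun a => ?_, fun a b u v hs => ?_⟩
  · have h1 : ((Num_x (Num_s st (st a)) : ℤ) : ℚ) = ((-Num_x (Num_s st a) : ℤ) : ℚ) := by
      rw [Int.cast_neg, Num_cast, Num_cast, Num_swap st h hne, zz_swap]
    exact_mod_cast h1
  · have h1 : zz ℚ (Num_s st a) + zz ℚ (Num_s st b) + zz ℚ (Num_s st u) + zz ℚ (Num_s st v) = 0 := by
      rw [← Num_cast, ← Num_cast, ← Num_cast, ← Num_cast]
      exact_mod_cast hs
    rw [zz_zero, ← Num_swap st h hne, ← Num_swap st h hne, ← Num_swap st h hne] at h1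
    rcases h1 with ⟨h2, h3⟩ | ⟨h2, h3⟩ | ⟨h2, h3⟩
    · exact Or.inl ⟨Num_inj st h h2, Num_inj st h h3⟩
    · exact Or.inr (Or.inl ⟨Num_inj st h h2, Num_inj st h h3⟩)
    · exact Or.inr (Or.inr ⟨Num_inj st h h2, Num_inj st h h3⟩)

end num

variable {K : Type} [Field K] [CharZero K]

section ten

open Polynomial

variable {κ : Type} [Fintype κ] [DecidableEq κ]

omit [CharZero K] in
private theorem Num_bez (Q : Matrix κ κ K) {u v : K[X]} (h : IsCoprime u v) (w : κ → K)
    (hu : (aeval Q u) *ᵥ w = 0) (hv : (aeval Q v) *ᵥ w = 0) : w = 0 := by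
  obtain ⟨a, b, hab⟩ := h
  have h1 : (aeval Q (a * u + b * v)) *ᵥ w = w := by rw [hab, map_one, Matrix.one_mulVec]
  rw [map_add, map_mul, map_mul, Matrix.add_mulVec, ← Matrix.mulVec_mulVec,
    ← Matrix.mulVec_mulVec, hu, hv, Matrix.mulVec_zero, Matrix.mulVec_zero, add_zero] at h1
  exact h1.symm

omit [CharZero K] in
private theorem Num_comm (P A : Matrix κ κ K) (h : A * P = P * A) (b : K[X]) :
    A * aeval P b = aeval P b * A := by
  induction b using Polynomial.induction_on' with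
  | add p q hp hq => rw [map_add, mul_add, add_mul, hp, hq]
  | monomial n a =>
    rw [aeval_monomial, ← mul_assoc, ← Algebra.commutes, mul_assoc, mul_assoc,
      (Commute.pow_right (show Commute A P from h) n).eq]

omit [CharZero K] in
private theorem Num_pow (P Q : Matrix κ κ K) (h : P * Q = Q * P) (a : K) (n : ℕ) :
    ∀ s : κ → K, P *ᵥ s = a • s →
      ((P + Q) ^ n) *ᵥ s = (aeval Q ((X - C (-a)) ^ n)) *ᵥ s := by
  induction n with
  | zero => intro s _; rw [pow_zero, pow_zero, map_one]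
  | succ n ih =>
    intro s hs
    have h1 : (P + Q) *ᵥ s = (aeval Q (X - C (-a))) *ᵥ s := by
      rw [map_sub, aeval_X, aeval_C, map_neg, sub_neg_eq_add, Matrix.add_mulVec,
        Matrix.add_mulVec, hs, add_comm, Algebra.algebraMap_eq_smul_one, Matrix.smul_mulVec,
        Matrix.one_mulVec]
    have h2 : P *ᵥ ((aeval Q (X - C (-a))) *ᵥ s) = a • ((aeval Q (X - C (-a))) *ᵥ s) := by
      rw [Matrix.mulVec_mulVec, Num_comm Q P h, ← Matrix.mulVec_mulVec, hs, Matrix.mulVec_smul]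
    rw [pow_succ, ← Matrix.mulVec_mulVec, h1, ih _ h2, Matrix.mulVec_mulVec, ← map_mul,
      ← pow_succ]

end ten

open Polynomial in
theorem sum_ten {κ : Type} [Fintype κ] [DecidableEq κ] (P Q : Matrix κ κ K) (h : P * Q = Q * P)
    (S : Finset ℤ)
    (hP : Polynomial.aeval P (∏ i ∈ S, (Polynomial.X - Polynomial.C (10 * (i : K)))) = 0)
    (hQ : Polynomial.aeval Q (∏ j ∈ Finset.Icc (-4 : ℤ) 4,
      (Polynomial.X - Polynomial.C (j : K))) = 0) (n : ℕ) (t : κ → K)
    (ht : ((P + Q) ^ n) *ᵥ t = 0) : P *ᵥ t = 0 ∧ Q *ᵥ t = 0 := by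
  classical
  rcases S.eq_empty_or_nonempty with hS | hS
  · rw [hS, Finset.prod_empty, map_one] at hP
    have h1 : t = 0 := by rw [← Matrix.one_mulVec t, hP, Matrix.zero_mulVec]
    rw [h1, Matrix.mulVec_zero, Matrix.mulVec_zero]
    exact ⟨rfl, rfl⟩
  let v : ℤ → K := fun i => 10 * (i : K)
  have hv : ∀ i, v i = 10 * (i : K) := fun _ => rfl
  have h10 : (10 : K) ≠ 0 := by
    have h1 : ((10 : ℕ) : K) ≠ 0 := Nat.cast_ne_zero.2 (by norm_num)
    exact_mod_cast h1
  have hinj : Set.InjOn v S := by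
    intro i _ j _ hij
    exact Int.cast_injective (mul_left_cancel₀ h10 hij)
  let T : ℤ → κ → K := fun i => (aeval P (Lagrange.basis S v i)) *ᵥ t
  have hT : ∀ i, T i = (aeval P (Lagrange.basis S v i)) *ᵥ t := fun _ => rfl
  have hsum : t = ∑ i ∈ S, T i := by
    have h1 : (aeval P (∑ i ∈ S, Lagrange.basis S v i)) *ᵥ t = t := by
      rw [Lagrange.sum_basis hinj hS, map_one, Matrix.one_mulVec]
    rw [map_sum, Matrix.sum_mulVec] at h1
    exact h1.symm
  have hPT : ∀ i ∈ S, P *ᵥ T i = v i • T i := by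
    intro i hi
    have h1 : (X - C (v i)) * Lagrange.basis S v i =
        C (Lagrange.nodalWeight S v i) * Lagrange.nodal S v := by
      rw [Lagrange.basis_eq_prod_sub_inv_mul_nodal_div hi, ← Lagrange.nodal_erase_eq_nodal_div hi,
        Lagrange.nodal_eq_mul_nodal_erase hi]
      ring
    have h2 : aeval P ((X - C (v i)) * Lagrange.basis S v i) = 0 := by
      rw [h1, map_mul, Lagrange.nodal_eq]
      have h3 : aeval P (∏ i ∈ S, (X - C (v i))) = 0 := hP
      rw [h3, mul_zero]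
    have h3 : (aeval P ((X - C (v i)) * Lagrange.basis S v i)) *ᵥ t = 0 := by
      rw [h2, Matrix.zero_mulVec]
    rw [map_mul, ← Matrix.mulVec_mulVec, ← hT, map_sub, aeval_X, aeval_C, Matrix.sub_mulVec,
      Algebra.algebraMap_eq_smul_one, Matrix.smul_mulVec, Matrix.one_mulVec, sub_eq_zero] at h3
    exact h3
  have hAT : ∀ i, ((P + Q) ^ n) *ᵥ T i = 0 := by
    intro i
    have h1 : (P + Q) ^ n * P = P * (P + Q) ^ n := by
      have h2 : Commute (P + Q) P := by
        change (P + Q) * P = P * (P + Q)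
        rw [add_mul, mul_add, h]
      exact (h2.pow_left n).eq
    rw [hT, Matrix.mulVec_mulVec, Num_comm P _ h1, ← Matrix.mulVec_mulVec, ht,
      Matrix.mulVec_zero]
  have hQT : ∀ i, (aeval Q (∏ j ∈ Finset.Icc (-4 : ℤ) 4, (X - C (j : K)))) *ᵥ T i = 0 := by
    intro i
    rw [hQ, Matrix.zero_mulVec]
  have hpow : ∀ i ∈ S, (aeval Q ((X - C (-(v i))) ^ n)) *ᵥ T i = 0 := by
    intro i hi
    rw [← Num_pow P Q h (v i) n (T i) (hPT i hi)]
    exact hAT i
  have hcast : ∀ i : ℤ, -(v i) = ((-10 * i : ℤ) : K) := by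
    intro i
    rw [hv]
    push_cast
    ring
  have hne : ∀ i ∈ S, i ≠ 0 → T i = 0 := by
    intro i hi hi0
    refine Num_bez Q ?_ (T i) (hpow i hi) (hQT i)
    refine IsCoprime.pow_left (IsCoprime.prod_right fun j hj => ?_)
    apply isCoprime_X_sub_C_of_isUnit_sub
    rw [isUnit_iff_ne_zero, sub_ne_zero, hcast]
    intro h1
    have h2 : -10 * i = j := Int.cast_injective h1
    rw [Finset.mem_Icc] at hj
    omega
  have hzero : ∀ i ∈ S, P *ᵥ T i = 0 ∧ Q *ᵥ T i = 0 := by
    intro i hi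
    by_cases hi0 : i = 0
    · refine ⟨?_, ?_⟩
      · rw [hPT i hi, hv, hi0, Int.cast_zero, mul_zero, zero_smul]
      · have h0 : (0 : ℤ) ∈ Finset.Icc (-4 : ℤ) 4 := by
          rw [Finset.mem_Icc]
          constructor <;> norm_num
        have h1 : (∏ j ∈ Finset.Icc (-4 : ℤ) 4, (X - C (j : K))) =
            (∏ j ∈ (Finset.Icc (-4 : ℤ) 4).erase 0, (X - C (j : K))) * X := by
          rw [← Finset.prod_erase_mul _ _ h0, Int.cast_zero, C_0, sub_zero]
        have h2 := hQT i
        rw [h1, map_mul, aeval_X, ← Matrix.mulVec_mulVec] at h2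
        have h3 := hpow i hi
        rw [hv, hi0, Int.cast_zero, mul_zero, neg_zero, C_0, sub_zero] at h3
        have h4 : (aeval Q ((X : K[X]) ^ n)) *ᵥ (Q *ᵥ T i) = 0 := by
          rw [hi0, Matrix.mulVec_mulVec, map_pow, aeval_X, ← pow_succ, pow_succ',
            ← Matrix.mulVec_mulVec]
          rw [map_pow, aeval_X] at h3
          rw [h3, Matrix.mulVec_zero]
        refine Num_bez Q ?_ (Q *ᵥ T i) h4 h2
        refine IsCoprime.pow_left (IsCoprime.prod_right fun j hj => ?_)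
        have h5 : (X : K[X]) = X - C 0 := by rw [C_0, sub_zero]
        rw [h5]
        have h6 : IsCoprime (X - C (0 : K)) (X - C (j : K)) := by
          apply isCoprime_X_sub_C_of_isUnit_sub
          rw [isUnit_iff_ne_zero, zero_sub, neg_ne_zero, Int.cast_ne_zero]
          exact (Finset.mem_erase.1 hj).1
        simpa using h6
    · rw [hne i hi hi0, Matrix.mulVec_zero, Matrix.mulVec_zero]
      exact ⟨rfl, rfl⟩
  constructor
  · rw [hsum, Matrix.mulVec_sum]
    exact Finset.sum_eq_zero fun i hi => (hzero i hi).1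
  · rw [hsum, Matrix.mulVec_sum]
    exact Finset.sum_eq_zero fun i hi => (hzero i hi).2

end Pool.Agent.Lib.MP_640417_ag.Gn
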