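import Pool.Agent.Lib.MP_640417_ag.Gn.GapA
import Pool.Agent.Lib.MP_640417_ag.Gn.Num

/-!
# MP_640417_ag, Gn, module GapI (300 lines): the weight spaces are irreducible

Let `E` be a subspace of the range of `ε a` stable under `C`, `E ≠ 0` and `E ≠` the range. `p` from `exists_compl`, `η = p * ε a`: an
idempotent commuting with `C` (`D.comm`: `ε a` commutes with `C`), with range `E`, `ε a η = η = η ε a`, `η ≠ 0`, `η ≠ ε a`.
`Y = η - adj η` (`adj η` is an idempotent with `ε (st a) adj η = adj η = adj η ε (st a)`, it commutes with `C` as `C` is stable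
under `adj`), `x` from `exists_num`, `X1 = X0 + Y` is skew and commutes with `C`. `d4 X0` and `d4 Y` commute (`d4_comm`) and satisfy
the hypotheses of `sum_ten`: `d4 X0` has the eigenvalues `10 (x a + x b + x u + x v)`: decompose `1 = ∑ q4 (ε a) (ε b) (ε u) (ε v)`,
apply `d4_mul_q4`; `Y` has the eigenvalues `1, 0, -1`: decompose with the three idempotents `η`, `adj η`, `1 - η - adj η` and
`q4_sum`. So `NN c X1 ≤ NN c X0`, and `d4 Y` kills `NN c X1`. The range of `q4 η ζ η ζ`, `ζ = ε (st a) - adj η` (not zero, `q4_ne`;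
`ζ ≠ 0` as `η ≠ ε a`) is in `NN c X0` (`d4_mul_q4` with the eigenvalues `10 x a`, `- 10 x a`; `k a`, `- k a`) but `d4 Y` is `2` on it
(`Y η = η`, `Y ζ = 0`). So `dim NN c X1 < dim NN c X0 ≤ dim GG ≤ r` (`gap_le`), a contradiction to `hr`.
-/

set_option autoImplicit false

namespace Pool.Agent.Lib.MP_640417_ag.Gn

open Matrix Pool.Agent.Lib.MP_640417_ag.Glob

variable {K : Type} [Field K] [CharZero K] {I : Type} [Fintype I] [DecidableEq I]

omit [CharZero K] in
private theorem gapI_aeval {κ : Type} [Fintype κ] [DecidableEq κ] (P M : Matrix κ κ K) (l : K)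
    (h : P * M = l • M) (f : Polynomial K) : Polynomial.aeval P f * M = (f.eval l) • M := by
  induction f using Polynomial.induction_on' with
  | add f g hf hg => rw [map_add, add_mul, hf, hg, Polynomial.eval_add, add_smul]
  | monomial n a =>
    rw [Polynomial.aeval_monomial, Polynomial.eval_monomial]
    have h1 : P ^ n * M = l ^ n • M := by
      induction n with
      | zero => rw [pow_zero, pow_zero, one_mul, one_smul]
      | succ n ih =>
        rw [pow_succ, mul_assoc, h, mul_smul_comm, ih, smul_smul, pow_succ, mul_comm]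
    rw [mul_assoc, h1, ← Algebra.smul_def, smul_smul]

omit [CharZero K] in
private theorem gapI_zero {κ A : Type} [Fintype κ] [DecidableEq κ] [Fintype A]
    (P : Matrix κ κ K) (e : A → Matrix κ κ K) (he : ∑ y, e y = 1) (l : A → K)
    (h : ∀ y, P * e y = l y • e y) (f : Polynomial K) (hf : ∀ y, f.eval (l y) = 0) :
    Polynomial.aeval P f = 0 := by
  rw [← mul_one (Polynomial.aeval P f), ← he, Finset.mul_sum]
  refine Finset.sum_eq_zero (fun y _ => ?_)
  rw [gapI_aeval P _ _ (h y), hf, zero_smul]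

omit [CharZero K] in
private theorem gapI_d4 {X a b u v : Matrix I I K} {xa xb xu xv : K} (ha : X * a = xa • a)
    (hb : X * b = xb • b) (hu : X * u = xu • u) (hv : X * v = xv • v) :
    d4 X * q4 a b u v = (xa + xb + xu + xv) • q4 a b u v := by
  refine d4_mul_q4 X ![a, b, u, v] ![xa, xb, xu, xv] (fun i => ?_)
  fin_cases i
  · exact ha
  · exact hb
  · exact hu
  · exact hv

omit [CharZero K] in
private theorem adj_sub' (J A B : Matrix I I K) : adj J (A - B) = adj J A - adj J B := by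
  unfold adj
  rw [Matrix.transpose_sub, mul_sub, sub_mul]

omit [CharZero K] in
private theorem adj_add' (J A B : Matrix I I K) : adj J (A + B) = adj J A + adj J B := by
  unfold adj
  rw [Matrix.transpose_add, mul_add, add_mul]

/-- the ranges of the `ε a` are irreducible -/
theorem gap_irr1 {J g c : Matrix I I K} {μ : K} (hJ : J.det ≠ 0) (hs : Jᵀ = -J)
    (D : WDec J g c μ) {x : Fin D.n → ℤ} (hx : GoodNum D.st x) (C : Subalgebra K (Matrix I I K))
    (hC : Rg C)
    (hCa : ∀ b ∈ C, adj J b ∈ C) (hg : Cm C g) (hc : Cm C c) (hcg : c * g = g * c) (r : ℕ)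
    (hr : ∀ X, Xᵀ * J + J * X = 0 → Cm C X → r ≤ Module.finrank K (NN c X)) (N : ℕ)
    (hG : Module.finrank K (GG c g μ N) ≤ r) (a : Fin D.n) (hst : D.st a ≠ a)
    (E : Submodule K (I → K))
    (hE : ∀ b ∈ C, ∀ v ∈ E, b *ᵥ v ∈ E) (hEa : ∀ v ∈ E, D.ε a *ᵥ v = v) :
    E = ⊥ ∨ E = LinearMap.range (Matrix.toLin' (D.ε a)) := by
  by_contra hcon
  rw [not_or] at hcon
  obtain ⟨hE0, hE1⟩ := hcon
  obtain ⟨p, hpC, hpE, hpid⟩ := exists_compl C hC E hE
  -- the idempotent
  obtain ⟨η, hη⟩ : ∃ η, η = p * D.ε a := ⟨_, rfl⟩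
  have hηE : ∀ v, η *ᵥ v ∈ E := by
    intro v
    rw [hη, ← Matrix.mulVec_mulVec]
    exact hpE _
  have hηid : ∀ v ∈ E, η *ᵥ v = v := by
    intro v hv
    rw [hη, ← Matrix.mulVec_mulVec, hEa v hv, hpid v hv]
  have hηη : η * η = η := by
    refine Matrix.ext_of_mulVec_single fun i => ?_
    rw [← Matrix.mulVec_mulVec]
    exact hηid _ (hηE _)
  have hεη : D.ε a * η = η := by
    refine Matrix.ext_of_mulVec_single fun i => ?_
    rw [← Matrix.mulVec_mulVec]
    exact hEa _ (hηE _)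
  have hηε : η * D.ε a = η := by rw [hη, mul_assoc, D.idem]
  have hη0 : η ≠ 0 := by
    intro h
    apply hE0
    rw [eq_bot_iff]
    intro v hv
    rw [Submodule.mem_bot, ← hηid v hv, h, Matrix.zero_mulVec]
  have hη1 : η ≠ D.ε a := by
    intro h
    apply hE1
    apply le_antisymm
    · intro v hv
      exact ⟨v, by rw [Matrix.toLin'_apply]; exact hEa v hv⟩
    · rintro _ ⟨v, rfl⟩
      rw [Matrix.toLin'_apply, ← h]
      exact hηE v
  have hεC : Cm C (D.ε a) := fun b hb => (D.comm a b (hg b hb).symm (hc b hb).symm).symm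
  have hηC : Cm C η := by
    intro b hb
    rw [hη, mul_assoc, hεC b hb, ← mul_assoc, hpC b hb, mul_assoc]
  -- the adjoint
  obtain ⟨θ, hθ⟩ : ∃ θ, θ = adj J η := ⟨_, rfl⟩
  have hθθ : θ * θ = θ := by rw [hθ, ← adj_mul hJ, hηη]
  have hεθ : D.ε (D.st a) * θ = θ := by rw [hθ, ← D.star a, ← adj_mul hJ, hηε]
  have hθε : θ * D.ε (D.st a) = θ := by rw [hθ, ← D.star a, ← adj_mul hJ, hεη]
  have hθC : Cm C θ := by
    intro b hb
    have h1 := congrArg (adj J) (hηC _ (hCa b hb))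
    rw [adj_mul hJ, adj_mul hJ, adj_adj hJ hs] at h1
    rw [hθ]
    exact h1.symm
  have hηθ : η * θ = 0 := by
    rw [← hηε, ← hεθ, mul_assoc, ← mul_assoc (D.ε a), D.orth a (D.st a) (Ne.symm hst), zero_mul,
      mul_zero]
  have hθη : θ * η = 0 := by
    rw [← hθε, ← hεη, mul_assoc, ← mul_assoc (D.ε (D.st a)), D.orth (D.st a) a hst, zero_mul,
      mul_zero]
  have hηεs : η * D.ε (D.st a) = 0 := by
    rw [← hηε, mul_assoc, D.orth a (D.st a) (Ne.symm hst), mul_zero]
  -- the element `Y`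
  obtain ⟨Y, hY⟩ : ∃ Y, Y = η - θ := ⟨_, rfl⟩
  have hYa : adj J Y = -Y := by
    rw [hY, adj_sub', hθ, adj_adj hJ hs, neg_sub]
  have hYC : Cm C Y := by
    intro b hb
    rw [hY, sub_mul, mul_sub, hηC b hb, hθC b hb]
  have hYη : Y * η = (1 : K) • η := by rw [hY, sub_mul, hηη, hθη, sub_zero, one_smul]
  have hYθ : Y * θ = (-1 : K) • θ := by
    rw [hY, sub_mul, hηθ, hθθ, zero_sub, neg_smul, one_smul]
  have hYr : Y * (1 - η - θ) = (0 : K) • (1 - η - θ) := by
    rw [mul_sub, mul_sub, mul_one, hYη, hYθ, one_smul, neg_smul, one_smul, hY, zero_smul]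
    abel
  obtain ⟨ζ, hζ⟩ : ∃ ζ, ζ = D.ε (D.st a) - θ := ⟨_, rfl⟩
  have hζ0 : ζ ≠ 0 := by
    intro h
    rw [hζ, sub_eq_zero] at h
    apply hη1
    have h1 := congrArg (adj J) h
    rw [D.star, D.st_st, hθ, adj_adj hJ hs] at h1
    exact h1.symm
  have hYζ : Y * ζ = (0 : K) • ζ := by
    rw [hζ, mul_sub, hYθ, hY, sub_mul, hηεs, hθε, zero_smul, neg_smul, one_smul]
    abel
  -- products with `X0`
  have hXη : X0 D x * η = (10 * (x a : K)) • η := by
    rw [← hεη, ← mul_assoc, (X0_eig D x a).1, smul_mul_assoc]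
  have hηX : η * X0 D x = (10 * (x a : K)) • η := by
    rw [← hηε, mul_assoc, (X0_eig D x a).2, mul_smul_comm]
  have hXθ : X0 D x * θ = (10 * (x (D.st a) : K)) • θ := by
    rw [← hεθ, ← mul_assoc, (X0_eig D x (D.st a)).1, smul_mul_assoc]
  have hθX : θ * X0 D x = (10 * (x (D.st a) : K)) • θ := by
    rw [← hθε, mul_assoc, (X0_eig D x (D.st a)).2, mul_smul_comm]
  have hXY : X0 D x * Y = Y * X0 D x := by
    rw [hY, mul_sub, sub_mul, hXη, hηX, hXθ, hθX]
  have hXζ : X0 D x * ζ = (10 * (x (D.st a) : K)) • ζ := by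
    rw [hζ, mul_sub, (X0_eig D x (D.st a)).1, hXθ, smul_sub]
  have hcη : c * η = D.k a • η := by
    rw [← hεη, ← mul_assoc, D.ceig, smul_mul_assoc]
  have hcζ : c * ζ = D.k (D.st a) • ζ := by
    have h1 : c * θ = D.k (D.st a) • θ := by
      rw [← hεθ, ← mul_assoc, D.ceig, smul_mul_assoc]
    rw [hζ, mul_sub, D.ceig, h1, smul_sub]
  -- the new element
  have hX1s : (X0 D x + Y)ᵀ * J + J * (X0 D x + Y) = 0 := by
    rw [adj_skew hJ, adj_add', (adj_skew hJ _).mp (X0_skew hJ D hx), hYa]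
    abel
  have hX1C : Cm C (X0 D x + Y) := by
    intro b hb
    rw [add_mul, mul_add, X0_cm D x C hg hc b hb, hYC b hb]
  have hr1 := hr _ hX1s hX1C
  -- the annihilation of the new generalized kernel
  have hkill : ∀ t ∈ NN c (X0 D x + Y), d4 (X0 D x) *ᵥ t = 0 ∧ d4 Y *ᵥ t = 0 := by
    rintro t ⟨ht1, _⟩
    rw [SetLike.mem_coe, gapA_mem] at ht1
    obtain ⟨n, hn⟩ := ht1
    rw [zero_smul, sub_zero, d4_add] at hn
    refine sum_ten (d4 (X0 D x)) (d4 Y) (d4_comm hXY)
      (Finset.univ.image (fun y : Fin D.n × Fin D.n × Fin D.n × Fin D.n =>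
        x y.1 + x y.2.1 + x y.2.2.1 + x y.2.2.2)) ?_ ?_ n t hn
    · refine gapI_zero (d4 (X0 D x))
        (fun y : Fin D.n × Fin D.n × Fin D.n × Fin D.n =>
          q4 (D.ε y.1) (D.ε y.2.1) (D.ε y.2.2.1) (D.ε y.2.2.2)) ?_
        (fun y => 10 * (x y.1 : K) + 10 * (x y.2.1 : K) + 10 * (x y.2.2.1 : K) +
          10 * (x y.2.2.2 : K)) ?_ _ ?_
      · rw [← q4_sum, D.sum, q4_one]
      · intro y
        exact gapI_d4 (X0_eig D x _).1 (X0_eig D x _).1 (X0_eig D x _).1 (X0_eig D x _).1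
      · intro y
        rw [Polynomial.eval_prod]
        refine Finset.prod_eq_zero (Finset.mem_image_of_mem _ (Finset.mem_univ y)) ?_
        rw [Polynomial.eval_sub, Polynomial.eval_X, Polynomial.eval_C]
        push_cast
        ring
    · refine gapI_zero (d4 Y)
        (fun y : Fin 3 × Fin 3 × Fin 3 × Fin 3 =>
          q4 ((![η, θ, 1 - η - θ] : Fin 3 → Matrix I I K) y.1)
            ((![η, θ, 1 - η - θ] : Fin 3 → Matrix I I K) y.2.1)
            ((![η, θ, 1 - η - θ] : Fin 3 → Matrix I I K) y.2.2.1)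
            ((![η, θ, 1 - η - θ] : Fin 3 → Matrix I I K) y.2.2.2)) ?_
        (fun y => (((![1, -1, 0] : Fin 3 → ℤ) y.1 : ℤ) : K) +
          (((![1, -1, 0] : Fin 3 → ℤ) y.2.1 : ℤ) : K) +
          (((![1, -1, 0] : Fin 3 → ℤ) y.2.2.1 : ℤ) : K) +
          (((![1, -1, 0] : Fin 3 → ℤ) y.2.2.2 : ℤ) : K)) ?_ _ ?_
      · rw [← q4_sum]
        have h1 : ∑ i, (![η, θ, 1 - η - θ] : Fin 3 → Matrix I I K) i = 1 := by
          rw [Fin.sum_univ_three]
          change η + θ + (1 - η - θ) = 1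
          abel
        rw [h1, q4_one]
      · have h1 : ∀ i, Y * (![η, θ, 1 - η - θ] : Fin 3 → Matrix I I K) i =
            (((![1, -1, 0] : Fin 3 → ℤ) i : ℤ) : K) •
              (![η, θ, 1 - η - θ] : Fin 3 → Matrix I I K) i := by
          intro i
          fin_cases i
          · change Y * η = ((1 : ℤ) : K) • η
            rw [hYη, Int.cast_one]
          · change Y * θ = ((-1 : ℤ) : K) • θ
            rw [hYθ, Int.cast_neg, Int.cast_one]
          · change Y * (1 - η - θ) = ((0 : ℤ) : K) • (1 - η - θ)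
            rw [hYr, Int.cast_zero]
        intro y
        exact gapI_d4 (h1 _) (h1 _) (h1 _) (h1 _)
      · have h1 : ∀ i, -1 ≤ (![1, -1, 0] : Fin 3 → ℤ) i ∧ (![1, -1, 0] : Fin 3 → ℤ) i ≤ 1 := by
          intro i
          fin_cases i <;> decide
        intro y
        rw [Polynomial.eval_prod]
        refine Finset.prod_eq_zero (i := (![1, -1, 0] : Fin 3 → ℤ) y.1 +
          (![1, -1, 0] : Fin 3 → ℤ) y.2.1 + (![1, -1, 0] : Fin 3 → ℤ) y.2.2.1 +
          (![1, -1, 0] : Fin 3 → ℤ) y.2.2.2) ?_ ?_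
        · rw [Finset.mem_Icc]
          have h2 := h1 y.1
          have h3 := h1 y.2.1
          have h4 := h1 y.2.2.1
          have h5 := h1 y.2.2.2
          constructor <;> linarith [h2.1, h2.2, h3.1, h3.2, h4.1, h4.2, h5.1, h5.2]
        · rw [Polynomial.eval_sub, Polynomial.eval_X, Polynomial.eval_C]
          push_cast
          ring
  have hle : NN c (X0 D x + Y) ≤ NN c (X0 D x) := by
    intro t ht
    refine ⟨?_, ht.2⟩
    rw [SetLike.mem_coe, gapA_mem]
    refine ⟨1, ?_⟩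
    rw [zero_smul, sub_zero, pow_one]
    exact (hkill t ht).1
  -- the witness
  have hq0 : q4 η ζ η ζ ≠ 0 := by
    refine q4_ne (e := ![η, ζ, η, ζ]) (fun i => ?_)
    fin_cases i
    · exact hη0
    · exact hζ0
    · exact hη0
    · exact hζ0
  obtain ⟨t0, ht0⟩ : ∃ t0, q4 η ζ η ζ *ᵥ t0 ≠ 0 := by
    by_contra h
    apply hq0
    refine Matrix.ext_of_mulVec_single fun i => ?_
    rw [Matrix.zero_mulVec]
    by_contra h2
    exact h ⟨_, h2⟩
  have hs1 : d4 (X0 D x) *ᵥ (q4 η ζ η ζ *ᵥ t0) = 0 := by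
    rw [Matrix.mulVec_mulVec, gapI_d4 hXη hXζ hXη hXζ, hx.1 a]
    have h1 : (10 * (x a : K) + 10 * ((-x a : ℤ) : K) + 10 * (x a : K) +
        10 * ((-x a : ℤ) : K)) = 0 := by
      push_cast
      ring
    rw [h1, zero_smul, Matrix.zero_mulVec]
  have hs2 : d4 c *ᵥ (q4 η ζ η ζ *ᵥ t0) = 0 := by
    have h1 : (D.k a + D.k (D.st a) + D.k a + D.k (D.st a)) = 0 := by
      linear_combination 2 * D.kdual a
    rw [Matrix.mulVec_mulVec, gapI_d4 hcη hcζ hcη hcζ, h1, zero_smul, Matrix.zero_mulVec]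
  have hs3 : d4 Y *ᵥ (q4 η ζ η ζ *ᵥ t0) ≠ 0 := by
    rw [Matrix.mulVec_mulVec, gapI_d4 hYη hYζ hYη hYζ, Matrix.smul_mulVec]
    refine smul_ne_zero ?_ ht0
    norm_num
  have hlt : NN c (X0 D x + Y) < NN c (X0 D x) := by
    refine lt_of_le_of_ne hle (fun h => hs3 ?_)
    have h1 : q4 η ζ η ζ *ᵥ t0 ∈ NN c (X0 D x) := by
      refine ⟨?_, ?_⟩
      · rw [SetLike.mem_coe, gapA_mem]
        refine ⟨1, ?_⟩
        rw [zero_smul, sub_zero, pow_one]
        exact hs1
      · rw [SetLike.mem_coe, LinearMap.mem_ker, Matrix.toLin'_apply]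
        exact hs2
    rw [← h] at h1
    exact (hkill _ h1).2
  have h1 := Submodule.finrank_lt_finrank_of_lt hlt
  have h2 := Submodule.finrank_mono (gap_le D hcg hx N)
  omega

/-- the ranges of the `ε a` are irreducible, without self-dual weights -/
theorem gap_irr {J g c : Matrix I I K} {μ : K} (hJ : J.det ≠ 0) (hs : Jᵀ = -J)
    (D : WDec J g c μ) (hne : ∀ a, D.st a ≠ a) (C : Subalgebra K (Matrix I I K)) (hC : Rg C)
    (hCa : ∀ b ∈ C, adj J b ∈ C) (hg : Cm C g) (hc : Cm C c) (hcg : c * g = g * c) (r : ℕ)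
    (hr : ∀ X, Xᵀ * J + J * X = 0 → Cm C X → r ≤ Module.finrank K (NN c X)) (N : ℕ)
    (hG : Module.finrank K (GG c g μ N) ≤ r) (a : Fin D.n) (E : Submodule K (I → K))
    (hE : ∀ b ∈ C, ∀ v ∈ E, b *ᵥ v ∈ E) (hEa : ∀ v ∈ E, D.ε a *ᵥ v = v) :
    E = ⊥ ∨ E = LinearMap.range (Matrix.toLin' (D.ε a)) := by
  obtain ⟨x, hx1, hx2⟩ := exists_num D.st D.st_st hne
  exact gap_irr1 hJ hs D ⟨hx1, hx2⟩ C hC hCa hg hc hcg r hr N hG a (hne a) E hE hEa

end Pool.Agent.Lib.MP_640417_ag.Gn
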