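import Pool.Agent.Lib.MP_640417_ag.Gn.GapA
import Pool.Agent.Lib.MP_640417_ag.Gn.Num

/-!
# MP_640417_ag, Gn, module GapR (100 lines): four weights with a relation cancel in pairs

Let `x` be the integers of `exists_num`. If `k a + k b + k u + k v = 0` and `(z a z b z u z v)^N = μ^(2N)` then the range of
`q4 (ε a) (ε b) (ε u) (ε v)` is in `GG` (`d4_mul_q4` for `c`; `q4_nil` for `g^N` with `nil_pow`), so in `NN c X0` (`gap_eq`), where
`d4 X0` is the scalar `10 (x a + x b + x u + x v)` on it (`d4_mul_q4`, `X0_eig`), and `q4` is not zero (`q4_ne`), so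
`x a + x b + x u + x v = 0` (a nonzero generalized null vector which is an eigenvector).
-/

set_option autoImplicit false

namespace Pool.Agent.Lib.MP_640417_ag.Gn

open Matrix Pool.Agent.Lib.MP_640417_ag.Glob

variable {K : Type} [Field K] [CharZero K] {I : Type} [Fintype I] [DecidableEq I]

/-- four weights with a relation cancel in pairs -/
theorem gap_rel1 {J g c : Matrix I I K} {μ : K} (hJ : J.det ≠ 0)
    (D : WDec J g c μ) {x : Fin D.n → ℤ} (hx : GoodNum D.st x) (C : Subalgebra K (Matrix I I K))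
    (hg : Cm C g) (hc : Cm C c) (hcg : c * g = g * c) (r : ℕ)
    (hr : ∀ X, Xᵀ * J + J * X = 0 → Cm C X → r ≤ Module.finrank K (NN c X)) (N : ℕ)
    (hG : Module.finrank K (GG c g μ N) ≤ r) (a b u v : Fin D.n)
    (hk : D.k a + D.k b + D.k u + D.k v = 0)
    (hz : (D.z a * D.z b * D.z u * D.z v) ^ N = μ ^ (2 * N)) :
    (b = D.st a ∧ v = D.st u) ∨ (u = D.st a ∧ v = D.st b) ∨ (v = D.st a ∧ u = D.st b) := by
  classical
  have heq := gap_eq hJ D C hg hc hcg r hr N hG hx
  set Q := q4 (D.ε a) (D.ε b) (D.ε u) (D.ε v) with hQ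
  have hQ0 : Q ≠ 0 := q4_ne (e := ![D.ε a, D.ε b, D.ε u, D.ε v]) (fun i => by
    fin_cases i
    · exact D.ne a
    · exact D.ne b
    · exact D.ne u
    · exact D.ne v)
  have hcQ : d4 c * Q = 0 := by
    have h1 : d4 c * Q = (D.k a + D.k b + D.k u + D.k v) • Q :=
      d4_mul_q4 c ![D.ε a, D.ε b, D.ε u, D.ε v] ![D.k a, D.k b, D.k u, D.k v] (fun i => by
        fin_cases i
        · exact D.ceig a
        · exact D.ceig b
        · exact D.ceig u
        · exact D.ceig v)
    rw [h1, hk, zero_smul]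
  have hgε : ∀ a, g * D.ε a = D.ε a * g := fun a => D.comm a g rfl hcg.symm
  obtain ⟨m, hm⟩ := q4_nil (g ^ N) ![D.z a ^ N, D.z b ^ N, D.z u ^ N, D.z v ^ N]
    ![D.ε a, D.ε b, D.ε u, D.ε v] (fun i => by
      fin_cases i
      · exact D.idem a
      · exact D.idem b
      · exact D.idem u
      · exact D.idem v) (fun i => by
      have hp : ∀ a, g ^ N * D.ε a = D.ε a * g ^ N := fun a =>
        ((show Commute g (D.ε a) from hgε a).pow_left N).eq
      fin_cases i
      · exact hp a
      · exact hp b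
      · exact hp u
      · exact hp v) (fun i => by
      have hp : ∀ a, IsNilpotent ((g ^ N - (D.z a ^ N) • 1) * D.ε a) := fun a =>
        nil_pow (D.idem a) (hgε a) (D.nil a) N
      fin_cases i
      · exact hp a
      · exact hp b
      · exact hp u
      · exact hp v)
  have hmem : ∀ t, Q *ᵥ t ∈ GG c g μ N := by
    intro t
    refine ⟨?_, ?_⟩
    · rw [SetLike.mem_coe, gapA_mem]
      refine ⟨m, ?_⟩
      have h6 : μ ^ (2 * N) = D.z a ^ N * D.z b ^ N * D.z u ^ N * D.z v ^ N := by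
        rw [← hz, mul_pow, mul_pow, mul_pow]
      rw [h6, Matrix.mulVec_mulVec]
      have h7 : (k4 (g ^ N) - (D.z a ^ N * D.z b ^ N * D.z u ^ N * D.z v ^ N) • 1) ^ m * Q = 0 := hm
      rw [h7, Matrix.zero_mulVec]
    · rw [SetLike.mem_coe, LinearMap.mem_ker, Matrix.toLin'_apply, Matrix.mulVec_mulVec, hcQ,
        Matrix.zero_mulVec]
  have heig : d4 (X0 D x) * Q =
      (10 * (x a : K) + 10 * (x b : K) + 10 * (x u : K) + 10 * (x v : K)) • Q := by
    refine d4_mul_q4 (X0 D x) ![D.ε a, D.ε b, D.ε u, D.ε v]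
      ![10 * (x a : K), 10 * (x b : K), 10 * (x u : K), 10 * (x v : K)] (fun i => ?_)
    fin_cases i
    · exact (X0_eig D x a).1
    · exact (X0_eig D x b).1
    · exact (X0_eig D x u).1
    · exact (X0_eig D x v).1
  have hpow : ∀ j : ℕ, d4 (X0 D x) ^ j * Q =
      ((10 * (x a : K) + 10 * (x b : K) + 10 * (x u : K) + 10 * (x v : K)) ^ j) • Q := by
    intro j
    induction j with
    | zero => rw [pow_zero, pow_zero, one_mul, one_smul]
    | succ j ih => rw [pow_succ, mul_assoc, heig, mul_smul_comm, ih, smul_smul, pow_succ, mul_comm]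
  have hs : (10 * (x a : K) + 10 * (x b : K) + 10 * (x u : K) + 10 * (x v : K)) = 0 := by
    by_contra hs0
    apply hQ0
    apply (Matrix.toLin' (R := K) (m := I × I × I × I) (n := I × I × I × I)).injective
    rw [map_zero]
    refine LinearMap.ext fun t => ?_
    rw [Matrix.toLin'_apply, LinearMap.zero_apply]
    have h1 := hmem t
    rw [← heq] at h1
    obtain ⟨h2, -⟩ := h1
    rw [SetLike.mem_coe, gapA_mem] at h2
    obtain ⟨k, hk'⟩ := h2
    rw [zero_smul, sub_zero, Matrix.mulVec_mulVec, hpow, Matrix.smul_mulVec] at hk'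
    exact (smul_eq_zero.1 hk').resolve_left (pow_ne_zero _ hs0)
  refine hx.2 a b u v ?_
  have h2 : ((10 * (x a + x b + x u + x v) : ℤ) : K) = 0 := by
    push_cast
    linear_combination hs
  have h4 : (10 * (x a + x b + x u + x v) : ℤ) = 0 := by exact_mod_cast h2
  omega

/-- four weights with a relation cancel in pairs, without self-dual weights -/
theorem gap_rel {J g c : Matrix I I K} {μ : K} (hJ : J.det ≠ 0)
    (D : WDec J g c μ) (hne : ∀ a, D.st a ≠ a) (C : Subalgebra K (Matrix I I K))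
    (hg : Cm C g) (hc : Cm C c) (hcg : c * g = g * c) (r : ℕ)
    (hr : ∀ X, Xᵀ * J + J * X = 0 → Cm C X → r ≤ Module.finrank K (NN c X)) (N : ℕ)
    (hG : Module.finrank K (GG c g μ N) ≤ r) (a b u v : Fin D.n)
    (hk : D.k a + D.k b + D.k u + D.k v = 0)
    (hz : (D.z a * D.z b * D.z u * D.z v) ^ N = μ ^ (2 * N)) :
    (b = D.st a ∧ v = D.st u) ∨ (u = D.st a ∧ v = D.st b) ∨ (v = D.st a ∧ u = D.st b) := by
  obtain ⟨x, hx1, hx2⟩ := exists_num D.st D.st_st hne
  exact gap_rel1 hJ D ⟨hx1, hx2⟩ C hg hc hcg r hr N hG a b u v hk hz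

end Pool.Agent.Lib.MP_640417_ag.Gn
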