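import Pool.Agent.Lib.MP_640417_ag.Gn.KBas
import Pool.Agent.Lib.MP_640417_ag.Gn.Q4
import Pool.Agent.Lib.MP_640417_ag.Glob.Near

/-!
# MP_640417_ag, Gn, module NearN (250 lines): elements near a good tangent vector

As `near_good`, `near_open` in `Glob/Near.lean` (copy the proofs). `X = A - t/2`.
* `near_goodN`: suppose it is false; take a subsequence on which it always fails. First, `l^(-k) (M γ_j^2 - μ) → 2 A - t = 2 X`
  (`M^2 - 1 = (M - 1)(M + 1)`, `M → 1`; `l^(-k) (μ - 1) → t` by `lim_mult`), so `det (π0 l^(-k) (M^2 - μ) ι0) → det (2 π0 X ι0) ≠ 0`, so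
  the second part holds for large `j`. So for infinitely many `j` there is `N j > 0` such that the coefficient of degree `r` of
  the characteristic polynomial of `π ((μ^(2 N))⁻¹ k4 (M^N) - 1) ι` is zero. This matrix is `c (π E ι)` with `c = N l^k ≠ 0`, and
  `E → d4 X` (`lim_pow`, `lim_E` exactly as in `near_good`); by `coeff_smul_zero` the coefficient is zero for `π E ι`, and by
  `coeff_cont` in the limit it is zero for `π (d4 X) ι`, a contradiction. If `I` is empty: then both kernels are zero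
  dimensional or the matrices are constant; treat separately (`Nonempty I` is needed for `lim_mult`, `lim_E`; for empty `I` the type
  `I × I × I × I → F` is trivial, so `kb.n = 0`, `k0.n = 0` (from `πι`), the determinant of an empty matrix is `1` and
  the characteristic polynomial is `1`, the hypothesis `h1` gives `r = 0`).
* `near_openN`: as `near_open`.
-/

set_option autoImplicit false

namespace Pool.Agent.Lib.MP_640417_ag.Gn

open Filter Topology Matrix Pool.Agent.Lib.MP_640417_ag.Glob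

variable {F : Type} [NontriviallyNormedField F] [IsUltrametricDist F] [CompleteSpace F] [CharZero F]
  {I : Type} [Fintype I] [DecidableEq I] {Γ : Type} [Group Γ] [TopologicalSpace Γ]
  (ρ : MRep Γ F I)

/-- few relations between the eigenvalues on the kernels of `d4 c` and of `c` -/
def Few {c : Matrix I I F} (kb : KB (d4 c)) (k0 : KB c) (r : ℕ) (g : Matrix I I F) (μ : F) :
    Prop :=
  (∀ N : ℕ, 0 < N → (kb.π * ((μ ^ (2 * N))⁻¹ • k4 (g ^ N) - 1) * kb.ι).charpoly.coeff r ≠ 0) ∧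
    (k0.π * (g ^ 2 - μ • (1 : Matrix I I F)) * k0.ι).det ≠ 0

private theorem kb_empty {κ : Type} [Fintype κ] [DecidableEq κ] [IsEmpty κ] {A : Matrix κ κ F}
    (k : KB A) : IsEmpty (Fin k.n) := by
  refine ⟨fun i => ?_⟩
  have h := congrFun (congrFun k.πι i) i
  rw [Matrix.mul_apply, Finset.univ_eq_empty, Finset.sum_empty, Matrix.one_apply_eq] at h
  exact zero_ne_one h

private theorem few_empty [IsEmpty I] {c : Matrix I I F} (kb : KB (d4 c)) (k0 : KB c) (r : ℕ)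
    (X : Matrix I I F) (h1 : (kb.π * d4 X * kb.ι).charpoly.coeff r ≠ 0)
    (h2 : (k0.π * X * k0.ι).det ≠ 0) (g : Matrix I I F) (μ : F) : Few kb k0 r g μ := by
  have e1 := kb_empty kb
  have e2 := kb_empty k0
  refine ⟨fun N _ => ?_, ?_⟩
  · have h3 : kb.π * ((μ ^ (2 * N))⁻¹ • k4 (g ^ N) - 1) * kb.ι = kb.π * d4 X * kb.ι := by
      ext i
      exact e1.elim i
    rw [h3]
    exact h1
  · have h3 : k0.π * (g ^ 2 - μ • (1 : Matrix I I F)) * k0.ι = k0.π * X * k0.ι := by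
      ext i
      exact e2.elim i
    rw [h3]
    exact h2

private theorem lim_sq [Nonempty I] (J : Matrix I I F) (hJ : J.det ≠ 0) (b : ℕ → Matrix I I F)
    (c m : ℕ → F) (hc : Tendsto c atTop (𝓝 0)) (hc0 : ∀ j, c j ≠ 0)
    (hb : ∀ j, (b j)ᵀ * J * b j = m j • J) (A : Matrix I I F) (t : F)
    (hA : Aᵀ * J + J * A = t • J)
    (h : Tendsto (fun j => (c j)⁻¹ • (b j - 1)) atTop (𝓝 A)) :
    Tendsto (fun j => (c j)⁻¹ • (b j ^ 2 - m j • (1 : Matrix I I F))) atTop
      (𝓝 ((2 : F) • (A - (t / 2) • (1 : Matrix I I F)))) := by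
  have h1 := lim_mult J hJ b c m hc hc0 hb A t hA h
  have h2 : Tendsto b atTop (𝓝 1) := by
    have h3 : Tendsto (fun j => c j • ((c j)⁻¹ • (b j - 1)) + 1) atTop
        (𝓝 ((0 : F) • A + 1)) := (hc.smul h).add_const 1
    rw [zero_smul, zero_add] at h3
    refine h3.congr fun j => ?_
    rw [smul_smul, mul_inv_cancel₀ (hc0 j), one_smul, sub_add_cancel]
  have h3 : Tendsto (fun j => ((c j)⁻¹ • (b j - 1)) * (b j + 1) -
      ((c j)⁻¹ * (m j - 1)) • (1 : Matrix I I F)) atTop (𝓝 (A * (1 + 1) - t • 1)) := by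
    refine Tendsto.sub (Tendsto.mul h (h2.add_const 1)) ?_
    exact h1.smul_const 1
  have h4 : A * (1 + 1) - t • (1 : Matrix I I F) = (2 : F) • (A - (t / 2) • 1) := by
    rw [smul_sub, smul_smul, mul_add, mul_one, two_smul]
    congr 2
    field_simp
  rw [h4] at h3
  refine h3.congr fun j => ?_
  have h5 : (b j - 1) * (b j + 1) = b j ^ 2 - 1 := by
    rw [sub_mul, mul_add, mul_one, one_mul, pow_two]
    abel
  rw [Matrix.smul_mul, h5, mul_smul, ← smul_sub]
  congr 1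
  rw [sub_smul, one_smul]
  abel

theorem near_goodN (l : ℕ) [Fact l.Prime] (hl : ‖(l : F)‖ < 1) {c : Matrix I I F}
    (kb : KB (d4 c)) (k0 : KB c) (r : ℕ) (A : Matrix I I F) (t : F)
    (hA : Aᵀ * ρ.J + ρ.J * A = t • ρ.J)
    (h1 : (kb.π * d4 (A - (t / 2) • (1 : Matrix I I F)) * kb.ι).charpoly.coeff r ≠ 0)
    (h2 : (k0.π * (A - (t / 2) • (1 : Matrix I I F)) * k0.ι).det ≠ 0) (γ : ℕ → Γ) (k : ℕ → ℕ)
    (hk : Tendsto k atTop atTop)
    (h : Tendsto (fun j => ((l : F) ^ k j)⁻¹ • (ρ.M (γ j) - 1)) atTop (𝓝 A)) :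
    ∀ᶠ j in atTop, Few kb k0 r (ρ.M (γ j)) (ρ.μ (γ j) : F) := by
  by_contra hno
  rw [not_eventually] at hno
  obtain ⟨φ, hφ, hbad⟩ := extraction_of_frequently_atTop hno
  have hk' : Tendsto (fun j => k (φ j)) atTop atTop := hk.comp hφ.tendsto_atTop
  have h' : Tendsto (fun j => ((l : F) ^ k (φ j))⁻¹ • (ρ.M (γ (φ j)) - 1)) atTop (𝓝 A) :=
    h.comp hφ.tendsto_atTop
  rcases isEmpty_or_nonempty I with hI | hI
  · exact hbad 0 (few_empty kb k0 r _ h1 h2 _ _)
  have hl0 : (l : F) ≠ 0 := Nat.cast_ne_zero.mpr (Fact.out (p := l.Prime)).ne_zero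
  have hpow : Tendsto (fun j => ‖(l : F)‖ ^ k (φ j)) atTop (𝓝 0) :=
    (tendsto_pow_atTop_nhds_zero_of_lt_one (norm_nonneg _) hl).comp hk'
  have hc1 : Tendsto (fun j => (l : F) ^ k (φ j)) atTop (𝓝 0) := by
    refine squeeze_zero_norm (fun j => ?_) hpow
    rw [norm_pow]
  have hsq := lim_sq ρ.J ρ.det (fun j => ρ.M (γ (φ j))) (fun j => (l : F) ^ k (φ j))
    (fun j => (ρ.μ (γ (φ j)) : F)) hc1 (fun j => pow_ne_zero _ hl0) (fun j => ρ.eq _) A t hA h'
  have hdetc : Continuous fun Y : Matrix I I F => (k0.π * Y * k0.ι).det :=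
    ((continuous_const.matrix_mul continuous_id).matrix_mul continuous_const).matrix_det
  have hdl := (hdetc.tendsto _).comp hsq
  have hdne : (k0.π * ((2 : F) • (A - (t / 2) • (1 : Matrix I I F))) * k0.ι).det ≠ 0 := by
    rw [Matrix.mul_smul, Matrix.smul_mul, Matrix.det_smul]
    exact mul_ne_zero (pow_ne_zero _ two_ne_zero) h2
  obtain ⟨j0, hj0⟩ := eventually_atTop.mp (hdl.eventually_ne hdne)
  have hexN : ∀ j, ∃ N : ℕ, 0 < N ∧ (j0 ≤ j → (kb.π * (((ρ.μ (γ (φ j)) : F) ^ (2 * N))⁻¹ •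
      k4 (ρ.M (γ (φ j)) ^ N) - 1) * kb.ι).charpoly.coeff r = 0) := by
    intro j
    by_cases hj : j0 ≤ j
    · by_contra hN
      push Not at hN
      apply hbad j
      refine ⟨fun N hN0 => (hN N hN0).2, fun h3 => hj0 j hj ?_⟩
      change (k0.π * (((l : F) ^ k (φ j))⁻¹ • (ρ.M (γ (φ j)) ^ 2 -
        (ρ.μ (γ (φ j)) : F) • (1 : Matrix I I F))) * k0.ι).det = 0
      rw [Matrix.mul_smul, Matrix.smul_mul, Matrix.det_smul, h3, mul_zero]
    · exact ⟨1, one_pos, fun h3 => absurd h3 hj⟩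
  choose N hN0 hNc using hexN
  have hlim := lim_pow l hl (fun j => ρ.M (γ (φ j))) (fun j => k (φ j)) N hk' hN0 A h'
  have hc0 : ∀ j, (N j : F) * (l : F) ^ k (φ j) ≠ 0 := fun j =>
    mul_ne_zero (Nat.cast_ne_zero.mpr (hN0 j).ne') (pow_ne_zero _ hl0)
  have hc : Tendsto (fun j => (N j : F) * (l : F) ^ k (φ j)) atTop (𝓝 0) := by
    refine squeeze_zero_norm (fun j => ?_) hpow
    rw [norm_mul, norm_pow]
    have h3 := norm_nat_le (F := F) (N j)
    have h4 : 0 ≤ ‖(l : F)‖ ^ k (φ j) := by positivity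
    nlinarith
  have hE := lim_E ρ.J ρ.det (fun j => ρ.M (γ (φ j)) ^ N j)
    (fun j => (N j : F) * (l : F) ^ k (φ j)) (fun j => (ρ.μ (γ (φ j)) : F) ^ N j) hc hc0
    (fun j => pow_ne_zero _ (Units.ne_zero _))
    (fun j => by
      have h3 := ρ.eq (γ (φ j) ^ N j)
      rw [map_pow, map_pow] at h3
      rw [h3, Units.val_pow_eq_pow_val])
    A t hA hlim
  have hco : Continuous fun Y : Matrix (I × I × I × I) (I × I × I × I) F =>
      (kb.π * Y * kb.ι).charpoly.coeff r :=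
    (coeff_cont (F := F) (κ := Fin kb.n) r).comp
      ((continuous_const.matrix_mul continuous_id).matrix_mul continuous_const)
  have hcoef := (hco.tendsto _).comp hE
  have hzero : ∀ j, j0 ≤ j → (kb.π * (((N j : F) * (l : F) ^ k (φ j))⁻¹ •
      ((((ρ.μ (γ (φ j)) : F) ^ N j) ^ 2)⁻¹ • k4 (ρ.M (γ (φ j)) ^ N j) - 1)) *
        kb.ι).charpoly.coeff r = 0 := by
    intro j hj
    apply coeff_smul_zero r ((N j : F) * (l : F) ^ k (φ j)) (hc0 j)
    rw [Matrix.mul_smul, Matrix.smul_mul, smul_smul, mul_inv_cancel₀ (hc0 j), one_smul]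
    have h3 := hNc j hj
    rw [mul_comm 2 (N j), pow_mul] at h3
    exact h3
  apply h1
  have h3 : Tendsto (fun _ : ℕ => (0 : F)) atTop
      (𝓝 ((kb.π * d4 (A - (t / 2) • (1 : Matrix I I F)) * kb.ι).charpoly.coeff r)) := by
    refine hcoef.congr' ?_
    filter_upwards [eventually_ge_atTop j0] with j hj
    exact hzero j hj
  exact (tendsto_nhds_unique h3 tendsto_const_nhds)

/-- the matrices near `A` at the scale `k` -/
private def nearSet (l : ℕ) (A : Matrix I I F) (ε : ℝ) (k : ℕ) : Set Γ :=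
  {γ | ∀ i j, ‖(((l : F) ^ k)⁻¹ • (ρ.M γ - 1) - A) i j‖ < ε}

private theorem isOpen_nearSet (l : ℕ) (A : Matrix I I F) (ε : ℝ) (k : ℕ) :
    IsOpen (nearSet ρ l A ε k) := by
  have h : nearSet ρ l A ε k =
      ⋂ i, ⋂ j, {γ | ‖(((l : F) ^ k)⁻¹ • (ρ.M γ - 1) - A) i j‖ < ε} := by
    ext γ
    simp [nearSet]
  rw [h]
  refine isOpen_iInter_of_finite fun i => isOpen_iInter_of_finite fun j => ?_
  refine isOpen_lt ?_ continuous_const
  have e1 : Continuous fun γ : Γ => ρ.M γ := ρ.cont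
  have e2 : Continuous fun γ : Γ => ρ.M γ - 1 := e1.sub continuous_const
  have e3 : Continuous fun γ : Γ => ((l : F) ^ k)⁻¹ • (ρ.M γ - 1) :=
    (continuous_const_smul (((l : F) ^ k)⁻¹)).comp e2
  have h1 : Continuous fun γ : Γ => ((l : F) ^ k)⁻¹ • (ρ.M γ - 1) - A := e3.sub continuous_const
  exact ((continuous_apply j).comp ((continuous_apply i).comp h1)).norm

theorem near_openN (l : ℕ) [Fact l.Prime] (hl : ‖(l : F)‖ < 1) {c : Matrix I I F}
    (kb : KB (d4 c)) (k0 : KB c) (r : ℕ) (A : Matrix I I F) (hAZ : A ∈ ρ.Zt l) (t : F)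
    (hA : Aᵀ * ρ.J + ρ.J * A = t • ρ.J)
    (h1 : (kb.π * d4 (A - (t / 2) • (1 : Matrix I I F)) * kb.ι).charpoly.coeff r ≠ 0)
    (h2 : (k0.π * (A - (t / 2) • (1 : Matrix I I F)) * k0.ι).det ≠ 0) :
    ∃ O : Set Γ, IsOpen O ∧ O.Nonempty ∧ ∀ γ ∈ O, Few kb k0 r (ρ.M γ) (ρ.μ γ : F) := by
  have hex : ∃ n : ℕ, ∀ k, n ≤ k → ∀ γ ∈ nearSet ρ l A (1 / ((n : ℝ) + 1)) k,
      Few kb k0 r (ρ.M γ) (ρ.μ γ : F) := by
    by_contra hno
    push Not at hno
    choose k hk γ hγ hbad using hno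
    have hkt : Tendsto k atTop atTop := tendsto_atTop_mono hk tendsto_id
    have hlim : Tendsto (fun j => ((l : F) ^ k j)⁻¹ • (ρ.M (γ j) - 1)) atTop (𝓝 A) := by
      refine tendsto_pi_nhds.mpr fun x => tendsto_pi_nhds.mpr fun y => ?_
      rw [tendsto_iff_norm_sub_tendsto_zero]
      refine squeeze_zero (fun j => norm_nonneg _) (fun j => ?_)
        (tendsto_one_div_add_atTop_nhds_zero_nat (𝕜 := ℝ))
      exact (hγ j x y).le
    obtain ⟨j, hj⟩ := (near_goodN ρ l hl kb k0 r A t hA h1 h2 γ k hkt hlim).exists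
    exact hbad j hj
  obtain ⟨n, hn⟩ := hex
  obtain ⟨γ, hγ⟩ := hAZ
  have hev : ∀ᶠ k in atTop, γ k ∈ nearSet ρ l A (1 / ((n : ℝ) + 1)) k := by
    unfold nearSet
    simp only [Set.mem_ofPred_eq]
    rw [eventually_all]
    intro x
    rw [eventually_all]
    intro y
    have h3 := (tendsto_pi_nhds.mp ((tendsto_pi_nhds.mp hγ) x)) y
    rw [tendsto_iff_norm_sub_tendsto_zero] at h3
    exact h3.eventually_lt_const (by positivity)
  obtain ⟨k, hk1, hk2⟩ := (hev.and (eventually_ge_atTop n)).exists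
  exact ⟨nearSet ρ l A (1 / ((n : ℝ) + 1)) k, isOpen_nearSet ρ l A _ k, ⟨γ k, hk1⟩, hn k hk2⟩

end Pool.Agent.Lib.MP_640417_ag.Gn
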