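import Pool.Agent.Lib.MP_640417_ag.Gn.DefM
import Pool.Agent.Lib.MP_640417_ag.Gn.GapR
import Pool.Agent.Lib.MP_640417_ag.Gn.GapI
import Pool.Agent.Lib.MP_640417_ag.Gn.CC
import Pool.Agent.Lib.MP_640417_ag.Gn.NearN
import Pool.Agent.Lib.MP_640417_ag.Ty.RegK
import Pool.Agent.Lib.MP_640417_ag.Ty.KRect

/-!
# MP_640417_ag, Gn, module GoodK (300 lines): few relations imply good

`g = (M γ).map`, `J' = J.map`, `μ'` the image of `μ γ`, `c' = c.map`, `C = cK ρ K` (`Ty/SpanK.lean`; regular by `reg_K`, stable under `adj`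
by `inCK_adj`, commuting with `g` by `inCK_full`, with `c'` by `inCK_span`, as `c ∈ Zm`).
* `D : WDec J' g c' μ'` from `exists_wdec` (`zm_ss`).
* `hne`: if `D.st a = a` then `z a ^ 2 = μ'`, `k a = 0`, so the range of `ε a` is in the kernel of `c'`, which has the basis
  `k0.map K`, and `g^2 - μ'` is nilpotent on the range of `ε a ≠ 0`, so its matrix `π0 (g^2 - μ') ι0` is singular
  (`kb_comm`), a contradiction to the second part of `Few` (map to `K`).
* `dim GG ≤ r` for all `N > 0`: `nul_le` for `kb.map K` and `B = (μ^(2N))⁻¹ k4 (g^N) - 1` (`k4_map`; the coefficient of the characteristic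
  polynomial over `K` is the image of the one over `F`), and the generalized kernel of `B` is the generalized eigenspace of
  `k4 (g^N)` for `μ^(2N)`.
* Let `v ≠ 0` be in `WtM z κ`. `D.mem` (for `k = κ c`) gives `a` with `z a = z`, `k a = κ c`, `ε a v = v`; `a` is the same for all
  `v` (`D.inj`). So `WtM z κ ≤ range (ε a)`. The space `WtM z κ` is stable under `C` (elements of `C` commute with `g` and with
  all `z.map`, `z ∈ Zm`), so by `gap_irr` it is the range of `ε a` if it is not zero, and all stable subspaces `N` of it are `⊥` or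
  everything (stable under all `b.map`, `b` in the commutant, so under `C` by `inCK_span`).
* not self-dual: `z a ^ 2 = μ'`, `2 k a = 0` imply `D.st a = a` by `D.inj`, `D.zdual`, `D.kdual`, which is excluded by `hne`.
* relations: `gap_rel`. If `a2 = D.st a1` then for `x ∈ Zm`: `x' = x.map` acts as `κ x` on the range of `ε a1`, so
  `x' ε a1 = κ x • ε a1`; apply `adj`: `adj x' = - x'` (`adj_skew`), so `- ε (a2) x' = κ x • ε a2`, `x'` commutes with `ε a2` (`D.comm`), and
  `x'` acts as `κ₂ x` on the range of `ε a2 ≠ 0`, so `κ₂ x = - κ x`.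
-/

set_option autoImplicit false

namespace Pool.Agent.Lib.MP_640417_ag.Gn

open Matrix Module Pool.Agent.Lib.MP_640417_ag.Glob Pool.Agent.Lib.MP_640417_ag.Ctl
  Pool.Agent.Lib.MP_640417_ag.Ty

/-! ### Linear algebra -/

section alg

variable {K : Type} [Field K] {I : Type} [Fintype I] [DecidableEq I]

/-- the generalized kernel of `u⁻¹ A - 1` -/
private theorem gk_scale {κ : Type} [Fintype κ] [DecidableEq κ] (A : Matrix κ κ K) (u : K)
    (hu : u ≠ 0) : Module.End.maxGenEigenspace (Matrix.toLin' (u⁻¹ • A - 1)) 0 =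
      Module.End.maxGenEigenspace (Matrix.toLin' A) u := by
  ext t
  rw [gapA_mem, gapA_mem]
  have h1 : u⁻¹ • A - 1 - (0 : K) • (1 : Matrix κ κ K) = u⁻¹ • (A - u • 1) := by
    rw [zero_smul, sub_zero, smul_sub, smul_smul, inv_mul_cancel₀ hu, one_smul]
  constructor
  · rintro ⟨k, hk⟩
    refine ⟨k, ?_⟩
    rw [h1, smul_pow, Matrix.smul_mulVec] at hk
    exact (smul_eq_zero.mp hk).resolve_left (pow_ne_zero k (inv_ne_zero hu))
  · rintro ⟨k, hk⟩
    refine ⟨k, ?_⟩
    rw [h1, smul_pow, Matrix.smul_mulVec, hk, smul_zero]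

/-- a self-dual weight -/
private theorem gk_selfdual [CharZero K] {J g c : Matrix I I K} {μ : K} (D : WDec J g c μ)
    (k0 : KB c) (hdet : (k0.π * (g ^ 2 - μ • (1 : Matrix I I K)) * k0.ι).det ≠ 0)
    (a : Fin D.n) : D.st a ≠ a := by
  intro ha
  have hz := D.zdual a
  have hk := D.kdual a
  rw [ha] at hz hk
  have hk0 : D.k a = 0 := by
    have h2 : (2 : K) * D.k a = 0 := by rw [two_mul]; exact hk
    exact (mul_eq_zero.mp h2).resolve_left two_ne_zero
  have hcε : c * D.ε a = 0 := by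
    rw [D.ceig, hk0, zero_smul]
  have hεg : D.ε a * g = g * D.ε a := (D.comm a g rfl D.cg.symm).symm
  have hA : c * (g ^ 2 - μ • (1 : Matrix I I K)) = (g ^ 2 - μ • (1 : Matrix I I K)) * c := by
    have h1 : Commute c g := D.cg
    have h2 : c * g ^ 2 = g ^ 2 * c := h1.pow_right 2
    rw [mul_sub, sub_mul, h2, mul_smul_comm, smul_mul_assoc, mul_one, one_mul]
  -- `A ε` is nilpotent
  have hnil : IsNilpotent ((g ^ 2 - μ • (1 : Matrix I I K)) * D.ε a) := by
    have h0 : (g + D.z a • 1) * (g - D.z a • 1) =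
        g ^ 2 - (D.z a * D.z a) • (1 : Matrix I I K) := by
      rw [add_mul, mul_sub, mul_sub]
      simp only [smul_mul_assoc, mul_smul_comm, one_mul, mul_one, smul_smul]
      rw [sq]
      abel
    have h1 : (g ^ 2 - μ • (1 : Matrix I I K)) * D.ε a =
        (g + D.z a • 1) * ((g - D.z a • 1) * D.ε a) := by
      rw [← mul_assoc, h0, hz]
    rw [h1]
    refine Commute.isNilpotent_mul_left ?_ (D.nil a)
    show (g + D.z a • 1) * ((g - D.z a • 1) * D.ε a) = (g - D.z a • 1) * D.ε a * (g + D.z a • 1)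
    have h2 : D.ε a * (g + D.z a • 1) = (g + D.z a • 1) * D.ε a := by
      rw [mul_add, add_mul, hεg, mul_smul_comm, smul_mul_assoc, one_mul, mul_one]
    rw [mul_assoc, h2, ← mul_assoc, ← mul_assoc]
    congr 1
    rw [add_mul, mul_sub, mul_sub, sub_mul, mul_add, mul_add]
    simp only [smul_mul_assoc, mul_smul_comm, one_mul, mul_one, smul_smul]
    abel
  obtain ⟨m, hm⟩ := hnil
  have hcomm : Commute (g ^ 2 - μ • (1 : Matrix I I K)) (D.ε a) := by
    show (g ^ 2 - μ • (1 : Matrix I I K)) * D.ε a = D.ε a * (g ^ 2 - μ • (1 : Matrix I I K))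
    have h1 : Commute (D.ε a) g := hεg
    have h2 : D.ε a * g ^ 2 = g ^ 2 * D.ε a := h1.pow_right 2
    rw [mul_sub, sub_mul, h2, mul_smul_comm, smul_mul_assoc, mul_one, one_mul]
  have hεp : ∀ m : ℕ, D.ε a ^ m * D.ε a = D.ε a := by
    intro m
    induction m with
    | zero => rw [pow_zero, one_mul]
    | succ m ih => rw [pow_succ, mul_assoc, D.idem, ih]
  have hAm : (g ^ 2 - μ • (1 : Matrix I I K)) ^ m * D.ε a = 0 := by
    have h1 : ((g ^ 2 - μ • (1 : Matrix I I K)) * D.ε a) ^ m * D.ε a = 0 := by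
      rw [hm, zero_mul]
    rw [hcomm.mul_pow, mul_assoc, hεp] at h1
    exact h1
  -- the matrix on the kernel
  set B := k0.π * (g ^ 2 - μ • (1 : Matrix I I K)) * k0.ι with hB
  have hι : (g ^ 2 - μ • (1 : Matrix I I K)) * k0.ι = k0.ι * B := kb_comm k0 hA
  have hιm : ∀ m : ℕ, (g ^ 2 - μ • (1 : Matrix I I K)) ^ m * k0.ι = k0.ι * B ^ m := by
    intro m
    induction m with
    | zero => rw [pow_zero, pow_zero, Matrix.one_mul, Matrix.mul_one]
    | succ m ih =>
      rw [pow_succ, Matrix.mul_assoc, hι, ← Matrix.mul_assoc, ih, Matrix.mul_assoc, ← pow_succ]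
  have hεw : D.ε a = k0.ι * (k0.π * D.ε a) := by
    have h1 : (k0.ι * k0.π + k0.R * c) * D.ε a = D.ε a := by
      rw [k0.res, one_mul]
    rw [add_mul, mul_assoc k0.R, hcε, mul_zero, add_zero, Matrix.mul_assoc] at h1
    exact h1.symm
  have hW : B ^ m * (k0.π * D.ε a) = 0 := by
    rw [hεw, ← Matrix.mul_assoc, hιm, Matrix.mul_assoc] at hAm
    have h1 := congrArg (fun X => k0.π * X) hAm
    rw [← Matrix.mul_assoc, k0.πι, Matrix.one_mul, Matrix.mul_zero] at h1
    exact h1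
  have hu : IsUnit (B ^ m) := by
    refine IsUnit.pow m ?_
    rw [Matrix.isUnit_iff_isUnit_det]
    exact isUnit_iff_ne_zero.mpr hdet
  have hW0 : k0.π * D.ε a = 0 := by
    obtain ⟨u, hu⟩ := hu
    rw [← hu] at hW
    have h1 : ((u⁻¹ : (Matrix (Fin k0.n) (Fin k0.n) K)ˣ) : Matrix (Fin k0.n) (Fin k0.n) K) *
        ((u : Matrix (Fin k0.n) (Fin k0.n) K) * (k0.π * D.ε a)) = 0 := by
      rw [hW, Matrix.mul_zero]
    rw [← Matrix.mul_assoc, Units.inv_mul, Matrix.one_mul] at h1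
    exact h1
  apply D.ne a
  rw [hεw, hW0, Matrix.mul_zero]

end alg

variable {F : Type} [NontriviallyNormedField F] [IsUltrametricDist F] [CompleteSpace F] [CharZero F]
  {I : Type} [Fintype I] [DecidableEq I] {Γ : Type} [Group Γ] [TopologicalSpace Γ]
  [IsTopologicalGroup Γ] [CompactSpace Γ] (ρ : MRep Γ F I) (K : Type) [Field K] [Algebra F K]
  [IsAlgClosed K]

omit [IsUltrametricDist F] [CompleteSpace F] [IsTopologicalGroup Γ] [CompactSpace Γ]
  [IsAlgClosed K] in
/-- elements of the commutant over `K` commute with `Zm` -/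
private theorem gk_zm {x : Matrix I I F} (hx : x ∈ Zm ρ) {b : Matrix I I K} (hb : InCK ρ K b) :
    x.map (algebraMap F K) * b = b * x.map (algebraMap F K) := by
  have h1 := inCK_span ρ K hb
  clear hb
  induction h1 using Submodule.span_induction with
  | mem y hy =>
    obtain ⟨d, hd, rfl⟩ := hy
    rw [← Matrix.map_mul, hx.2.1 d hd, Matrix.map_mul]
  | zero => rw [mul_zero, zero_mul]
  | add y z _ _ hy hz => rw [mul_add, add_mul, hy, hz]
  | smul r y _ hy => rw [mul_smul_comm, smul_mul_assoc, hy]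

omit [IsUltrametricDist F] [CompleteSpace F] [IsTopologicalGroup Γ] [CompactSpace Γ]
  [IsAlgClosed K] in
/-- weight spaces are stable under the commutant over `K` -/
private theorem gk_stable (hfull : Full0 ρ) {γ : Γ} {z : K} {κ : Matrix I I F → K}
    {b : Matrix I I K} (hb : InCK ρ K b) {v : I → K} (hv : v ∈ WtM ρ K γ z κ) :
    b *ᵥ v ∈ WtM ρ K γ z κ := by
  refine ⟨?_, ?_⟩
  · have h1 := hv.1
    rw [SetLike.mem_coe, gapA_mem] at h1 ⊢
    obtain ⟨k, hk⟩ := h1
    refine ⟨k, ?_⟩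
    have h2 : Commute ((ρ.M γ).map (algebraMap F K) - z • 1) b := by
      show _ * _ = _ * _
      rw [sub_mul, mul_sub, inCK_full ρ K hfull hb γ, smul_mul_assoc, mul_smul_comm, one_mul,
        mul_one]
    have h3 := (h2.pow_left k).eq
    rw [Matrix.mulVec_mulVec, h3, ← Matrix.mulVec_mulVec, hk, Matrix.mulVec_zero]
  · have h1 := hv.2
    rw [SetLike.mem_coe, Submodule.mem_iInf] at h1 ⊢
    intro x
    have h2 := h1 x
    rw [Module.End.mem_eigenspace_iff, Matrix.toLin'_apply] at h2 ⊢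
    rw [Matrix.mulVec_mulVec, gk_zm ρ K x.2 hb, ← Matrix.mulVec_mulVec, h2, Matrix.mulVec_smul]

/-- The general form: it is enough that every relation between four eigenvalues with some exponent holds with an
exponent `N'` for which the coefficient is not zero. -/
theorem good_gen (hsemi : ρ.Semi) (hfull : Full0 ρ) {c : Matrix I I F} (hc : c ∈ Zm ρ)
    (kb : KB (d4 c)) (k0 : KB c) (r : ℕ)
    (hr : ∀ X : Matrix I I K, Xᵀ * ρ.J.map (algebraMap F K) + ρ.J.map (algebraMap F K) * X = 0 →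
        (∀ b, InCK ρ K b → X * b = b * X) →
          r ≤ Module.finrank K (NN (c.map (algebraMap F K)) X)) (γ : Γ)
    (hγ1 : (kb.π * ((((ρ.μ γ : F)) ^ (2 * 1))⁻¹ • k4 ((ρ.M γ) ^ 1) - 1) *
      kb.ι).charpoly.coeff r ≠ 0)
    (hγ2 : (k0.π * ((ρ.M γ) ^ 2 - (ρ.μ γ : F) • (1 : Matrix I I F)) * k0.ι).det ≠ 0)
    (hγ : ∀ N : ℕ, 0 < N → ∀ z₁ z₂ z₃ z₄ : K,
      Module.End.maxGenEigenspace (Matrix.toLin' ((ρ.M γ).map (algebraMap F K))) z₁ ≠ ⊥ →
      Module.End.maxGenEigenspace (Matrix.toLin' ((ρ.M γ).map (algebraMap F K))) z₂ ≠ ⊥ →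
      Module.End.maxGenEigenspace (Matrix.toLin' ((ρ.M γ).map (algebraMap F K))) z₃ ≠ ⊥ →
      Module.End.maxGenEigenspace (Matrix.toLin' ((ρ.M γ).map (algebraMap F K))) z₄ ≠ ⊥ →
      (z₁ * z₂ * z₃ * z₄) ^ N = (algebraMap F K (ρ.μ γ : F)) ^ (2 * N) →
      ∃ N' : ℕ, 0 < N' ∧ (z₁ * z₂ * z₃ * z₄) ^ N' = (algebraMap F K (ρ.μ γ : F)) ^ (2 * N') ∧
        (kb.π * ((((ρ.μ γ : F)) ^ (2 * N'))⁻¹ • k4 ((ρ.M γ) ^ N') - 1) *
          kb.ι).charpoly.coeff r ≠ 0) : GoodM ρ K γ := by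
  classical
  have hchar : CharZero K := charZero_of_injective_algebraMap (algebraMap F K).injective
  set φ := algebraMap F K with hφ
  set g := (ρ.M γ).map φ with hg
  set J' := ρ.J.map φ with hJ'
  set μ' := φ (ρ.μ γ : F) with hμ'
  set c' := c.map φ with hc'
  have hJdet : J'.det ≠ 0 := by
    have e : J'.det = φ ρ.J.det := by
      rw [hJ', RingHom.map_det, RingHom.mapMatrix_apply]
    rw [e]
    exact (map_ne_zero φ).mpr ρ.det
  have hJs : J'ᵀ = -J' := by
    have h1 := congrArg (fun X : Matrix I I F => X.map φ) (J_skew ρ)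
    rw [Matrix.transpose_map] at h1
    rw [hJ', h1]
    ext i j
    simp
  have hμ0 : μ' ≠ 0 := (map_ne_zero φ).mpr (ρ.μ γ).ne_zero
  have hgJ : gᵀ * J' * g = μ' • J' := by
    have h1 := congrArg (fun X : Matrix I I F => X.map φ) (ρ.eq γ)
    rw [Matrix.map_mul, Matrix.map_mul, Matrix.transpose_map] at h1
    rw [hg, hJ', h1]
    ext i j
    simp [hμ']
  have hskew : ∀ x ∈ Zm ρ, (x.map φ)ᵀ * J' + J' * x.map φ = 0 := by
    intro x hx
    have h1 := congrArg (fun X : Matrix I I F => X.map φ) (mem_spJ.mp hx.2.2)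
    rw [Matrix.map_add _ (fun a b => map_add φ a b), Matrix.map_mul, Matrix.map_mul,
      Matrix.transpose_map, Matrix.map_zero _ (map_zero φ)] at h1
    exact h1
  have hzg : ∀ x ∈ Zm ρ, x.map φ * g = g * x.map φ := by
    intro x hx
    rw [hg, ← Matrix.map_mul, ← hfull x hx.1 γ, Matrix.map_mul]
  have hcg : c' * g = g * c' := hzg c hc
  obtain ⟨D⟩ := exists_wdec J' g c' μ' hJdet hJs hμ0 hgJ (hskew c hc) hcg (zm_ss ρ hsemi hc K)
  -- no self-dual weights
  have hne : ∀ a, D.st a ≠ a := by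
    intro a
    refine gk_selfdual D (k0.map K) ?_ a
    have h1 : k0.π.map φ * (g ^ 2 - μ' • (1 : Matrix I I K)) * k0.ι.map φ =
        (k0.π * ((ρ.M γ) ^ 2 - (ρ.μ γ : F) • (1 : Matrix I I F)) * k0.ι).map φ := by
      rw [Matrix.map_mul, Matrix.map_mul, Matrix.map_sub _ (fun a b => map_sub φ a b)]
      have h2 : ((ρ.M γ) ^ 2).map φ = g ^ 2 := by
        rw [sq, sq, Matrix.map_mul]
      have h3 : ((ρ.μ γ : F) • (1 : Matrix I I F)).map φ = μ' • (1 : Matrix I I K) := by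
        ext i j
        rw [Matrix.map_apply, Matrix.smul_apply, Matrix.smul_apply, smul_eq_mul, smul_eq_mul,
          map_mul]
        congr 1
        by_cases hij : i = j
        · rw [hij, Matrix.one_apply_eq, Matrix.one_apply_eq, map_one]
        · rw [Matrix.one_apply_ne hij, Matrix.one_apply_ne hij, map_zero]
      rw [h2, h3]
    show (k0.π.map φ * (g ^ 2 - μ' • (1 : Matrix I I K)) * k0.ι.map φ).det ≠ 0
    rw [h1]
    have h2 : ((k0.π * ((ρ.M γ) ^ 2 - (ρ.μ γ : F) • (1 : Matrix I I F)) * k0.ι).map φ).det =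
        φ (k0.π * ((ρ.M γ) ^ 2 - (ρ.μ γ : F) • (1 : Matrix I I F)) * k0.ι).det := by
      rw [RingHom.map_det, RingHom.mapMatrix_apply]
    rw [h2]
    exact (map_ne_zero φ).mpr hγ2
  -- few relations
  have hG : ∀ N : ℕ, 0 < N →
      (kb.π * ((((ρ.μ γ : F)) ^ (2 * N))⁻¹ • k4 ((ρ.M γ) ^ N) - 1) * kb.ι).charpoly.coeff r ≠ 0 →
      Module.finrank K (GG c' g μ' N) ≤ r := by
    intro N hN hNc
    have hB : (((ρ.μ γ : F) ^ (2 * N))⁻¹ • k4 ((ρ.M γ) ^ N) - 1).map φ =
        (μ' ^ (2 * N))⁻¹ • k4 (g ^ N) - 1 := by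
      have h2 : ((ρ.M γ) ^ N).map φ = g ^ N := by
        have := map_pow (RingHom.mapMatrix φ : Matrix I I F →+* Matrix I I K) (ρ.M γ) N
        exact this
      rw [Matrix.map_sub _ (fun a b => map_sub φ a b), Matrix.map_one _ (map_zero φ) (map_one φ)]
      congr 1
      have h3 := k4_map φ ((ρ.M γ) ^ N)
      rw [h2] at h3
      rw [← h3]
      ext i j
      rw [Matrix.map_apply, Matrix.smul_apply, Matrix.smul_apply, Matrix.map_apply, smul_eq_mul,
        smul_eq_mul, map_mul, map_inv₀, map_pow]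
    have hd : (d4 c).map φ = d4 c' := d4_map φ c
    have hcN : Commute c' (g ^ N) := Commute.pow_right hcg N
    have hcomm : (d4 c).map φ * ((μ' ^ (2 * N))⁻¹ • k4 (g ^ N) - 1) =
        ((μ' ^ (2 * N))⁻¹ • k4 (g ^ N) - 1) * (d4 c).map φ := by
      rw [hd, mul_sub, sub_mul, mul_smul_comm, smul_mul_assoc, d4_k4_comm hcN.eq, mul_one, one_mul]
    have h1 := nul_le (kb.map K) hcomm (m := r) (by
      have h4 : kb.π.map φ * ((μ' ^ (2 * N))⁻¹ • k4 (g ^ N) - 1) * kb.ι.map φ =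
          (kb.π * (((ρ.μ γ : F) ^ (2 * N))⁻¹ • k4 ((ρ.M γ) ^ N) - 1) * kb.ι).map φ := by
        rw [Matrix.map_mul, Matrix.map_mul, hB]
      show (kb.π.map φ * ((μ' ^ (2 * N))⁻¹ • k4 (g ^ N) - 1) * kb.ι.map φ).charpoly.coeff r ≠ 0
      rw [h4, Matrix.charpoly_map, Polynomial.coeff_map]
      exact (map_ne_zero φ).mpr hNc)
    rw [hd, gk_scale _ _ (pow_ne_zero _ hμ0)] at h1
    exact h1
  -- the algebra
  have hC : Rg (cK ρ K) := by
    intro b hb
    obtain ⟨x, hx, h⟩ := reg_K ρ K hsemi hb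
    exact ⟨x, hx, h⟩
  have hCa : ∀ b ∈ cK ρ K, adj J' b ∈ cK ρ K := fun b hb => inCK_adj ρ K hb
  have hCg : Cm (cK ρ K) g := fun b hb => inCK_full ρ K hfull hb γ
  have hCc : Cm (cK ρ K) c' := fun b hb => gk_zm ρ K hc hb
  have hr' : ∀ X, Xᵀ * J' + J' * X = 0 → Cm (cK ρ K) X → r ≤ Module.finrank K (NN c' X) :=
    fun X h1 h2 => hr X h1 h2
  have hirr := gap_irr hJdet hJs D hne (cK ρ K) hC hCa hCg hCc hcg r hr' 1 (hG 1 one_pos hγ1)
  -- weight spaces
  have key : ∀ z κ, WtM ρ K γ z κ ≠ ⊥ → ∃ a, D.z a = z ∧ D.k a = κ c ∧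
      (∀ v ∈ WtM ρ K γ z κ, D.ε a *ᵥ v = v) ∧
      WtM ρ K γ z κ = LinearMap.range (Matrix.toLin' (D.ε a)) := by
    intro z κ hW
    have hmem : ∀ v ∈ WtM ρ K γ z κ, v ≠ 0 → ∃ a, D.z a = z ∧ D.k a = κ c ∧ D.ε a *ᵥ v = v := by
      intro v hv hv0
      refine D.mem hv0 hv.1 ?_
      have h1 := hv.2
      rw [SetLike.mem_coe, Submodule.mem_iInf] at h1
      have h2 := h1 ⟨c, hc⟩
      rw [Module.End.mem_eigenspace_iff, Matrix.toLin'_apply] at h2
      exact h2
    obtain ⟨v0, hv0, hv0'⟩ := Submodule.exists_mem_ne_zero_of_ne_bot hW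
    obtain ⟨a, ha1, ha2, ha3⟩ := hmem v0 hv0 hv0'
    have hall : ∀ v ∈ WtM ρ K γ z κ, D.ε a *ᵥ v = v := by
      intro v hv
      by_cases h0 : v = 0
      · rw [h0, Matrix.mulVec_zero]
      · obtain ⟨b, hb1, hb2, hb3⟩ := hmem v hv h0
        have : a = b := D.inj a b (ha1.trans hb1.symm) (ha2.trans hb2.symm)
        rw [this]
        exact hb3
    refine ⟨a, ha1, ha2, hall, ?_⟩
    rcases hirr a (WtM ρ K γ z κ) (fun b hb v hv => gk_stable ρ K hfull hb hv) hall with h | h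
    · exact absurd h hW
    · exact h
  refine ⟨fun b hb => hfull b hb γ, fun z κ hW => ?_⟩
  obtain ⟨a, ha1, ha2, ha3, ha4⟩ := key z κ hW
  refine ⟨?_, ?_, ?_⟩
  · rintro ⟨h1, h2⟩
    apply hne a
    apply D.inj
    · have h3 := D.zdual a
      have hz0 : D.z a ≠ 0 := by
        intro h4
        rw [h4, zero_mul] at h3
        exact hμ0 h3.symm
      refine mul_left_cancel₀ hz0 ?_
      rw [h3, ha1]
      exact h1.symm
    · have h3 := D.kdual a
      have h4 := h2 c hc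
      rw [← ha2] at h4
      have h5 : D.k a = 0 := by
        have h6 : (2 : K) * D.k a = 0 := by rw [two_mul]; exact h4
        exact (mul_eq_zero.mp h6).resolve_left two_ne_zero
      rw [h5, zero_add] at h3
      rw [h3, h5]
  · intro N hN hNs
    rw [ha4]
    refine hirr a N ?_ (fun v hv => ha3 v (hN hv))
    intro b hb v hv
    have h1 := inCK_span ρ K hb
    clear hb
    induction h1 using Submodule.span_induction with
    | mem y hy =>
      obtain ⟨d, hd, rfl⟩ := hy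
      exact hNs d hd v hv
    | zero =>
      rw [Matrix.zero_mulVec]
      exact Submodule.zero_mem _
    | add y z _ _ hy hz =>
      rw [Matrix.add_mulVec]
      exact Submodule.add_mem _ hy hz
    | smul t y _ hy =>
      rw [Matrix.smul_mulVec]
      exact Submodule.smul_mem _ t hy
  · intro z₂ κ₂ z₃ κ₃ z₄ κ₄ hW2 hW3 hW4 hsum N hN hrel
    obtain ⟨b, hb1, hb2, -, hb4⟩ := key z₂ κ₂ hW2
    obtain ⟨u, hu1, hu2, -, hu4⟩ := key z₃ κ₃ hW3
    obtain ⟨v, hv1, hv2, -, hv4⟩ := key z₄ κ₄ hW4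
    -- the action of central elements
    have hact : ∀ z κ (a : Fin D.n), WtM ρ K γ z κ = LinearMap.range (Matrix.toLin' (D.ε a)) →
        ∀ x ∈ Zm ρ, x.map φ * D.ε a = κ x • D.ε a := by
      intro z κ a h x hx
      refine Matrix.ext_iff_mulVec.mpr fun w => ?_
      have h1 : D.ε a *ᵥ w ∈ WtM ρ K γ z κ := by
        rw [h]
        exact ⟨w, Matrix.toLin'_apply _ _⟩
      have h2 := h1.2
      rw [SetLike.mem_coe, Submodule.mem_iInf] at h2
      have h3 := h2 ⟨x, hx⟩
      rw [Module.End.mem_eigenspace_iff, Matrix.toLin'_apply] at h3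
      rw [← Matrix.mulVec_mulVec, Matrix.smul_mulVec]
      exact h3
    have hdual : ∀ z' κ' (b : Fin D.n), D.z b = z' →
        WtM ρ K γ z' κ' = LinearMap.range (Matrix.toLin' (D.ε b)) → b = D.st a →
        DualM ρ K γ z κ z' κ' := by
      intro z' κ' b hb1 hb4 hba
      refine ⟨?_, ?_⟩
      · rw [← ha1, ← hb1, hba]
        exact D.zdual a
      · intro x hx
        have h1 := hact z κ a ha4 x hx
        have h2 := hact z' κ' b hb4 x hx
        have h3 := congrArg (adj J') h1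
        have h4 : adj J' (κ x • D.ε a) = κ x • adj J' (D.ε a) := by
          unfold adj
          rw [Matrix.transpose_smul, mul_smul_comm, smul_mul_assoc]
        rw [adj_mul hJdet, (adj_skew hJdet _).mp (hskew x hx), h4, D.star, ← hba, mul_neg] at h3
        have h5 : x.map φ * D.ε b = D.ε b * x.map φ := by
          refine D.comm b _ (hzg x hx) ?_
          rw [hc', ← Matrix.map_mul, hx.2.1 c hc.1, Matrix.map_mul]
        rw [← h5, h2] at h3
        have h6 : (κ x + κ' x) • D.ε b = 0 := by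
          rw [add_smul, ← h3, neg_add_cancel]
        exact (smul_eq_zero.mp h6).resolve_right (D.ne b)
    have hkk : D.k a + D.k b + D.k u + D.k v = 0 := by
      rw [ha2, hb2, hu2, hv2]
      exact hsum c hc
    have hzz : (D.z a * D.z b * D.z u * D.z v) ^ N = μ' ^ (2 * N) := by
      rw [ha1, hb1, hu1, hv1]
      exact hrel
    have hmx : ∀ z κ, WtM ρ K γ z κ ≠ ⊥ →
        Module.End.maxGenEigenspace (Matrix.toLin' g) z ≠ ⊥ := by
      intro z κ h1 h2
      apply h1
      rw [eq_bot_iff]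
      intro x hx
      have h3 : x ∈ Module.End.maxGenEigenspace (Matrix.toLin' g) z := hx.1
      rw [h2] at h3
      exact h3
    obtain ⟨N', hN', hzz', hcoef⟩ := hγ N hN (D.z a) (D.z b) (D.z u) (D.z v)
      (by rw [ha1]; exact hmx _ _ hW) (by rw [hb1]; exact hmx _ _ hW2)
      (by rw [hu1]; exact hmx _ _ hW3) (by rw [hv1]; exact hmx _ _ hW4) hzz
    rcases gap_rel hJdet D hne (cK ρ K) hCg hCc hcg r hr' N' (hG N' hN' hcoef) a b u v hkk hzz'
      with
      ⟨h, -⟩ | ⟨h, -⟩ | ⟨h, -⟩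
    · exact Or.inl (hdual z₂ κ₂ b hb1 hb4 h)
    · exact Or.inr (Or.inl (hdual z₃ κ₃ u hu1 hu4 h))
    · exact Or.inr (Or.inr (hdual z₄ κ₄ v hv1 hv4 h))

theorem good_of_few (hsemi : ρ.Semi) (hfull : Full0 ρ) {c : Matrix I I F} (hc : c ∈ Zm ρ)
    (kb : KB (d4 c)) (k0 : KB c) (r : ℕ)
    (hr : ∀ X : Matrix I I K, Xᵀ * ρ.J.map (algebraMap F K) + ρ.J.map (algebraMap F K) * X = 0 →
        (∀ b, InCK ρ K b → X * b = b * X) →
          r ≤ Module.finrank K (NN (c.map (algebraMap F K)) X)) (γ : Γ)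
    (hγ : Few kb k0 r (ρ.M γ) (ρ.μ γ : F)) : GoodM ρ K γ :=
  good_gen ρ K hsemi hfull hc kb k0 r hr γ (hγ.1 1 one_pos) hγ.2
    fun N hN _ _ _ _ _ _ _ _ h => ⟨N, hN, h, hγ.1 N hN⟩

end Pool.Agent.Lib.MP_640417_ag.Gn
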